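import Mathlib

set_option autoImplicit false

namespace Pool.Agent.Lib.MP_25cd9a_co

/-- The strong product of two graphs. -/
def strongProd {α β : Type} (A : SimpleGraph α) (B : SimpleGraph β) : SimpleGraph (α × β) where
  Adj x y := (x.1 = y.1 ∧ B.Adj x.2 y.2) ∨ (x.2 = y.2 ∧ A.Adj x.1 y.1) ∨
    (A.Adj x.1 y.1 ∧ B.Adj x.2 y.2)
  symm := ⟨fun _ _ h => h.imp (fun h => ⟨h.1.symm, h.2.symm⟩)
    (Or.imp (fun h => ⟨h.1.symm, h.2.symm⟩) fun h => ⟨h.1.symm, h.2.symm⟩)⟩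
  loopless := ⟨fun _ h => h.elim (fun h => B.irrefl h.2)
    fun h => h.elim (fun h => A.irrefl h.2) fun h => A.irrefl h.1⟩

/-- `H` has a tree decomposition of width at most `c`. -/
def TreewidthLE {W : Type} (H : SimpleGraph W) (c : ℕ) : Prop :=
  ∃ (n : ℕ) (T : SimpleGraph (Fin n)) (bag : Fin n → Finset W), T.IsTree ∧
    (∀ u v, H.Adj u v → ∃ t, u ∈ bag t ∧ v ∈ bag t) ∧
    (∀ v, (T.induce {t | v ∈ bag t}).Connected) ∧ ∀ t, (bag t).card ≤ c + 1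

/-- `G` has a drawing in the plane in which every edge meets at most `k` other edges
away from the vertices. -/
def KPlanar {V : Type} (k : ℕ) (G : SimpleGraph V) : Prop :=
  ∃ (pos : V → ℝ × ℝ) (arc : Sym2 V → ℝ → ℝ × ℝ), Function.Injective pos ∧
    (∀ u v, G.Adj u v → ContinuousOn (arc s(u, v)) (Set.Icc 0 1) ∧
      Set.InjOn (arc s(u, v)) (Set.Icc 0 1) ∧
      ((arc s(u, v) 0 = pos u ∧ arc s(u, v) 1 = pos v) ∨
        (arc s(u, v) 0 = pos v ∧ arc s(u, v) 1 = pos u)) ∧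
      ∀ w, ∀ t ∈ Set.Ioo (0 : ℝ) 1, arc s(u, v) t ≠ pos w) ∧
    ∀ e ∈ G.edgeSet, {f | f ∈ G.edgeSet ∧ f ≠ e ∧
      (arc e '' Set.Ioo 0 1 ∩ arc f '' Set.Ioo 0 1).Nonempty}.encard ≤ k

/-- One function `f` works for all `k` with treewidth bound `c`. -/
def Admissible (c : ℕ) : Prop :=
  ∃ f : ℕ → ℕ, ∀ (k n : ℕ) (G : SimpleGraph (Fin n)), KPlanar k G →
    ∃ (m l : ℕ) (H : SimpleGraph (Fin m)), TreewidthLE H c ∧
      G.IsContained (strongProd (strongProd H (SimpleGraph.pathGraph (l + 1)))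
        (SimpleGraph.completeGraph (Fin (f k))))

end Pool.Agent.Lib.MP_25cd9a_co
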