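import Mathlib

set_option autoImplicit false

namespace Pool.Agent.Lib.MP_25cd9a_co

open Set

variable {V : Type*} (G : SimpleGraph V)

/-- Reachability inside a vertex set. -/
def Rch (S : Set V) (x y : V) : Prop :=
  Relation.ReflTransGen (fun a b => G.Adj a b ∧ a ∈ S ∧ b ∈ S) x y

/-- The set induces a connected or empty subgraph. -/
def Conn (S : Set V) : Prop := ∀ x ∈ S, ∀ y ∈ S, Rch G S x y

/-- Some edge joins the two sets. -/
def Tch (S T : Set V) : Prop := ∃ x ∈ S, ∃ y ∈ T, G.Adj x y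

/-- The component of a vertex inside a set. -/
def comp (S : Set V) (x : V) : Set V := {y | y ∈ S ∧ Rch G S x y}

variable {G}

theorem Rch.refl (S : Set V) (x : V) : Rch G S x x := Relation.ReflTransGen.refl

theorem Rch.trans {S : Set V} {x y z : V} (h : Rch G S x y) (h' : Rch G S y z) : Rch G S x z :=
  Relation.ReflTransGen.trans h h'

theorem Rch.step {S : Set V} {x y : V} (h : G.Adj x y) (hx : x ∈ S) (hy : y ∈ S) :
    Rch G S x y := Relation.ReflTransGen.single ⟨h, hx, hy⟩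

theorem Rch.symm {S : Set V} {x y : V} (h : Rch G S x y) : Rch G S y x := by
  induction h with
  | refl => exact Rch.refl _ _
  | tail _ hb ih => exact (Rch.step hb.1.symm hb.2.2 hb.2.1).trans ih

theorem Rch.mono {S T : Set V} (hST : S ⊆ T) {x y : V} (h : Rch G S x y) : Rch G T x y := by
  induction h with
  | refl => exact Rch.refl _ _
  | tail _ hb ih => exact ih.trans (Rch.step hb.1 (hST hb.2.1) (hST hb.2.2))

theorem Rch.ind {S : Set V} {x y : V} (h : Rch G S x y) (P : V → Prop) (hx : P x)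
    (hs : ∀ a b, a ∈ S → b ∈ S → G.Adj a b → P a → P b) : P y := by
  induction h with
  | refl => exact hx
  | tail _ hb ih => exact hs _ _ hb.2.1 hb.2.2 hb.1 ih

theorem Rch.mem {S : Set V} {x y : V} (h : Rch G S x y) (hx : x ∈ S) : y ∈ S :=
  h.ind (· ∈ S) hx fun _ _ _ hb _ _ => hb

theorem Conn.ind {S : Set V} (h : Conn G S) {x : V} (hx : x ∈ S) (P : V → Prop) (hP : P x)
    (hs : ∀ a b, a ∈ S → b ∈ S → G.Adj a b → P a → P b) : ∀ y ∈ S, P y :=
  fun y hy => (h x hx y hy).ind P hP hs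

theorem conn_of_rch {S : Set V} (z : V) (h : ∀ x ∈ S, Rch G S x z) : Conn G S :=
  fun x hx y hy => (h x hx).trans (h y hy).symm

theorem conn_empty : Conn G (∅ : Set V) := fun _ h => h.elim

theorem conn_singleton (x : V) : Conn G {x} := by
  intro a ha b hb
  rw [mem_singleton_iff] at ha hb
  rw [ha, hb]
  exact Rch.refl _ _

theorem Tch.symm {S T : Set V} (h : Tch G S T) : Tch G T S := by
  obtain ⟨x, hx, y, hy, h⟩ := h
  exact ⟨y, hy, x, hx, h.symm⟩

theorem Tch.mono {S T S' T' : Set V} (h : Tch G S T) (hS : S ⊆ S') (hT : T ⊆ T') :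
    Tch G S' T' := by
  obtain ⟨x, hx, y, hy, h⟩ := h
  exact ⟨x, hS hx, y, hT hy, h⟩

theorem Tch.left {S T : Set V} (h : Tch G S T) : S.Nonempty := by
  obtain ⟨x, hx, -⟩ := h
  exact ⟨x, hx⟩

theorem Tch.right {S T : Set V} (h : Tch G S T) : T.Nonempty := h.symm.left

theorem Conn.union_tch {S T : Set V} (hS : Conn G S) (hT : Conn G T) (h : Tch G S T) :
    Conn G (S ∪ T) := by
  obtain ⟨x, hx, y, hy, h⟩ := h
  refine conn_of_rch x ?_
  rintro z (hz | hz)
  · exact (hS z hz x hx).mono subset_union_left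
  · exact ((hT z hz y hy).mono subset_union_right).trans
      (Rch.step h.symm (Or.inr hy) (Or.inl hx))

theorem Conn.union_inter {S T : Set V} (hS : Conn G S) (hT : Conn G T) {x : V} (hx : x ∈ S)
    (hx' : x ∈ T) : Conn G (S ∪ T) := by
  refine conn_of_rch x ?_
  rintro z (hz | hz)
  · exact (hS z hz x hx).mono subset_union_left
  · exact (hT z hz x hx').mono subset_union_right

/-- A set is connected if every vertex reaches a connected subset. -/
theorem conn_of_base {A S : Set V} (hA : Conn G A) (hAS : A ⊆ S)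
    (h : ∀ x ∈ S, ∃ y ∈ A, Rch G S x y) : Conn G S := by
  intro x hx y hy
  obtain ⟨a, ha, hxa⟩ := h x hx
  obtain ⟨b, hb, hyb⟩ := h y hy
  exact hxa.trans (((hA a ha b hb).mono hAS).trans hyb.symm)

theorem comp_subset (S : Set V) (x : V) : comp G S x ⊆ S := fun _ h => h.1

theorem mem_comp_self {S : Set V} {x : V} (hx : x ∈ S) : x ∈ comp G S x := ⟨hx, Rch.refl _ _⟩

theorem comp_step {S : Set V} {x y z : V} (hy : y ∈ comp G S x) (hz : z ∈ S) (h : G.Adj y z) :
    z ∈ comp G S x := ⟨hz, hy.2.trans (Rch.step h hy.1 hz)⟩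

theorem comp_conn (S : Set V) (x : V) : Conn G (comp G S x) := by
  by_cases hx : x ∈ S
  · refine conn_of_rch x fun y hy => Rch.symm ?_
    refine (hy.2.ind (fun y => y ∈ comp G S x ∧ Rch G (comp G S x) x y)
      ⟨mem_comp_self hx, Rch.refl _ _⟩ ?_).2
    intro a b _ hb hab ha
    have := comp_step ha.1 hb hab
    exact ⟨this, ha.2.trans (Rch.step hab ha.1 this)⟩
  · intro y hy
    exact (hx (hy.2.symm.mem hy.1)).elim

theorem Conn.subset_comp {S T : Set V} (hT : Conn G T) (hTS : T ⊆ S) {x y : V} (hy : y ∈ T)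
    (hy' : y ∈ comp G S x) : T ⊆ comp G S x :=
  fun z hz => ⟨hTS hz, hy'.2.trans ((hT y hy z hz).mono hTS)⟩

theorem comp_eq {S : Set V} {x y : V} (hy : y ∈ comp G S x) : comp G S y = comp G S x := by
  ext z
  exact ⟨fun h => ⟨h.1, hy.2.trans h.2⟩, fun h => ⟨h.1, hy.2.symm.trans h.2⟩⟩

theorem comp_eq_of_mem {S : Set V} {x y z : V} (hx : z ∈ comp G S x) (hy : z ∈ comp G S y) :
    comp G S x = comp G S y := by rw [← comp_eq hx, comp_eq hy]

theorem Conn.exit {S A : Set V} (hS : Conn G S) {x y : V} (hx : x ∈ S) (hxA : x ∈ A)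
    (hy : y ∈ S) (hyA : y ∉ A) : ∃ a b, a ∈ S ∧ a ∈ A ∧ b ∈ S ∧ b ∉ A ∧ G.Adj a b := by
  by_contra hne
  push Not at hne
  exact hyA (hS.ind hx (· ∈ A) hxA
    (fun a b ha hb hab haA => by_contra fun hbA => hne a b ha haA hb hbA hab) y hy)

theorem Conn.comp_tch {S T : Set V} (hS : Conn G S) {y z : V} (hy : y ∈ S) (hyT : y ∉ T)
    (hz : z ∈ S) (hzT : z ∈ T) : Tch G (comp G (S \ T) y) (S ∩ T) := by
  obtain ⟨a, b, -, ha, hb, hb', hab⟩ := hS.exit (A := comp G (S \ T) y) hy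
    (mem_comp_self ⟨hy, hyT⟩) hz (fun h => h.1.2 hzT)
  refine ⟨a, ha, b, ⟨hb, ?_⟩, hab⟩
  by_contra hbT
  exact hb' (comp_step ha ⟨hb, hbT⟩ hab)

/-- A connected set that joins two far apart sets has a piece outside both touching both. -/
theorem Conn.two_sided {S B₁ B₂ : Set V} (hS : Conn G S)
    (hd : ∀ x ∈ S, x ∈ B₁ → x ∉ B₂)
    (h12 : ∀ x ∈ S, x ∈ B₁ → ∀ y ∈ B₂, ¬ G.Adj x y)
    (h21 : ∀ x ∈ S, x ∈ B₂ → ∀ y ∈ B₁, ¬ G.Adj x y)
    {x₁ x₂ : V} (hx₁ : x₁ ∈ S) (hx₂ : x₂ ∈ S)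
    (h₁ : x₁ ∈ B₁ ∨ ∃ y ∈ B₁, G.Adj x₁ y) (h₂ : x₂ ∈ B₂ ∨ ∃ y ∈ B₂, G.Adj x₂ y) :
    ∃ y ∈ S \ (B₁ ∪ B₂), Tch G (comp G (S \ (B₁ ∪ B₂)) y) B₁ ∧
      Tch G (comp G (S \ (B₁ ∪ B₂)) y) B₂ := by
  by_contra hne
  push Not at hne
  have key := hS.ind hx₁
    (fun y => y ∈ B₁ ∨ (y ∈ S \ (B₁ ∪ B₂) ∧ Tch G (comp G (S \ (B₁ ∪ B₂)) y) B₁)) ?_ ?_ x₂ hx₂
  · rcases key with h | ⟨h, h'⟩
    · rcases h₂ with h₂ | ⟨y, hy, h₂⟩
      · exact hd _ hx₂ h h₂
      · exact h12 _ hx₂ h y hy h₂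
    · rcases h₂ with h₂ | ⟨y, hy, h₂⟩
      · exact h.2 (Or.inr h₂)
      · exact hne _ h h' ⟨x₂, mem_comp_self h, y, hy, h₂⟩
  · by_cases hb : x₁ ∈ B₁
    · exact Or.inl hb
    · rcases h₁ with h₁ | ⟨y, hy, h₁⟩
      · exact (hb h₁).elim
      · have : x₁ ∈ S \ (B₁ ∪ B₂) := ⟨hx₁, by
          rintro (h | h)
          · exact hb h
          · exact h21 _ hx₁ h y hy h₁⟩
        exact Or.inr ⟨this, x₁, mem_comp_self this, y, hy, h₁⟩
  · intro a b ha hb hab hP
    by_cases hb1 : b ∈ B₁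
    · exact Or.inl hb1
    rcases hP with h | ⟨h, h'⟩
    · have : b ∈ S \ (B₁ ∪ B₂) := ⟨hb, by
        rintro (h' | h')
        · exact hb1 h'
        · exact h12 _ ha h b h' hab⟩
      exact Or.inr ⟨this, b, mem_comp_self this, a, h, hab.symm⟩
    · have : b ∈ S \ (B₁ ∪ B₂) := ⟨hb, by
        rintro (h'' | h'')
        · exact hb1 h''
        · exact hne _ h h' ⟨a, mem_comp_self h, b, h'', hab⟩⟩
      refine Or.inr ⟨this, ?_⟩
      rw [comp_eq (comp_step (mem_comp_self h) this hab)]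
      exact h'

variable (G)

/-- No `K₃,₃` minor. -/
def NoK33 : Prop := ∀ A B C D E F : Set V,
  Conn G A → Conn G B → Conn G C → Conn G D → Conn G E → Conn G F →
  Disjoint A B → Disjoint A C → Disjoint B C → Disjoint D E → Disjoint D F → Disjoint E F →
  Disjoint A D → Disjoint A E → Disjoint A F → Disjoint B D → Disjoint B E → Disjoint B F →
  Disjoint C D → Disjoint C E → Disjoint C F →
  Tch G A D → Tch G A E → Tch G A F → Tch G B D → Tch G B E → Tch G B F →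
  Tch G C D → Tch G C E → Tch G C F → False

/-- No `K₅` minor. -/
def NoK5 : Prop := ∀ A B C D E : Set V,
  Conn G A → Conn G B → Conn G C → Conn G D → Conn G E →
  Disjoint A B → Disjoint A C → Disjoint A D → Disjoint A E → Disjoint B C → Disjoint B D →
  Disjoint B E → Disjoint C D → Disjoint C E → Disjoint D E →
  Tch G A B → Tch G A C → Tch G A D → Tch G A E → Tch G B C → Tch G B D → Tch G B E →
  Tch G C D → Tch G C E → Tch G D E → False

end Pool.Agent.Lib.MP_25cd9a_co
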