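import Pool.Agent.Lib.MP_25cd9a_co.VanKampen
import Pool.Agent.Lib.MP_25cd9a_co.Assemble

set_option autoImplicit false

namespace Pool.Agent.Lib.MP_25cd9a_co

open Set Metric Filter Topology

theorem exists_sep {ι : Type*} [Finite ι] (K : ι → Set (ℝ × ℝ)) (hK : ∀ i, IsCompact (K i)) :
    ∃ η > 0, ∀ i j, Disjoint (K i) (K j) → ∀ x ∈ K i, ∀ y ∈ K j, η ≤ dist x y := by
  have : ∀ᶠ η in 𝓝[>] (0 : ℝ), ∀ i j, Disjoint (K i) (K j) → ∀ x ∈ K i, ∀ y ∈ K j,
      η ≤ dist x y := by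
    refine eventually_all.2 fun i => eventually_all.2 fun j => ?_
    by_cases h : Disjoint (K i) (K j)
    · obtain ⟨r, hr, h'⟩ := exists_pos_forall_lt_edist (hK i) (hK j).isClosed h
      filter_upwards [Ioo_mem_nhdsGT (show (0 : ℝ) < r from hr)] with η hη _ x hx y hy
      have := h' x hx y hy
      rw [edist_nndist, ENNReal.coe_lt_coe] at this
      exact hη.2.le.trans (le_of_lt this)
    · exact Eventually.of_forall fun _ h' => (h h').elim
  obtain ⟨η, h1, h2⟩ := (this.and self_mem_nhdsWithin).exists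
  exact ⟨η, h2, h1⟩

/-- A lattice point. -/
def pt (ε : ℝ) (c : ℤ × ℤ) : ℝ × ℝ := (ε * c.1, ε * c.2)

/-- The lattice points close to a set. -/
def cells (ε : ℝ) (S : Set (ℝ × ℝ)) : Set (ℤ × ℤ) := {c | ∃ x ∈ S, dist x (pt ε c) < ε}

variable {ε : ℝ}

theorem near_one (hε : 0 < ε) (x : ℝ) : dist x (ε * (⌊x / ε⌋ : ℤ)) < ε := by
  have h1 := Int.floor_le (x / ε)
  have h2 := Int.lt_floor_add_one (x / ε)
  rw [le_div_iff₀ hε] at h1
  rw [div_lt_iff₀ hε] at h2
  rw [Real.dist_eq, abs_lt]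
  constructor <;> nlinarith

theorem near_two (hε : 0 < ε) {x : ℝ} {a b : ℤ} (ha : dist x (ε * a) < ε)
    (hb : dist x (ε * b) < ε) : a ≤ b + 1 := by
  rw [Real.dist_eq, abs_lt] at ha hb
  have : (a : ℝ) < b + 2 := by nlinarith
  have : a < b + 2 := by exact_mod_cast this
  omega

theorem near_exists (hε : 0 < ε) (x : ℝ × ℝ) : ∃ c, dist x (pt ε c) < ε :=
  ⟨(⌊x.1 / ε⌋, ⌊x.2 / ε⌋), by
    rw [Prod.dist_eq, max_lt_iff]
    exact ⟨near_one hε _, near_one hε _⟩⟩

theorem near_rch (hε : 0 < ε) {S : Set (ℝ × ℝ)} {x : ℝ × ℝ} (hx : x ∈ S) {c d : ℤ × ℤ}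
    (hc : dist x (pt ε c) < ε) (hd : dist x (pt ε d) < ε) : Rch grid (cells ε S) c d := by
  have hc' := hc
  have hd' := hd
  rw [Prod.dist_eq, max_lt_iff] at hc' hd'
  have he : dist x (pt ε (c.1, d.2)) < ε := by
    rw [Prod.dist_eq, max_lt_iff]
    exact ⟨hc'.1, hd'.2⟩
  have h1 := near_two hε hc'.1 hd'.1
  have h2 := near_two hε hd'.1 hc'.1
  have h3 := near_two hε hc'.2 hd'.2
  have h4 := near_two hε hd'.2 hc'.2
  refine Rch.trans (y := (c.1, d.2)) ?_ ?_
  · by_cases e : c.2 = d.2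
    · rw [← e]; exact Rch.refl _ _
    · exact Rch.step (Or.inl ⟨rfl, by simp only; omega⟩) ⟨x, hx, hc⟩ ⟨x, hx, he⟩
  · by_cases e : c.1 = d.1
    · rw [e]; exact Rch.refl _ _
    · exact Rch.step (Or.inr ⟨rfl, by simp only; omega⟩) ⟨x, hx, he⟩ ⟨x, hx, hd⟩

theorem cells_conn (hε : 0 < ε) {S : Set (ℝ × ℝ)} (hS : IsPreconnected S) :
    Conn grid (cells ε S) := by
  rintro c ⟨x, hx, hc⟩ d ⟨y, hy, hd⟩
  by_contra hne
  obtain ⟨z, hz, h1, h2⟩ := hS (⋃ e ∈ {e | Rch grid (cells ε S) c e}, ball (pt ε e) ε)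
    (⋃ e ∈ {e | ¬ Rch grid (cells ε S) c e}, ball (pt ε e) ε)
    (isOpen_biUnion fun _ _ => isOpen_ball) (isOpen_biUnion fun _ _ => isOpen_ball)
    (fun z _ => by
      obtain ⟨e, he⟩ := near_exists hε z
      by_cases h : Rch grid (cells ε S) c e
      · exact Or.inl (mem_biUnion h he)
      · exact Or.inr (mem_biUnion h he))
    ⟨x, hx, mem_biUnion (Rch.refl _ _) hc⟩ ⟨y, hy, mem_biUnion hne hd⟩
  obtain ⟨e, he, h1⟩ := mem_iUnion₂.1 h1
  obtain ⟨e', he', h2⟩ := mem_iUnion₂.1 h2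
  exact he' (Rch.trans he (near_rch hε hz h1 h2))

theorem adj_dist (hε : 0 < ε) {c d : ℤ × ℤ} (h : c = d ∨ grid.Adj c d) :
    dist (pt ε c) (pt ε d) ≤ ε := by
  have key : ∀ a b : ℤ, a ≤ b + 1 → b ≤ a + 1 → dist (ε * a) (ε * b) ≤ ε := by
    intro a b h1 h2
    have h1' : (a : ℝ) ≤ b + 1 := by exact_mod_cast h1
    have h2' : (b : ℝ) ≤ a + 1 := by exact_mod_cast h2
    rw [Real.dist_eq, abs_le]
    constructor <;> nlinarith
  rw [Prod.dist_eq, max_le_iff]
  rcases h with rfl | h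
  · simp [hε.le]
  · simp only [grid] at h
    exact ⟨key _ _ (by omega) (by omega), key _ _ (by omega) (by omega)⟩

theorem cells_finite (hε : 0 < ε) (R : ℝ) : (cells ε (ball 0 R)).Finite := by
  have key : ∀ (x : ℝ) (a : ℤ), dist x 0 < R → dist x (ε * a) < ε →
      -⌈R / ε + 1⌉ ≤ a ∧ a ≤ ⌈R / ε + 1⌉ := by
    intro x a h1 h2
    have h3 := Int.le_ceil (R / ε + 1)
    have h4 : R / ε * ε = R := div_mul_cancel₀ _ hε.ne'
    rw [Real.dist_eq, abs_lt] at h1 h2
    have h5 : (-⌈R / ε + 1⌉ : ℝ) ≤ a := by nlinarith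
    have h6 : (a : ℝ) ≤ ⌈R / ε + 1⌉ := by nlinarith
    exact ⟨by exact_mod_cast h5, by exact_mod_cast h6⟩
  refine (finite_Icc ((-⌈R / ε + 1⌉, -⌈R / ε + 1⌉) : ℤ × ℤ) (⌈R / ε + 1⌉, ⌈R / ε + 1⌉)).subset ?_
  rintro c ⟨x, hx, hc⟩
  rw [mem_ball, Prod.dist_eq, max_lt_iff] at hx
  rw [Prod.dist_eq, max_lt_iff] at hc
  have h1 := key _ _ hx.1 hc.1
  have h2 := key _ _ hx.2 hc.2
  exact ⟨⟨h1.1, h2.1⟩, ⟨h1.2, h2.2⟩⟩

theorem Conn.preimage {V : Type*} {G : SimpleGraph V} {S U : Set V} (h : Conn G S) (hU : S ⊆ U) :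
    Conn (G.induce U) (Subtype.val ⁻¹' S) := by
  intro a ha b hb
  exact (h a ha b hb).ind (fun y => ∀ hy : y ∈ U, Rch (G.induce U) (Subtype.val ⁻¹' S) a ⟨y, hy⟩)
    (fun _ => Rch.refl _ _) (fun x y hx hy hxy ih hy' =>
      (ih (hU hx)).trans (Rch.step (by simpa using hxy) hx hy)) b.2

theorem discretize {ι : Type*} [Finite ι] (K : ι → Set (ℝ × ℝ)) (hc : ∀ i, IsCompact (K i))
    (hp : ∀ i, IsPreconnected (K i)) :
    ∃ (U : Set (ℤ × ℤ)) (C : ι → Set U) (r : U), U.Finite ∧ Conn (grid.induce U) univ ∧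
      (∀ i, Conn (grid.induce U) (C i)) ∧ (∀ i, r ∉ C i) ∧
      (∀ i j, Disjoint (K i) (K j) → ∀ x ∈ C i, ∀ y ∈ C j, x ≠ y ∧ ¬ (grid.induce U).Adj x y) ∧
      ∀ i j, (K i ∩ K j).Nonempty → (C i ∩ C j).Nonempty := by
  obtain ⟨η, hη, hsep⟩ := exists_sep K hc
  obtain ⟨R, hR, hK⟩ := (Bornology.isBounded_iUnion.2 fun i => (hc i).isBounded).subset_ball_lt 0 0
  set ε := η / 3 with hε'
  have hε : 0 < ε := by positivity
  have sub : ∀ i, K i ⊆ ball 0 (R + 3 * ε) := fun i =>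
    ((subset_iUnion K i).trans hK).trans (ball_subset_ball (by linarith))
  have csub : ∀ i, cells ε (K i) ⊆ cells ε (ball 0 (R + 3 * ε)) := by
    rintro i c ⟨x, hx, h⟩
    exact ⟨x, sub i hx, h⟩
  obtain ⟨r, hr⟩ := near_exists hε (R + 2 * ε, 0)
  have hz : dist ((R + 2 * ε, 0) : ℝ × ℝ) 0 = R + 2 * ε := by
    rw [Prod.dist_eq]
    simp only [Prod.fst_zero, Prod.snd_zero, dist_self, dist_zero_right, Real.norm_eq_abs]
    rw [abs_of_pos (by positivity), max_eq_left (by positivity)]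
  refine ⟨cells ε (ball 0 (R + 3 * ε)), fun i => Subtype.val ⁻¹' cells ε (K i),
    ⟨r, _, by rw [mem_ball, hz]; linarith, hr⟩, cells_finite hε _, ?_,
    fun i => (cells_conn hε (hp i)).preimage (csub i), ?_, ?_, ?_⟩
  · have := (cells_conn hε (isPreconnected_ball (x := (0 : ℝ × ℝ)) (r := R + 3 * ε))).preimage
      subset_rfl
    rwa [Subtype.coe_preimage_self] at this
  · rintro i ⟨x, hx, h⟩
    have h1 := mem_ball.1 (hK (mem_iUnion.2 ⟨i, hx⟩))
    have h2 := dist_triangle4 ((R + 2 * ε, 0) : ℝ × ℝ) (pt ε r) x 0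
    rw [dist_comm] at h
    simp only at h
    linarith
  · rintro i j hd c ⟨x, hx, h⟩ d ⟨y, hy, h'⟩
    have key : ¬ (c.1 = d.1 ∨ grid.Adj c.1 d.1) := fun e => by
      have h1 := hsep i j hd x hx y hy
      have h2 := adj_dist hε e
      have h3 := dist_triangle4 x (pt ε c) (pt ε d) y
      rw [dist_comm] at h'
      linarith
    exact ⟨fun e => key (Or.inl (by rw [e])), fun e => key (Or.inr (by simpa using e))⟩
  · rintro i j ⟨x, hx, hx'⟩
    obtain ⟨c, hc⟩ := near_exists hε x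
    exact ⟨⟨c, x, sub i hx, hc⟩, ⟨x, hx, hc⟩, ⟨x, hx', hc⟩⟩

theorem trim {γ : ℝ → ℝ × ℝ} (h : ContinuousOn γ (Icc 0 1)) {δ : ℝ} (hδ : 0 < δ) :
    ∃ a b, 0 < a ∧ a ≤ b ∧ b < 1 ∧ dist (γ a) (γ 0) ≤ δ ∧ dist (γ b) (γ 1) ≤ δ := by
  obtain ⟨p, hp, h0⟩ := Metric.continuousWithinAt_iff.1 (h 0 (by simp)) δ hδ
  obtain ⟨q, hq, h1⟩ := Metric.continuousWithinAt_iff.1 (h 1 (by simp)) δ hδ
  have a1 : 0 < min (p / 2) (1 / 2) := by positivity
  have a2 := min_le_left (p / 2) (1 / 2)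
  have a3 := min_le_right (p / 2) (1 / 2)
  have b1 : 0 < min (q / 2) (1 / 2) := by positivity
  have b2 := min_le_left (q / 2) (1 / 2)
  have b3 := min_le_right (q / 2) (1 / 2)
  refine ⟨min (p / 2) (1 / 2), 1 - min (q / 2) (1 / 2), a1, by linarith, by linarith,
    (h0 ⟨a1.le, by linarith⟩ ?_).le, (h1 ⟨by linarith, by linarith⟩ ?_).le⟩
  · rw [Real.dist_eq, abs_lt]
    constructor <;> linarith
  · rw [Real.dist_eq, abs_lt]
    constructor <;> linarith

theorem KPlanar.model {V : Type} [Finite V] {G : SimpleGraph V} {k : ℕ} (h : KPlanar k G) :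
    ∃ U : Set (ℤ × ℤ), U.Finite ∧ Nonempty (Model (grid.induce U) G k) := by
  classical
  obtain ⟨pos, arc, inj, harc, hcross⟩ := h
  have cont : ∀ e ∈ G.edgeSet, ContinuousOn (arc e) (Icc 0 1) := by
    intro e he
    induction e using Sym2.ind with
    | _ u v => exact (harc u v he).1
  obtain ⟨η, hη, hsep⟩ := exists_sep
    (Sum.elim (fun u => {pos u}) fun e => if e ∈ G.edgeSet then arc e '' Icc 0 1 else ∅) (by
      rintro (u | e)
      · exact isCompact_singleton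
      · simp only [Sum.elim_inr]
        split_ifs with he
        · exact isCompact_Icc.image_of_continuousOn (cont e he)
        · exact isCompact_empty)
  set δ := η / 3 with hδ'
  have hδ : 0 < δ := by positivity
  have tr : ∀ e, ∃ a b, e ∈ G.edgeSet → 0 < a ∧ a ≤ b ∧ b < 1 ∧
      dist (arc e a) (arc e 0) ≤ δ ∧ dist (arc e b) (arc e 1) ≤ δ := by
    intro e
    by_cases he : e ∈ G.edgeSet
    · obtain ⟨a, b, h⟩ := trim (cont e he) hδ
      exact ⟨a, b, fun _ => h⟩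
    · exact ⟨0, 0, fun h => (he h).elim⟩
  choose a b hab using tr
  have sub : ∀ e ∈ G.edgeSet, Icc (a e) (b e) ⊆ Ioo 0 1 := fun e he =>
    Icc_subset_Ioo (hab e he).1 (hab e he).2.2.1
  let K : V ⊕ Sym2 V → Set (ℝ × ℝ) := Sum.elim (fun u => closedBall (pos u) δ)
    fun e => if e ∈ G.edgeSet then arc e '' Icc (a e) (b e) else ∅
  obtain ⟨U, C, r, hU, cU, cC, hr, sep, meet⟩ := discretize K (by
      rintro (u | e)
      · exact isCompact_closedBall _ _
      · simp only [K, Sum.elim_inr]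
        split_ifs with he
        · exact isCompact_Icc.image_of_continuousOn
            ((cont e he).mono ((sub e he).trans Ioo_subset_Icc_self))
        · exact isCompact_empty) (by
      rintro (u | e)
      · exact isPreconnected_closedBall
      · simp only [K, Sum.elim_inr]
        split_ifs with he
        · exact isPreconnected_Icc.image _
            ((cont e he).mono ((sub e he).trans Ioo_subset_Icc_self))
        · exact isPreconnected_empty)
  have dBB : ∀ u v, u ≠ v → Disjoint (K (.inl u)) (K (.inl v)) := by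
    intro u v huv
    refine closedBall_disjoint_closedBall ?_
    have := hsep (.inl u) (.inl v) (by simpa using inj.ne huv) (pos u) rfl (pos v) rfl
    linarith
  have dBD : ∀ w e, w ∉ e → Disjoint (K (.inl w)) (K (.inr e)) := by
    intro w e hw
    simp only [K, Sum.elim_inr, Sum.elim_inl]
    split_ifs with he
    · rw [disjoint_left]
      rintro x hx ⟨t, ht, rfl⟩
      have := hsep (.inl w) (.inr e) ?_ (pos w) rfl (arc e t)
        (by simp only [Sum.elim_inr, if_pos he]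
            exact ⟨t, Ioo_subset_Icc_self (sub e he ht), rfl⟩)
      · rw [mem_closedBall, dist_comm] at hx
        linarith
      · simp only [Sum.elim_inr, if_pos he, Sum.elim_inl, disjoint_singleton_left]
        rintro ⟨s, hs, e'⟩
        induction e using Sym2.ind with
        | _ u v =>
          obtain ⟨-, -, h3, h4⟩ := harc u v he
          have hu : pos w ≠ pos u := fun e => hw (by simp [inj e])
          have hv : pos w ≠ pos v := fun e => hw (by simp [inj e])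
          rcases hs.1.eq_or_lt with rfl | h0
          · rcases h3 with h3 | h3
            · exact hu (e'.symm.trans h3.1)
            · exact hv (e'.symm.trans h3.1)
          rcases hs.2.eq_or_lt with rfl | h1
          · rcases h3 with h3 | h3
            · exact hv (e'.symm.trans h3.2)
            · exact hu (e'.symm.trans h3.2)
          exact h4 w s ⟨h0, h1⟩ e'
    · exact disjoint_empty _
  have mBD : ∀ u v, G.Adj u v → (K (.inr s(u, v)) ∩ K (.inl u)).Nonempty := by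
    intro u v huv
    have he : s(u, v) ∈ G.edgeSet := huv
    obtain ⟨h1, h2, h3, h4, h5⟩ := hab _ he
    simp only [K, Sum.elim_inr, Sum.elim_inl, if_pos he]
    rcases (harc u v huv).2.2.1 with h | h
    · exact ⟨_, ⟨_, ⟨le_rfl, h2⟩, rfl⟩, by rwa [mem_closedBall, ← h.1]⟩
    · exact ⟨_, ⟨_, ⟨h2, le_rfl⟩, rfl⟩, by rwa [mem_closedBall, ← h.2]⟩
  have hD : ∀ e : Sym2 V, ∃ D : Set U, Conn (grid.induce U) D ∧ D ⊆ C (.inr e) ∧
      (∀ u, ∀ x ∈ C (.inl u), x ∉ D) ∧ (D.Nonempty → e ∈ G.edgeSet) ∧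
      (e ∈ G.edgeSet → ∀ u ∈ e, Tch (grid.induce U) D (C (.inl u))) := by
    intro e
    by_cases he : e ∈ G.edgeSet
    swap
    · exact ⟨∅, conn_empty, empty_subset _, by simp, by simp, fun h => (he h).elim⟩
    induction e using Sym2.ind with
    | _ u v =>
      have huv : G.Adj u v := he
      obtain ⟨x, hx, hx'⟩ := meet _ _ (mBD u v huv)
      obtain ⟨y, hy, hy'⟩ := meet _ _ (mBD v u huv.symm)
      rw [Sym2.eq_swap] at hy
      have s1 := sep _ _ (dBB u v huv.ne)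
      have s2 := sep _ _ (dBB v u huv.ne')
      obtain ⟨z, hz, t1, t2⟩ := (cC (.inr s(u, v))).two_sided (B₁ := C (.inl u))
        (B₂ := C (.inl v)) (fun x _ h1 h2 => (s1 x h1 x h2).1 rfl)
        (fun x _ h1 y h2 => (s1 x h1 y h2).2) (fun x _ h1 y h2 => (s2 x h1 y h2).2) hx hy
        (Or.inl hx') (Or.inl hy')
      refine ⟨_, comp_conn (C (.inr s(u, v)) \ (C (.inl u) ∪ C (.inl v))) z, fun x hx => hx.1.1,
        fun w x hx hx' => ?_, fun _ => he,
        fun _ w hw => ?_⟩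
      · by_cases hw : w ∈ s(u, v)
        · rcases Sym2.mem_iff.1 hw with e | e
          · exact hx'.1.2 (Or.inl (e ▸ hx))
          · exact hx'.1.2 (Or.inr (e ▸ hx))
        · exact (sep _ _ (dBD w _ hw) x hx x hx'.1.1).1 rfl
      · rcases Sym2.mem_iff.1 hw with rfl | rfl
        · exact t1
        · exact t2
  choose D hD using hD
  refine ⟨U, hU, ⟨⟨fun u => C (.inl u), D, r, fun u => cC _, fun u => ?_, fun u v x h1 h2 => ?_,
    fun e => (hD e).1, fun u v h => (hD _).2.2.2.1 h, fun u e => (hD e).2.2.1 u,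
    fun u v h => (hD _).2.2.2.2 h u (by simp), fun e => ?_, fun u => hr _,
    fun e h => hr _ ((hD e).2.1 h), cU⟩⟩⟩
  · simpa using meet (.inl u) (.inl u) ⟨pos u, mem_closedBall_self hδ.le, mem_closedBall_self hδ.le⟩
  · by_contra e
    exact (sep _ _ (dBB u v e) x h1 x h2).1 rfl
  · by_cases he : e ∈ G.edgeSet
    swap
    · exact ⟨∅, by simp, fun f _ h => (he ((hD e).2.2.2.1 h.left)).elim⟩
    have h1 := hcross e he
    set X := {f | f ∈ G.edgeSet ∧ f ≠ e ∧ (arc e '' Ioo 0 1 ∩ arc f '' Ioo 0 1).Nonempty} with hX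
    have hfin : X.Finite := toFinite _
    refine ⟨hfin.toFinset, ?_, fun f hf h => ?_⟩
    · rw [hfin.encard_eq_coe_toFinset_card] at h1
      exact_mod_cast h1
    · have hf' := (hD f).2.2.2.1 h.right
      rw [Finite.mem_toFinset]
      refine ⟨hf', hf, ?_⟩
      obtain ⟨x, h2, h3⟩ := h
      by_contra hne
      refine (sep (.inr e) (.inr f) ?_ x ((hD e).2.1 h2) x ((hD f).2.1 h3)).1 rfl
      simp only [K, Sum.elim_inr, if_pos he, if_pos hf']
      exact (not_disjoint_iff_nonempty_inter.not_right.2 hne).mono (image_mono (sub e he))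
        (image_mono (sub f hf'))

theorem admissible_three : Admissible 3 := by
  refine ⟨mx, fun k n G h => ?_⟩
  obtain ⟨U, hU, ⟨M⟩⟩ := h.model
  have := hU.to_subtype
  exact M.product (grid_vk U).noK33 (grid_vk U).noK5

end Pool.Agent.Lib.MP_25cd9a_co
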