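import Pool.Agent.Lib.MP_25cd9a_co.Step

set_option autoImplicit false

namespace Pool.Agent.Lib.MP_25cd9a_co

open Set

variable {V : Type*} {G : SimpleGraph V} {p : V → V} {rk : V → ℕ} {O K : Set V}

/-- The boundary of `K` is covered by `O` and the orbits of the vertices in `C`. -/
def CovBy (G : SimpleGraph V) (p : V → V) (O K : Set V) (C : Finset V) : Prop :=
  (∀ x ∈ C, x ∉ K) ∧ ∀ x ∈ K, ∀ y, y ∉ K → G.Adj x y → y ∈ O ∨ y ∈ orbs p C

/-- The boundary of `K` is covered by `O` and twelve orbits. -/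
def Cov (G : SimpleGraph V) (p : V → V) (O K : Set V) : Prop :=
  ∃ C : Finset V, C.card ≤ 12 ∧ CovBy G p O K C

theorem Good.cov (h : Good G p O K) : ∃ C : Finset V, C.card ≤ 6 ∧ CovBy G p O K C := by
  classical
  obtain ⟨Z₁, Z₂, Z₃, C₁, C₂, C₃, h⟩ := h
  refine ⟨C₁ ∪ C₂ ∪ C₃, ?_, ?_, fun x hx y hy a => ?_⟩
  · have := Finset.card_union_le (C₁ ∪ C₂) C₃
    have := Finset.card_union_le C₁ C₂
    have := h.n1
    have := h.n2
    have := h.n3
    omega
  · intro x hx
    simp only [Finset.mem_union] at hx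
    rcases hx with (e | e) | e
    · exact h.o1 x e
    · exact h.o2 x e
    · exact h.o3 x e
  · rcases h.nb x hx y hy a with e | e | e
    · exact (h.v1 x hx y e a).imp_right fun t =>
        orbs_mono (Finset.subset_union_left.trans Finset.subset_union_left) t
    · exact (h.v2 x hx y e a).imp_right fun t =>
        orbs_mono (Finset.subset_union_right.trans Finset.subset_union_left) t
    · exact (h.v3 x hx y e a).imp_right fun t => orbs_mono Finset.subset_union_right t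

theorem Good.conn (h : Good G p O K) : Conn G K := by
  obtain ⟨_, _, _, _, _, _, h⟩ := h
  exact h.conn

theorem Good.fix (h : Good G p O K) : ∀ y ∈ K, p y ≠ y := by
  obtain ⟨_, _, _, _, _, _, h⟩ := h
  exact h.fix

theorem Good.up (h : Good G p O K) : ∀ y, y ∉ K → p y ∉ K := by
  obtain ⟨_, _, _, _, _, _, h⟩ := h
  exact h.up

theorem Good.mem_of_orb (h : Good G p O K) {c w : V} (hw : w ∈ orb p c) (hwK : w ∈ K) : c ∈ K :=
  by_contra fun hc => orb_closed (S := Kᶜ) h.up hc hw hwK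

/-- The family has no more than `N` pairwise disjoint members inside `K`. -/
def Pack (𝒴 : Set (Set V)) (K : Set V) (N : ℕ) : Prop :=
  ∀ F : Finset (Set V), (∀ Y ∈ F, Y ∈ 𝒴 ∧ Y ⊆ K) → (F : Set (Set V)).PairwiseDisjoint id →
    F.card ≤ N

/-- The orbits of `X` hit the family inside `K` and leave components with small boundary. -/
def Hits (G : SimpleGraph V) (p : V → V) (O : Set V) (𝒴 : Set (Set V)) (K : Set V)
    (X : Finset V) : Prop :=
  (∀ x ∈ X, x ∈ K) ∧ (∀ Y ∈ 𝒴, Y ⊆ K → ∃ y ∈ Y, y ∈ orbs p X) ∧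
    ∀ y ∈ K \ orbs p X, Cov G p O (comp G (K \ orbs p X) y)

/-- The bound on the number of orbits. -/
def hb : ℕ → ℕ
  | 0 => 0
  | n + 1 => 9 + (n + 1) * hb n

theorem Good.hits_empty (h : Good G p O K) {𝒴 : Set (Set V)} (hY : ∀ Y ∈ 𝒴, ¬ Y ⊆ K) :
    Hits G p O 𝒴 K ∅ := by
  refine ⟨by simp, fun Y h1 h2 => (hY Y h1 h2).elim, fun y hy => ?_⟩
  have e : K \ orbs p ∅ = K := by
    ext w; simp [orbs]
  have e' : comp G K y = K :=
    (comp_subset _ _).antisymm (h.conn.subset_comp subset_rfl hy.1 (mem_comp_self hy.1))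
  rw [e, e']
  obtain ⟨C, hC, hC'⟩ := h.cov
  exact ⟨C, by omega, hC'⟩

theorem Good.hits [Finite V] (h33 : NoK33 G) (h5 : NoK5 G) (hF : Forest G p rk)
    (hO : ∀ x ∈ O, p x = x) {𝒴 : Set (Set V)} (hY : ∀ Y ∈ 𝒴, Y.Nonempty ∧ Conn G Y) (N : ℕ) :
    ∀ K : Set V, Good G p O K → Pack 𝒴 K N → ∃ X : Finset V, X.card ≤ hb N ∧
      Hits G p O 𝒴 K X := by
  classical
  induction N with
  | zero =>
    intro K h hP
    refine ⟨∅, by simp, h.hits_empty fun Y h1 h2 => ?_⟩
    have := hP {Y} (by simpa using ⟨h1, h2⟩) (by simp)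
    simp at this
  | succ N ih =>
    intro K h hP
    by_cases hP' : Pack 𝒴 K N
    · obtain ⟨X, hX, hX'⟩ := ih K h hP'
      refine ⟨X, hX.trans ?_, hX'⟩
      rw [hb]
      nlinarith
    obtain ⟨S, ⟨hSK, hS, hSP⟩, hmin⟩ := Set.exists_min_image
      {S | S ⊆ K ∧ Good G p O S ∧ ¬ Pack 𝒴 S N} ncard (toFinite _) ⟨K, subset_rfl, h, hP'⟩
    obtain ⟨F, hF1, hF2, hF3⟩ : ∃ F : Finset (Set V), (∀ Y ∈ F, Y ∈ 𝒴 ∧ Y ⊆ S) ∧
        (F : Set (Set V)).PairwiseDisjoint id ∧ N < F.card := by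
      by_contra hh
      push Not at hh
      exact hSP hh
    have hSne : S.Nonempty := by
      obtain ⟨Y, hYF⟩ : F.Nonempty := Finset.card_pos.1 (by omega)
      exact (hY Y (hF1 Y hYF).1).1.mono (hF1 Y hYF).2
    obtain ⟨X₀, n₀, ⟨x₀, hx₀⟩, m₀, g₀⟩ := hS.cut h33 h5 hF hSne
    obtain ⟨C, nC, hC⟩ := hS.cov
    obtain ⟨CK, nK, hCK⟩ := h.cov
    set ch : Set (Set V) := {D | ∃ y ∈ S \ orbs p X₀, D = comp G (S \ orbs p X₀) y} with hch
    have chS : ∀ D ∈ ch, D ⊆ S \ orbs p X₀ := by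
      rintro D ⟨y, -, rfl⟩
      exact comp_subset _ _
    have chG : ∀ D ∈ ch, Good G p O D := by
      rintro D ⟨y, hy, rfl⟩
      exact g₀ y hy
    have chE : ∀ D ∈ ch, ∀ D' ∈ ch, ∀ w ∈ D, w ∈ D' → D = D' := by
      rintro D ⟨y, -, rfl⟩ D' ⟨y', -, rfl⟩ w h1 h2
      exact comp_eq_of_mem h1 h2
    have hf : ∀ D : Set V, ∃ X : Finset V, D ∈ ch → X.card ≤ hb N ∧ Hits G p O 𝒴 D X ∧
        ((∀ Y ∈ 𝒴, ¬ Y ⊆ D) → X = ∅) := by
      intro D
      by_cases hD : D ∈ ch
      · by_cases hm : ∀ Y ∈ 𝒴, ¬ Y ⊆ D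
        · exact ⟨∅, fun _ => ⟨by simp, (chG D hD).hits_empty hm, fun _ => rfl⟩⟩
        · have hPD : Pack 𝒴 D N := by
            by_contra hn
            have h1 := hmin D ⟨fun w hw => hSK (chS D hD hw).1, chG D hD, hn⟩
            have h2 : D.ncard < S.ncard := ncard_lt_ncard ⟨fun w hw => (chS D hD hw).1, fun hs =>
              (chS D hD (hs (m₀ x₀ hx₀))).2 (mem_orbs_self hx₀)⟩ (toFinite _)
            omega
          obtain ⟨X, h1, h2⟩ := ih D (chG D hD) hPD
          exact ⟨X, fun _ => ⟨h1, h2, fun e => (hm e).elim⟩⟩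
      · exact ⟨∅, fun e => (hD e).elim⟩
    choose f hf using hf
    set T : Finset (Set V) := (toFinite {D | D ∈ ch ∧ ∃ Y ∈ 𝒴, Y ⊆ D}).toFinset with hT
    have memT : ∀ D, D ∈ T ↔ D ∈ ch ∧ ∃ Y ∈ 𝒴, Y ⊆ D := fun D => by
      rw [hT, Finite.mem_toFinset]; rfl
    have hTc : T.card ≤ N + 1 := by
      have : ∀ D : Set V, ∃ Y : Set V, D ∈ T → Y ∈ 𝒴 ∧ Y ⊆ D := fun D => by
        by_cases hD : D ∈ T
        · obtain ⟨-, Y, h1, h2⟩ := (memT D).1 hD
          exact ⟨Y, fun _ => ⟨h1, h2⟩⟩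
        · exact ⟨∅, fun e => (hD e).elim⟩
      choose g hg using this
      have hinj : Set.InjOn g T := fun D hD D' hD' e => by
        obtain ⟨w, hw⟩ := (hY _ (hg D hD).1).1
        exact chE D ((memT D).1 hD).1 D' ((memT D').1 hD').1 w ((hg D hD).2 hw)
          ((hg D' hD').2 (e ▸ hw))
      rw [← Finset.card_image_of_injOn hinj]
      refine hP _ ?_ ?_
      · intro Y hYT
        obtain ⟨D, hD, rfl⟩ := Finset.mem_image.1 hYT
        exact ⟨(hg D hD).1, fun w hw => hSK (chS D ((memT D).1 hD).1 ((hg D hD).2 hw)).1⟩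
      · intro Y h1 Y' h2 hne
        obtain ⟨D, hD, rfl⟩ := Finset.mem_image.1 (Finset.mem_coe.1 h1)
        obtain ⟨D', hD', rfl⟩ := Finset.mem_image.1 (Finset.mem_coe.1 h2)
        refine disjoint_left.2 fun w h3 h4 => hne ?_
        rw [chE D ((memT D).1 hD).1 D' ((memT D').1 hD').1 w ((hg D hD).2 h3) ((hg D' hD').2 h4)]
    set X : Finset V := X₀ ∪ C.filter (· ∈ K) ∪ T.biUnion f with hX
    have memX : ∀ c, c ∈ X ↔ c ∈ X₀ ∨ (c ∈ C ∧ c ∈ K) ∨ ∃ D ∈ ch, c ∈ f D := fun c => by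
      simp only [hX, Finset.mem_union, Finset.mem_filter, Finset.mem_biUnion, or_assoc]
      refine or_congr_right (or_congr_right ⟨fun ⟨D, h1, h2⟩ => ⟨D, ((memT D).1 h1).1, h2⟩,
        fun ⟨D, h1, h2⟩ => ⟨D, (memT D).2 ⟨h1, ?_⟩, h2⟩⟩)
      by_contra hh
      push Not at hh
      rw [(hf D h1).2.2 hh] at h2
      simp at h2
    have bd : ∀ a ∈ K \ orbs p X, ∀ b ∈ S, G.Adj b a → a ∈ S := by
      intro a ha b hb hab
      by_contra haS
      rcases hC.2 b hb a haS hab with e | ⟨c, hc, e⟩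
      · exact h.fix a ha.1 (hO a e)
      · exact ha.2 ⟨c, (memX c).2 (Or.inr (Or.inl ⟨hc, h.mem_of_orb e ha.1⟩)), e⟩
    have inside : ∀ y ∈ K \ orbs p X, y ∈ S → ∃ D ∈ ch, y ∈ D \ orbs p (f D) ∧
        comp G (K \ orbs p X) y = comp G (D \ orbs p (f D)) y := by
      intro y hy hyS
      have s0 : orbs p X₀ ⊆ orbs p X := orbs_mono fun c hc => (memX c).2 (Or.inl hc)
      have hy0 : y ∈ S \ orbs p X₀ := ⟨hyS, fun e => hy.2 (s0 e)⟩
      have hD : comp G (S \ orbs p X₀) y ∈ ch := ⟨y, hy0, rfl⟩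
      set D := comp G (S \ orbs p X₀) y with hDd
      have s1 : orbs p (f D) ⊆ orbs p X :=
        orbs_mono fun c hc => (memX c).2 (Or.inr (Or.inr ⟨D, hD, hc⟩))
      have hyD : y ∈ D \ orbs p (f D) := ⟨mem_comp_self hy0, fun e => hy.2 (s1 e)⟩
      refine ⟨D, hD, hyD, Subset.antisymm ?_ ?_⟩
      · refine (comp_conn _ _).ind (mem_comp_self hy) _ (mem_comp_self hyD) ?_
        intro a b _ hb hab ha
        have hbS := bd b hb.1 a (chS D hD ha.1.1).1 hab
        exact comp_step ha ⟨comp_step ha.1.1 ⟨hbS, fun e => hb.1.2 (s0 e)⟩ hab,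
          fun e => hb.1.2 (s1 e)⟩ hab
      · refine (comp_conn _ _).subset_comp ?_ (mem_comp_self hyD) (mem_comp_self hy)
        rintro w ⟨⟨hwD, hw⟩, -⟩
        refine ⟨hSK (chS D hD hwD).1, ?_⟩
        rintro ⟨c, hc, e⟩
        rcases (memX c).1 hc with e' | e' | ⟨D', hD', e'⟩
        · exact (chS D hD hwD).2 ⟨c, e', e⟩
        · exact hC.1 c e'.1 (hS.mem_of_orb e (chS D hD hwD).1)
        · have := chE D hD D' hD' c ((chG D hD).mem_of_orb e hwD) ((hf D' hD').2.1.1 c e')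
          exact hw ⟨c, this ▸ e', e⟩
    refine ⟨X, ?_, ?_, ?_, ?_⟩
    · have h1 : X.card ≤ _ := Finset.card_union_le (X₀ ∪ C.filter (· ∈ K)) (T.biUnion f)
      have h2 := Finset.card_union_le X₀ (C.filter (· ∈ K))
      have h3 := Finset.card_filter_le C (· ∈ K)
      have h4 : (T.biUnion f).card ≤ T.card * hb N :=
        Finset.card_biUnion_le_card_mul _ _ _ fun D hD => (hf D ((memT D).1 hD).1).1
      have h5 : T.card * hb N ≤ (N + 1) * hb N := Nat.mul_le_mul_right _ hTc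
      rw [hb]
      omega
    · intro c hc
      rcases (memX c).1 hc with e | e | ⟨D, hD, e⟩
      · exact hSK (m₀ c e)
      · exact e.2
      · exact hSK (chS D hD ((hf D hD).2.1.1 c e)).1
    · intro Y hY1 hYK
      by_contra hh
      push Not at hh
      by_cases hYS : ∃ y ∈ Y, y ∈ S
      · obtain ⟨y, hy, hyS⟩ := hYS
        obtain ⟨D, hD, -, e⟩ := inside y ⟨hYK hy, hh y hy⟩ hyS
        have h1 : Y ⊆ comp G (K \ orbs p X) y := (hY Y hY1).2.subset_comp (S := K \ orbs p X)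
          (fun w hw => ⟨hYK hw, hh w hw⟩) hy (mem_comp_self ⟨hYK hy, hh y hy⟩)
        rw [e] at h1
        obtain ⟨w, hw, hw'⟩ := (hf D hD).2.1.2.1 Y hY1 fun w hw => (h1 hw).1.1
        exact (h1 hw).1.2 hw'
      · push Not at hYS
        have hYF : Y ∉ F := fun e => by
          obtain ⟨y, hy⟩ := (hY Y hY1).1
          exact hYS y hy ((hF1 Y e).2 hy)
        have := hP (insert Y F) ?_ ?_
        · rw [Finset.card_insert_of_notMem hYF] at this
          omega
        · intro Y' h'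
          rcases Finset.mem_insert.1 h' with e | e
          · exact e ▸ ⟨hY1, hYK⟩
          · exact ⟨(hF1 Y' e).1, (hF1 Y' e).2.trans hSK⟩
        · rw [Finset.coe_insert]
          exact hF2.insert fun Y' h' _ =>
            disjoint_left.2 fun w h1 h2 => hYS w h1 ((hF1 Y' h').2 h2)
    · intro y hy
      by_cases hyS : y ∈ S
      · obtain ⟨D, hD, hyD, e⟩ := inside y hy hyS
        rw [e]
        exact (hf D hD).2.1.2.2 y hyD
      have out : ∀ w ∈ comp G (K \ orbs p X) y, w ∉ S :=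
        (comp_conn _ _).ind (mem_comp_self hy) _ hyS fun a b ha _ hab haS hbS =>
          haS (bd a ha.1 b hbS hab.symm)
      refine ⟨CK ∪ C.filter (· ∈ K), ?_, ?_, fun x hx w hw a => ?_⟩
      · have h2 := Finset.card_union_le CK (C.filter (· ∈ K))
        have h3 := Finset.card_filter_le C (· ∈ K)
        omega
      · intro c hc e
        rcases Finset.mem_union.1 hc with e' | e'
        · exact hCK.1 c e' e.1.1
        · exact e.1.2 (mem_orbs_self ((memX c).2 (Or.inr (Or.inl (Finset.mem_filter.1 e')))))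
      · by_cases hwK : w ∈ K
        · obtain ⟨c, hc, e⟩ : w ∈ orbs p X := by_contra fun e => hw (comp_step hx ⟨hwK, e⟩ a)
          have hwS : w ∉ S := fun e => out x hx (bd x hx.1 w e a.symm)
          have key : c ∈ S → w ∈ O ∨ w ∈ orbs p (CK ∪ C.filter (· ∈ K)) := fun hcS => by
            have := orb_ind (fun u => u ∈ S ∨ u ∈ O ∨ u ∈ orbs p C) (Or.inl hcS) (by
              rintro u - (hu | hu | hu)
              · by_cases hp : p u ∈ S
                · exact Or.inl hp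
                · exact Or.inr (hC.2 u hu _ hp ((hF u).resolve_left (hS.fix u hu)).1)
              · exact Or.inr (Or.inl (by rw [hO u hu]; exact hu))
              · exact Or.inr (Or.inr (orbs_step hu))) w e
            rcases this with e' | e' | ⟨c', hc', e'⟩
            · exact (hwS e').elim
            · exact Or.inl e'
            · exact Or.inr ⟨c', Finset.mem_union_right _
                (Finset.mem_filter.2 ⟨hc', h.mem_of_orb e' hwK⟩), e'⟩
          rcases (memX c).1 hc with e' | e' | ⟨D, hD, e'⟩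
          · exact key (m₀ c e')
          · exact Or.inr ⟨c, Finset.mem_union_right _ (Finset.mem_filter.2 e'), e⟩
          · exact key (chS D hD ((hf D hD).2.1.1 c e')).1
        · exact (hCK.2 x hx.1.1 w hwK a).imp_right fun t => orbs_mono Finset.subset_union_left t

end Pool.Agent.Lib.MP_25cd9a_co
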