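import Pool.Agent.Lib.MP_25cd9a_co.Triangle

set_option autoImplicit false

namespace Pool.Agent.Lib.MP_25cd9a_co

open Set

variable {V : Type*} {G : SimpleGraph V}

/-- The forward orbit of a vertex under a parent map. -/
def orb (p : V → V) (x : V) : Set V := {y | ∃ n : ℕ, p^[n] x = y}

/-- A parent map with a decreasing rank. -/
def Forest (G : SimpleGraph V) (p : V → V) (rk : V → ℕ) : Prop :=
  ∀ x, p x = x ∨ (G.Adj x (p x) ∧ rk (p x) < rk x)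

variable {p : V → V} {rk : V → ℕ}

theorem orb_self (p : V → V) (x : V) : x ∈ orb p x := ⟨0, rfl⟩

theorem orb_step {x y : V} (h : y ∈ orb p x) : p y ∈ orb p x := by
  obtain ⟨n, rfl⟩ := h
  exact ⟨n + 1, Function.iterate_succ_apply' _ _ _⟩

theorem orb_ind {x : V} (P : V → Prop) (hx : P x) (hs : ∀ y ∈ orb p x, P y → P (p y)) :
    ∀ y ∈ orb p x, P y := by
  rintro y ⟨n, rfl⟩
  induction n with
  | zero => exact hx
  | succ n ih =>
    rw [Function.iterate_succ_apply']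
    exact hs _ ⟨n, rfl⟩ ih

theorem orb_sub {x y : V} (h : y ∈ orb p x) : orb p y ⊆ orb p x :=
  fun z hz => orb_ind (· ∈ orb p x) h (fun _ _ h => orb_step h) z hz

theorem orb_closed {S : Set V} (hS : ∀ y ∈ S, p y ∈ S) {x : V} (hx : x ∈ S) : orb p x ⊆ S :=
  fun z hz => orb_ind (· ∈ S) hx (fun y _ h => hS y h) z hz

theorem Forest.rk_le (hF : Forest G p rk) {x y : V} (h : y ∈ orb p x) : rk y ≤ rk x := by
  refine orb_ind (fun y => rk y ≤ rk x) le_rfl (fun y _ hy => ?_) y h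
  rcases hF y with h | h
  · rw [h]; exact hy
  · exact h.2.le.trans hy

/-- The part of an orbit inside a set whose complement is closed is connected. -/
theorem Forest.leg_conn (hF : Forest G p rk) {K : Set V} (hK : ∀ y, y ∉ K → p y ∉ K) (x : V) :
    Conn G (orb p x ∩ K) := by
  refine conn_of_rch x fun y hy => Rch.symm ?_
  refine orb_ind (fun y => y ∈ K → Rch G (orb p x ∩ K) x y) (fun _ => Rch.refl _ _) ?_ y hy.1 hy.2
  intro y hy ih hpy
  have hyK : y ∈ K := by_contra fun h => hK y h hpy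
  rcases hF y with h | h
  · rw [h]; exact ih hyK
  · exact (ih hyK).trans (Rch.step h.1 ⟨hy, hyK⟩ ⟨orb_step hy, hpy⟩)

theorem Forest.orb_conn (hF : Forest G p rk) (x : V) : Conn G (orb p x) := by
  have := hF.leg_conn (K := univ) (fun y h => (h (mem_univ y)).elim) x
  rwa [inter_univ] at this

theorem Forest.exists_fixed (hF : Forest G p rk) (x : V) : ∃ y ∈ orb p x, p y = y := by
  induction h : rk x using Nat.strong_induction_on generalizing x with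
  | _ n ih =>
    rcases hF x with h' | h'
    · exact ⟨x, orb_self _ _, h'⟩
    · obtain ⟨y, hy, hy'⟩ := ih _ (h ▸ h'.2) (p x) rfl
      exact ⟨y, orb_sub (orb_step (orb_self _ _)) hy, hy'⟩

/-- An orbit leaves a set without fixed points. -/
theorem Forest.exists_exit (hF : Forest G p rk) {K : Set V} (hfix : ∀ y ∈ K, p y ≠ y) {x : V}
    (hx : x ∈ K) : ∃ y ∈ orb p x, y ∈ K ∧ p y ∉ K := by
  by_contra hne
  push Not at hne
  obtain ⟨y, hy, hy'⟩ := hF.exists_fixed x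
  exact hfix y (orb_ind (· ∈ K) hx (fun y hy h => hne y hy h) y hy) hy'

/-- A connected subset of the first class touching the other two classes. -/
def IsLink (G : SimpleGraph V) (K A₁ A₂ A₃ L : Set V) : Prop :=
  L ⊆ A₁ ∧ L ⊆ K ∧ Conn G L ∧ Tch G L A₂ ∧ Tch G L A₃

theorem link_lemma [Finite V] (h33 : NoK33 G) (h5 : NoK5 G) (hF : Forest G p rk)
    {K Z₁ Z₂ Z₃ A₁ A₂ A₃ : Set V} (hK : Conn G K) (hfix : ∀ y ∈ K, p y ≠ y)
    (hZ₁ : Conn G Z₁) (hZ₂ : Conn G Z₂) (hZ₃ : Conn G Z₃) (d₁ : Disjoint K Z₁)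
    (d₂ : Disjoint K Z₂) (d₃ : Disjoint K Z₃) (t12 : Tch G Z₁ Z₂) (t13 : Tch G Z₁ Z₃)
    (t23 : Tch G Z₂ Z₃) (hA₂ : Conn G A₂) (hA₃ : Conn G A₃) (s₁ : Z₁ ⊆ A₁) (s₂ : Z₂ ⊆ A₂)
    (s₃ : Z₃ ⊆ A₃) (d12 : Disjoint A₁ A₂) (d13 : Disjoint A₁ A₃) (d23 : Disjoint A₂ A₃)
    (hA : ∀ y ∈ A₁, y ∈ Z₁ ∨ (y ∈ K ∧ p y ∈ A₁)) (hex : ∃ L, IsLink G K A₁ A₂ A₃ L) :
    ∃ L x, IsLink G K A₁ A₂ A₃ L ∧ x ∈ L ∧
      ∀ L', IsLink G K A₁ A₂ A₃ L' → ∃ y ∈ L', y ∈ orb p x := by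
  obtain ⟨z, hz⟩ := t12.left
  have up : ∀ S : Set V, S ⊆ K → ∀ y ∈ A₁, (∀ w ∈ orb p y, w ∉ S) → y ∈ comp G (A₁ \ S) z := by
    intro S hS y
    induction h : rk y using Nat.strong_induction_on generalizing y with
    | _ n ih =>
      intro hy hw
      have hZ : Z₁ ⊆ A₁ \ S := fun w hw => ⟨s₁ hw, fun h => disjoint_left.1 d₁ (hS h) hw⟩
      rcases hA y hy with h' | ⟨hyK, hpy⟩
      · exact hZ₁.subset_comp hZ hz (mem_comp_self (hZ hz)) h'
      · rcases hF y with h'' | h''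
        · exact (hfix y hyK h'').elim
        · exact comp_step (ih _ (h ▸ h''.2) (p y) rfl hpy
            fun w hw' => hw w (orb_sub (orb_step (orb_self _ _)) hw'))
            ⟨hy, hw y (orb_self _ _)⟩ h''.1.symm
  obtain ⟨L, hL, hmax⟩ := Set.exists_max_image {L | IsLink G K A₁ A₂ A₃ L}
    (fun L => (comp G (A₁ \ L) z).ncard) (toFinite _) hex
  obtain ⟨x, hx, hmin⟩ := Set.exists_min_image L rk (toFinite _) hL.2.2.2.1.left
  refine ⟨L, x, hL, hx, fun L' hL' => ?_⟩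
  by_contra hne
  push Not at hne
  have hxK : x ∈ K := hL.2.1 hx
  have hxA : x ∈ A₁ := hL.1 hx
  have hpx : G.Adj x (p x) ∧ rk (p x) < rk x := (hF x).resolve_left (hfix x hxK)
  have hpA : p x ∈ A₁ := by
    rcases hA x hxA with h | h
    · exact (disjoint_left.1 d₁ hxK h).elim
    · exact h.2
  have hoL : ∀ w ∈ orb p (p x), w ∉ L := fun w hw hwL => by
    have h1 := hF.rk_le hw
    have h2 := hmin w hwL
    omega
  set B₀ := comp G (A₁ \ L) z with hB₀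
  have hZB : Z₁ ⊆ B₀ := fun w hw => by
    have hZ : Z₁ ⊆ A₁ \ L := fun w hw => ⟨s₁ hw, fun h => disjoint_left.1 d₁ (hL.2.1 h) hw⟩
    exact hZ₁.subset_comp hZ hz (mem_comp_self (hZ hz)) hw
  have hpB : p x ∈ B₀ := up L hL.2.1 _ hpA hoL
  have hxB : x ∉ B₀ := fun h => h.1.2 hx
  set M := A₁ \ insert x B₀ with hM
  have hMK : M ⊆ K := fun y hy => by
    rcases hA y hy.1 with h | h
    · exact (hy.2 (Or.inr (hZB h))).elim
    · exact h.1
  have nolink : ∀ y, Tch G (comp G M y) A₂ → Tch G (comp G M y) A₃ → False := by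
    intro y h2 h3
    have hl : IsLink G K A₁ A₂ A₃ (comp G M y) :=
      ⟨fun w hw => hw.1.1, fun w hw => hMK hw.1, comp_conn _ _, h2, h3⟩
    have h1 := hmax _ hl
    have hc : Conn G (insert x B₀) := by
      rw [insert_eq]
      exact (conn_singleton x).union_tch (comp_conn _ _) ⟨x, rfl, _, hpB, hpx.1⟩
    have hs : insert x B₀ ⊆ A₁ \ comp G M y := fun w hw =>
      ⟨hw.elim (fun e => e ▸ hxA) (fun e => e.1.1), fun h => h.1.2 hw⟩
    have h4 : insert x B₀ ⊆ comp G (A₁ \ comp G M y) z :=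
      hc.subset_comp hs (Or.inr (hZB hz)) (mem_comp_self (hs (Or.inr (hZB hz))))
    have h5 := ncard_le_ncard h4 (toFinite _)
    rw [ncard_insert_of_notMem hxB (toFinite _)] at h5
    omega
  have conn_ext : ∀ A : Set V, Conn G A → Conn G (A ∪ {y | y ∈ M ∧ Tch G (comp G M y) A}) := by
    intro A hA
    refine conn_of_base hA subset_union_left ?_
    rintro y (hy | ⟨hy, a, ha, b, hb, hab⟩)
    · exact ⟨y, hy, Rch.refl _ _⟩
    · have hs : comp G M y ⊆ A ∪ {y | y ∈ M ∧ Tch G (comp G M y) A} := fun w hw =>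
        Or.inr ⟨hw.1, by rw [comp_eq hw]; exact ⟨a, ha, b, hb, hab⟩⟩
      exact ⟨b, hb, ((comp_conn M y y (mem_comp_self hy) a ha).mono hs).trans
        (Rch.step hab (hs ha) (Or.inl hb))⟩
  have adj_ext : ∀ A : Set V, ∀ y ∈ M, ∀ w ∈ A ∪ {y | y ∈ M ∧ Tch G (comp G M y) A},
      G.Adj y w → Tch G (comp G M y) A := by
    rintro A y hy w (hw | hw) hyw
    · exact ⟨y, mem_comp_self hy, w, hw, hyw⟩
    · rw [← comp_eq (comp_step (mem_comp_self hy) hw.1 hyw)]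
      exact hw.2
  have x_ext : ∀ A : Set V, Tch G L A → Tch G (A ∪ {y | y ∈ M ∧ Tch G (comp G M y) A}) {x} := by
    rintro A ⟨y, hy, w, hw, hyw⟩
    by_cases hyx : y = x
    · exact ⟨w, Or.inl hw, x, rfl, (hyx ▸ hyw).symm⟩
    · obtain ⟨a, ha, b, hb, hab⟩ := hL.2.2.1.comp_tch (T := {x}) hy hyx hx rfl
      have hLM : L \ {x} ⊆ M := fun w hw => ⟨hL.1 hw.1, by
        rintro (h | h)
        · exact hw.2 h
        · exact h.1.2 hw.1⟩
      have hyM : y ∈ M := hLM ⟨hy, hyx⟩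
      have haM : a ∈ comp G M y := ⟨hLM ha.1, ha.2.mono hLM⟩
      refine ⟨a, Or.inr ⟨haM.1, ?_⟩, b, hb.2, hab⟩
      rw [comp_eq haM]
      exact ⟨y, mem_comp_self hyM, w, hw, hyw⟩
  set a₂ := A₂ ∪ {y | y ∈ M ∧ Tch G (comp G M y) A₂} with ha₂
  set a₃ := A₃ ∪ {y | y ∈ M ∧ Tch G (comp G M y) A₃} with ha₃
  have in₂ : ∀ y ∈ A₁, y ∈ a₂ → y ∈ M ∧ Tch G (comp G M y) A₂ := by
    rintro y hy (h | h)
    · exact (disjoint_left.1 d12 hy h).elim
    · exact h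
  have in₃ : ∀ y ∈ A₁, y ∈ a₃ → y ∈ M ∧ Tch G (comp G M y) A₃ := by
    rintro y hy (h | h)
    · exact (disjoint_left.1 d13 hy h).elim
    · exact h
  obtain ⟨x₂, hx₂, w₂, hw₂, h₂⟩ := hL'.2.2.2.1
  obtain ⟨x₃, hx₃, w₃, hw₃, h₃⟩ := hL'.2.2.2.2
  obtain ⟨y, -, hQ₂, hQ₃⟩ := hL'.2.2.1.two_sided (B₁ := a₂) (B₂ := a₃)
    (fun y hy h2 h3 => nolink y (in₂ y (hL'.1 hy) h2).2 (in₃ y (hL'.1 hy) h3).2)
    (fun y hy h2 w hw hyw => nolink y (in₂ y (hL'.1 hy) h2).2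
      (adj_ext _ y (in₂ y (hL'.1 hy) h2).1 w hw hyw))
    (fun y hy h3 w hw hyw => nolink y (adj_ext _ y (in₃ y (hL'.1 hy) h3).1 w hw hyw)
      (in₃ y (hL'.1 hy) h3).2)
    hx₂ hx₃ (Or.inr ⟨w₂, Or.inl hw₂, h₂⟩) (Or.inr ⟨w₃, Or.inl hw₃, h₃⟩)
  set Q := comp G (L' \ (a₂ ∪ a₃)) y with hQ
  have hQL : Q ⊆ L' := fun w hw => hw.1.1
  have hxQ : x ∉ Q := fun h => hne x (hQL h) (orb_self _ _)
  have hQB : ∃ q ∈ Q, q ∈ B₀ := by
    obtain ⟨q, hq, w, hw, hqw⟩ := hQ₂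
    refine ⟨q, hq, by_contra fun hqB => ?_⟩
    have hqM : q ∈ M := ⟨hL'.1 (hQL hq), by
      rintro (h | h)
      · exact hxQ (h ▸ hq)
      · exact hqB h⟩
    exact hq.1.2 (Or.inl (Or.inr ⟨hqM, adj_ext _ q hqM w hw hqw⟩))
  set B := comp G (A₁ \ (L ∪ Q)) z with hB
  have hBB : B ⊆ B₀ := fun w hw => by
    have hs : A₁ \ (L ∪ Q) ⊆ A₁ \ L := fun u hu => ⟨hu.1, fun h => hu.2 (Or.inl h)⟩
    exact ⟨hs hw.1, hw.2.mono hs⟩
  have hLQ : L ∪ Q ⊆ K := union_subset hL.2.1 (hQL.trans hL'.2.1)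
  have hZB' : Z₁ ⊆ B := fun w hw => by
    have hZ : Z₁ ⊆ A₁ \ (L ∪ Q) := fun w hw => ⟨s₁ hw, fun h => disjoint_left.1 d₁ (hLQ h) hw⟩
    exact hZ₁.subset_comp hZ hz (mem_comp_self (hZ hz)) hw
  have hBd : ∀ A : Set V, Disjoint A₁ A →
      Disjoint B (A ∪ {y | y ∈ M ∧ Tch G (comp G M y) A}) := by
    intro A hA
    rw [disjoint_left]
    rintro w hw (h | h)
    · exact disjoint_left.1 hA hw.1.1 h
    · exact h.1.2 (Or.inr (hBB hw))
  refine Cfg.false h33 h5 hK hZ₁ hZ₂ hZ₃ d₁ d₂ d₃ t12 t13 t23 _ B a₂ a₃ {x} Q rfl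
    ⟨comp_conn _ _, conn_ext _ hA₂, conn_ext _ hA₃, conn_singleton _, comp_conn _ _, hZB',
      s₂.trans subset_union_left, s₃.trans subset_union_left, singleton_subset_iff.2 hxK,
      hQL.trans hL'.2.1, hBd _ d12, hBd _ d13, ?_, disjoint_singleton_left.2 hxQ,
      disjoint_singleton_right.2 fun h => hxB (hBB h),
      disjoint_left.2 fun w hw h => hw.1.2 (Or.inr h),
      disjoint_singleton_right.2 fun h => (in₂ x hxA h).1.2 (Or.inl rfl),
      disjoint_right.2 fun w hw h => hw.1.2 (Or.inl h),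
      disjoint_singleton_right.2 fun h => (in₃ x hxA h).1.2 (Or.inl rfl),
      disjoint_right.2 fun w hw h => hw.1.2 (Or.inr h), ?_, ?_, x_ext _ hL.2.2.2.1, hQ₂.symm,
      x_ext _ hL.2.2.2.2, hQ₃.symm⟩
  · rw [disjoint_left]
    rintro w (h | h) h'
    · rcases h' with h' | h'
      · exact disjoint_left.1 d23 h h'
      · exact disjoint_left.1 d12 h'.1.1 h
    · exact nolink w h.2 (in₃ w h.1.1 h').2
  · refine ⟨p x, up _ hLQ _ hpA ?_, x, rfl, hpx.1.symm⟩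
    rintro w hw (h | h)
    · exact hoL w hw h
    · exact hne w (hQL h) (orb_sub (orb_step (orb_self _ _)) hw)
  · obtain ⟨q, hq, hqB⟩ := hQB
    have hzQ : z ∉ Q := fun h => disjoint_left.1 d₁ (hL'.2.1 (hQL h)) hz
    refine ((comp_conn (A₁ \ L) z).comp_tch (T := Q) (hZB hz) hzQ hqB hq).mono ?_
      inter_subset_right
    have hs : B₀ \ Q ⊆ A₁ \ (L ∪ Q) := fun u hu => ⟨hu.1.1.1, by
      rintro (h | h)
      · exact hu.1.1.2 h
      · exact hu.2 h⟩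
    exact fun w hw => ⟨hs hw.1, hw.2.mono hs⟩

end Pool.Agent.Lib.MP_25cd9a_co
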