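import Pool.Agent.Lib.MP_25cd9a_co.Assemble

set_option autoImplicit false

namespace Pool.Agent.Lib.MP_25cd9a_co

open Set

theorem helly_tree {V ι : Type*} [Finite V] {T : SimpleGraph V} (hT : T.IsTree) (S : ι → Set V)
    (hS : ∀ i, Conn T (S i)) (hi : ∀ i j, (S i ∩ S j).Nonempty) : ∃ t, ∀ i, t ∈ S i := by
  classical
  have := Fintype.ofFinite V
  by_contra hne
  push Not at hne
  choose i hi' using hne
  have hc : Conn T univ := fun a _ b _ => by
    have := (SimpleGraph.reachable_iff_reflTransGen _ _).1 (hT.connected.preconnected a b)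
    induction this with
    | refl => exact Rch.refl _ _
    | tail _ h ih => exact (ih (mem_univ _)).trans (Rch.step h (mem_univ _) (mem_univ _))
  have : ∀ t, ∃ n, T.Adj t n ∧ n ≠ t ∧ ∀ x ∈ S (i t), Rch T (univ \ {t}) n x := by
    intro t
    obtain ⟨x, hx, -⟩ := hi (i t) (i t)
    have hxt : x ∉ ({t} : Set V) := fun e => hi' t (e ▸ hx)
    obtain ⟨n, hn, y, ⟨-, rfl⟩, a⟩ := hc.comp_tch (T := {t}) (mem_univ x) hxt (mem_univ t) rfl
    refine ⟨n, a.symm, a.ne, fun z hz => hn.2.symm.trans (((hS _) x hx z hz).mono ?_)⟩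
    exact fun w hw => ⟨mem_univ _, fun e => hi' y (e ▸ hw)⟩
  choose n hn using this
  obtain ⟨t, -, t', -, hne, e⟩ := Finset.exists_ne_map_eq_of_card_lt_of_maps_to
    (s := Finset.univ) (t := T.edgeFinset) (f := fun t => s(t, n t))
    (by have := hT.card_edgeFinset; rw [Finset.card_univ]; omega)
    (fun t _ => by simpa using (hn t).1)
  obtain ⟨e1, e2⟩ : t = n t' ∧ n t = t' := by
    rcases Sym2.eq_iff.1 e with h | h
    · exact (hne h.1).elim
    · exact h
  have key : ∀ w ∈ s(t, t'), ∀ a b, Rch T (univ \ {w}) a b →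
      (T.deleteEdges {s(t, t')}).Reachable a b := by
    intro w hw a b h
    refine h.ind ((T.deleteEdges {s(t, t')}).Reachable a) (SimpleGraph.Reachable.refl _)
      fun x y hx hy hxy ih => ih.trans (SimpleGraph.Adj.reachable ?_)
    rw [SimpleGraph.deleteEdges_adj]
    refine ⟨hxy, fun e => ?_⟩
    rw [← mem_singleton_iff.1 e] at hw
    rcases Sym2.mem_iff.1 hw with h | h
    · exact hx.2 h.symm
    · exact hy.2 h.symm
  obtain ⟨x, h1, h2⟩ := hi (i t) (i t')
  have h3 := key t (by simp) _ _ ((hn t).2.2 x h1)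
  have h4 := key t' (by simp) _ _ ((hn t').2.2 x h2)
  rw [e2] at h3
  rw [← e1] at h4
  exact SimpleGraph.isBridge_iff.1 (SimpleGraph.isAcyclic_iff_forall_adj_isBridge.1 hT.isAcyclic
    (e2 ▸ (hn t).1)) (h4.trans h3.symm)

theorem TreewidthLE.clique {W : Type} {H : SimpleGraph W} {c : ℕ} (h : TreewidthLE H c)
    (f : Fin 4 → W) (hf : ∀ i j, i ≠ j → H.Adj (f i) (f j)) : 3 ≤ c := by
  classical
  obtain ⟨n, T, bag, hT, h1, h2, h3⟩ := h
  obtain ⟨t, ht⟩ := helly_tree hT (fun i => {t | f i ∈ bag t}) (fun i => conn_of_induce (h2 _))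
    fun i j => by
      by_cases e : i = j
      · obtain ⟨t, ht⟩ := (h2 (f i)).nonempty
        exact ⟨t, ht, e ▸ ht⟩
      · exact h1 _ _ (hf i j e)
  have := Finset.card_le_card_of_injOn (s := Finset.univ) (t := bag t) f (fun i _ => ht i)
    fun i _ j _ e => by_contra fun e' => (hf i j e').ne e
  have := h3 t
  simp at *
  omega

/-- A parabolic arc above or below the axis. -/
noncomputable def bow (σ a b t : ℝ) : ℝ × ℝ := (a + t * (b - a), σ * (t * (b - a) * ((1 - t) * (b - a))))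

theorem book {n : ℕ} (G : SimpleGraph (Fin n)) (σ : Fin n → Fin n → Prop)
    (h : ∀ a b c d, G.Adj a b → G.Adj c d → (σ a b ↔ σ c d) → a < c → c < b → b < d → False) :
    KPlanar 0 G := by
  classical
  let sg : Fin n → Fin n → ℝ := fun a b => if σ a b then 1 else -1
  have sg0 : ∀ a b, sg a b ≠ 0 := fun a b => by simp only [sg]; split_ifs <;> norm_num
  have ord : ∀ e ∈ G.edgeSet, ∃ a b, a < b ∧ G.Adj a b ∧ e = s(a, b) ∧ e.inf = a ∧ e.sup = b := by
    intro e he
    induction e using Sym2.ind with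
    | _ u v =>
      have huv : G.Adj u v := he
      rcases lt_or_gt_of_ne huv.ne with h | h
      · exact ⟨u, v, h, huv, rfl, by simp [h.le], by simp [h.le]⟩
      · exact ⟨v, u, h, huv.symm, Sym2.eq_swap, by simp [h.le], by simp [h.le]⟩
  have cast : ∀ a b : Fin n, a < b ↔ ((a : ℕ) : ℝ) < (b : ℕ) := fun a b => by
    rw [Nat.cast_lt, Fin.lt_def]
  have half : ∀ a b c d : Fin n, G.Adj a b → G.Adj c d → (σ a b ↔ σ c d) → a ≤ c → ∀ x : ℝ,
      (c : ℕ) < x → x < (b : ℕ) → x < (d : ℕ) →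
      (x - (a : ℕ)) * ((b : ℕ) - x) = (x - (c : ℕ)) * ((d : ℕ) - x) → a = c ∧ b = d := by
    intro a b c d h1 h2 h3 h4 x h5 h6 h7 h8
    rcases h4.eq_or_lt with rfl | h4
    · refine ⟨rfl, Fin.ext ?_⟩
      have := mul_left_cancel₀ (by linarith) h8
      exact_mod_cast (show ((b : ℕ) : ℝ) = (d : ℕ) by linarith)
    · exfalso
      refine h a b c d h1 h2 h3 h4 ((cast _ _).2 (by linarith)) ((cast _ _).2 ?_)
      have := (cast _ _).1 h4
      by_contra hh
      nlinarith
  refine ⟨fun v => ((v : ℕ), 0), fun e => bow (sg e.inf e.sup) (e.inf : ℕ) (e.sup : ℕ), ?_, ?_, ?_⟩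
  · intro u v e
    simp only [Prod.mk.injEq, Nat.cast_inj, and_true] at e
    exact Fin.ext e
  · intro u v huv
    obtain ⟨a, b, hab, -, e, e1, e2⟩ := ord s(u, v) huv
    have := (cast _ _).1 hab
    simp only [e1, e2]
    refine ⟨by unfold bow; fun_prop, fun s _ t _ h => ?_, ?_, fun w t ht h => ?_⟩
    · have := congrArg Prod.fst h
      simp only [bow, add_right_inj] at this
      exact mul_right_cancel₀ (by linarith) this
    · rcases Sym2.eq_iff.1 e with ⟨rfl, rfl⟩ | ⟨rfl, rfl⟩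
      · left; simp [bow]
      · right; simp [bow]
    · have h' := congrArg Prod.snd h
      simp only [bow] at h'
      have h1 := ht.1
      have h2 : 0 < 1 - t := sub_pos.2 ht.2
      have h3 : (0 : ℝ) < (b : ℕ) - (a : ℕ) := sub_pos.2 this
      exact mul_ne_zero (sg0 a b) (by positivity) h'
  · intro e he
    rw [Nat.cast_zero, nonpos_iff_eq_zero, encard_eq_zero, eq_empty_iff_forall_notMem]
    rintro f ⟨hf, hne, x, ⟨s, hs, h1⟩, ⟨t, ht, h2⟩⟩
    obtain ⟨a, b, hab, g1, e0, e1, e2⟩ := ord e he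
    obtain ⟨c, d, hcd, g2, f0, f1, f2⟩ := ord f hf
    simp only [e1, e2, f1, f2] at h1 h2
    obtain ⟨x, y⟩ := x
    simp only [bow, Prod.mk.injEq] at h1 h2
    have p1 : (0 : ℝ) < s * ((b : ℕ) - (a : ℕ)) := mul_pos hs.1 (sub_pos.2 ((cast _ _).1 hab))
    have p2 : (0 : ℝ) < (1 - s) * ((b : ℕ) - (a : ℕ)) :=
      mul_pos (sub_pos.2 hs.2) (sub_pos.2 ((cast _ _).1 hab))
    have p3 : (0 : ℝ) < t * ((d : ℕ) - (c : ℕ)) := mul_pos ht.1 (sub_pos.2 ((cast _ _).1 hcd))
    have p4 : (0 : ℝ) < (1 - t) * ((d : ℕ) - (c : ℕ)) :=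
      mul_pos (sub_pos.2 ht.2) (sub_pos.2 ((cast _ _).1 hcd))
    have q1 : s * ((b : ℕ) - (a : ℕ)) = x - (a : ℕ) := by linarith [h1.1]
    have q2 : (1 - s) * ((b : ℕ) - (a : ℕ)) = (b : ℕ) - x := by linarith [h1.1]
    have q3 : t * ((d : ℕ) - (c : ℕ)) = x - (c : ℕ) := by linarith [h2.1]
    have q4 : (1 - t) * ((d : ℕ) - (c : ℕ)) = (d : ℕ) - x := by linarith [h2.1]
    have r := h1.2.trans h2.2.symm
    rw [q1, q2, q3, q4] at r
    rw [q1] at p1
    rw [q2] at p2
    rw [q3] at p3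
    rw [q4] at p4
    have p5 := mul_pos p1 p2
    have p6 := mul_pos p3 p4
    have hσ : (σ a b ↔ σ c d) ∧
        (x - (a : ℕ)) * ((b : ℕ) - x) = (x - (c : ℕ)) * ((d : ℕ) - x) := by
      simp only [sg] at r
      split_ifs at r with k1 k2 k2
      · exact ⟨by simp [k1, k2], by linarith⟩
      · linarith
      · linarith
      · exact ⟨by simp [k1, k2], by linarith⟩
    apply hne
    rw [e0, f0]
    rcases le_total a c with k | k
    · obtain ⟨rfl, rfl⟩ := half a b c d g1 g2 hσ.1 k x (by linarith) (by linarith) (by linarith)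
        hσ.2
      rfl
    · obtain ⟨rfl, rfl⟩ := half c d a b g2 g1 hσ.1.symm k x (by linarith) (by linarith)
        (by linarith) hσ.2.symm
      rfl

/-- Adjacency of an apex over disjoint fans. -/
def fanRel (M a b : ℕ) : Prop := a < b ∧ (a = 0 ∨ b = a + 1 ∨ (M ∣ a ∧ b < a + M))

theorem fan_planar (M n : ℕ) : KPlanar 0 (SimpleGraph.fromRel fun a b : Fin n => fanRel M a b) := by
  refine book _ (fun a b => (a : ℕ) = 0 ∨ (b : ℕ) = a + 1) fun a b c d h1 h2 h3 h4 h5 h6 => ?_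
  rw [SimpleGraph.fromRel_adj] at h1 h2
  rw [Fin.lt_def] at h4 h5 h6
  have g1 := h1.2.resolve_right fun e => by have := e.1; omega
  have g2 := h2.2.resolve_right fun e => by have := e.1; omega
  have g3 : ¬ ((c : ℕ) = 0 ∨ (d : ℕ) = c + 1) := by omega
  have g4 := mt h3.1 g3
  obtain ⟨-, g1 | g1 | g1⟩ := g1
  · omega
  · omega
  obtain ⟨-, g2 | g2 | g2⟩ := g2
  · omega
  · omega
  have := Nat.le_of_dvd (by omega) (Nat.dvd_sub g2.1 g1.1)
  omega

theorem three_le {c : ℕ} (h : Admissible c) : 3 ≤ c := by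
  classical
  obtain ⟨f, h⟩ := h
  set N := f 0 with hN
  set m := 3 * N with hm
  set M := (m + 1) * (m + 1) + 1 with hM
  set n := M + (m + 1) * M with hn
  have n0 : 0 < n := by omega
  obtain ⟨p, l, H, htw, ⟨φ⟩⟩ := h 0 n _ (fan_planar M n)
  let ψ : ℕ → (Fin p × Fin (l + 1)) × Fin N := fun x => φ ⟨x % n, Nat.mod_lt _ n0⟩
  have inj : ∀ x, x < n → ∀ y, y < n → ψ x = ψ y → x = y := by
    intro x hx y hy e
    have := congrArg Fin.val (φ.injective e)
    simpa only [Nat.mod_eq_of_lt hx, Nat.mod_eq_of_lt hy] using this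
  have adj : ∀ x y, y < n → fanRel M x y →
      ((ψ x).1.1 = (ψ y).1.1 ∨ H.Adj (ψ x).1.1 (ψ y).1.1) ∧
      ((ψ x).1.2 : ℕ) ≤ (ψ y).1.2 + 1 ∧ ((ψ y).1.2 : ℕ) ≤ (ψ x).1.2 + 1 := by
    intro x y hy hr
    have hx : x < n := hr.1.trans hy
    have : (strongProd (strongProd H (SimpleGraph.pathGraph (l + 1)))
        (SimpleGraph.completeGraph (Fin N))).Adj (ψ x) (ψ y) := by
      refine φ.toHom.map_adj ((SimpleGraph.fromRel_adj _ _ _).2 ⟨?_, Or.inl ?_⟩)
      · simp only [ne_eq, Fin.mk.injEq, Nat.mod_eq_of_lt hx, Nat.mod_eq_of_lt hy]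
        exact hr.1.ne
      · simpa only [Nat.mod_eq_of_lt hx, Nat.mod_eq_of_lt hy] using hr
    have : (ψ x).1 = (ψ y).1 ∨ (strongProd H (SimpleGraph.pathGraph (l + 1))).Adj (ψ x).1 (ψ y).1 := by
      rcases this with h | h | h
      · exact Or.inl h.1
      · exact Or.inr h.2
      · exact Or.inr h.1
    rcases this with h | h | h | h
    · rw [h]; simp
    · have := SimpleGraph.pathGraph_adj.1 h.2
      exact ⟨Or.inl h.1, by omega⟩
    · rw [h.1]; exact ⟨Or.inr h.2, by simp⟩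
    · have := SimpleGraph.pathGraph_adj.1 h.2
      exact ⟨Or.inr h.1, by omega⟩
  have lay : ∀ y, y < n →
      ((ψ 0).1.2 : ℕ) ≤ (ψ y).1.2 + 1 ∧ ((ψ y).1.2 : ℕ) ≤ (ψ 0).1.2 + 1 := by
    intro y hy
    rcases Nat.eq_zero_or_pos y with rfl | h0
    · simp
    · exact (adj 0 y hy ⟨h0, Or.inl rfl⟩).2
  set g : ℕ → Fin p := fun x => (ψ x).1.1 with hg
  have block : ∀ x s L, s + (m + 1) * L ≤ n → ∃ b ≤ m, ∀ r < L, g (s + b * L + r) ≠ x := by
    intro x s L hL
    by_contra hne
    push Not at hne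
    choose! r hr using hne
    have lt : ∀ b, b ≤ m → s + b * L + r b < n := by
      intro b hb
      have := (hr b hb).1
      have := Nat.mul_le_mul_right L hb
      rw [Nat.succ_mul] at hL
      omega
    obtain ⟨a, ha, b, hb, hab, e⟩ := Finset.exists_ne_map_eq_of_card_lt_of_maps_to
      (s := Finset.range (m + 1)) (t := Finset.range 3 ×ˢ (Finset.univ : Finset (Fin N)))
      (f := fun b => (((ψ (s + b * L + r b)).1.2 : ℕ) + 1 - (ψ 0).1.2, (ψ (s + b * L + r b)).2))
      (by simp [hm]) fun b hb => by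
        have := lay _ (lt b (Nat.lt_succ_iff.1 (Finset.mem_range.1 hb)))
        simp only [Finset.coe_product, Finset.coe_range, Finset.coe_univ, mem_prod, mem_Iio,
          mem_univ, and_true]
        omega
    have ha := Nat.lt_succ_iff.1 (Finset.mem_range.1 ha)
    have hb := Nat.lt_succ_iff.1 (Finset.mem_range.1 hb)
    simp only [Prod.mk.injEq] at e
    have h1 := lay _ (lt a ha)
    have h2 := lay _ (lt b hb)
    have := inj _ (lt a ha) _ (lt b hb) (Prod.ext (Prod.ext
      (((hr a ha).2).trans (hr b hb).2.symm) (Fin.ext (by omega))) e.2)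
    have h3 := (hr a ha).1
    have h4 := (hr b hb).1
    rcases lt_or_gt_of_ne hab with k | k
    · have := Nat.mul_le_mul_right L (Nat.succ_le_of_lt k)
      rw [Nat.succ_mul] at this
      omega
    · have := Nat.mul_le_mul_right L (Nat.succ_le_of_lt k)
      rw [Nat.succ_mul] at this
      omega
  obtain ⟨j, hj, h1⟩ := block (g 0) M M le_rfl
  set v := M + j * M with hv
  have vn : v + M ≤ n := by
    have := Nat.mul_le_mul_right M hj
    rw [hn, Nat.succ_mul]
    omega
  obtain ⟨b, hb, h2⟩ := block (g v) (v + 1) (m + 1) (by omega)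
  set s := v + 1 + b * (m + 1) with hs
  have sn : s + m + 1 ≤ v + M := by
    have := Nat.mul_le_mul_right (m + 1) hb
    rw [hM, Nat.succ_mul]
    omega
  obtain ⟨i, hi, h3⟩ : ∃ i < m, g (s + i) ≠ g (s + i + 1) := by
    by_contra hne
    push Not at hne
    obtain ⟨i, hi, h3⟩ := block (g s) s 1 (by omega)
    refine h3 0 one_pos ?_
    rw [mul_one, add_zero]
    clear h3
    induction i with
    | zero => rfl
    | succ i ih => rw [← add_assoc, ← hne i hi, ih (by omega)]
  have dv : M ∣ v := ⟨j + 1, by rw [hv]; ring⟩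
  have k1 : ∀ x, v ≤ x → x < v + M → H.Adj (g 0) (g x) := by
    intro x k k'
    refine (adj 0 x (by omega) ⟨by omega, Or.inl rfl⟩).1.resolve_left fun e => ?_
    refine h1 (x - v) (by omega) ?_
    rw [show v + (x - v) = x by omega]
    exact e.symm
  have k2 : ∀ r, r < m + 1 → H.Adj (g v) (g (s + r)) := fun r hr =>
    (adj v (s + r) (by omega) ⟨by omega, Or.inr (Or.inr ⟨dv, by omega⟩)⟩).1.resolve_left
      fun e => h2 r hr e.symm
  have a1 := k1 v le_rfl (by omega)
  have a2 := k1 (s + i) (by omega) (by omega)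
  have a3 := k1 (s + i + 1) (by omega) (by omega)
  have a4 := k2 i (by omega)
  have a5 := k2 (i + 1) (by omega)
  have a6 : H.Adj (g (s + i)) (g (s + i + 1)) :=
    (adj (s + i) (s + i + 1) (by omega) ⟨by omega, Or.inr (Or.inl rfl)⟩).1.resolve_left h3
  refine htw.clique ![g 0, g v, g (s + i), g (s + i + 1)] fun x y hxy => ?_
  fin_cases x <;> fin_cases y <;> first
    | exact (hxy rfl).elim
    | assumption
    | exact SimpleGraph.Adj.symm (by assumption)

end Pool.Agent.Lib.MP_25cd9a_co
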