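import Pool.Agent.Lib.MP_25cd9a_co.Route

set_option autoImplicit false

namespace Pool.Agent.Lib.MP_25cd9a_co

open Set

theorem greedy_col {ι : Type*} [Finite ι] (a : ι → ι → Prop) (hs : ∀ i j, a i j → a j i) (k : ℕ)
    (h : ∀ i, ∃ X : Finset ι, X.card ≤ k ∧ ∀ j, j ≠ i → a i j → j ∈ X) :
    ∃ col : ι → ℕ, (∀ i, col i ≤ k) ∧ ∀ i j, i ≠ j → a i j → col i ≠ col j := by
  classical
  have key : ∀ s : Finset ι, ∃ col : ι → ℕ, (∀ i, col i ≤ k) ∧
      ∀ i ∈ s, ∀ j ∈ s, i ≠ j → a i j → col i ≠ col j := by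
    intro s
    induction s using Finset.induction_on with
    | empty => exact ⟨fun _ => 0, by simp, by simp⟩
    | insert x s hx ih =>
      obtain ⟨col, h1, h2⟩ := ih
      obtain ⟨X, hX, hX'⟩ := h x
      obtain ⟨c, hc, hc'⟩ : ∃ c ∈ Finset.range (k + 1), c ∉ X.image col := by
        apply Finset.exists_mem_notMem_of_card_lt_card
        have := Finset.card_image_le (s := X) (f := col)
        rw [Finset.card_range]
        omega
      have hne : ∀ j, j ≠ x → a x j → c ≠ col j := fun j hj ha e =>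
        hc' (Finset.mem_image.2 ⟨j, hX' j hj ha, e.symm⟩)
      refine ⟨Function.update col x c, fun i => ?_, fun i hi j hj hij ha => ?_⟩
      · by_cases e : i = x
        · rw [e, Function.update_self]
          have := Finset.mem_range.1 hc
          omega
        · rw [Function.update_of_ne e]; exact h1 i
      · by_cases e : i = x
        · subst e
          rw [Function.update_self, Function.update_of_ne hij.symm]
          exact hne j hij.symm ha
        · by_cases e' : j = x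
          · subst e'
            rw [Function.update_self, Function.update_of_ne hij]
            exact (hne i hij (hs _ _ ha)).symm
          · rw [Function.update_of_ne e, Function.update_of_ne e']
            exact h2 i ((Finset.mem_insert.1 hi).resolve_left e) j
              ((Finset.mem_insert.1 hj).resolve_left e') hij ha
  have := Fintype.ofFinite ι
  obtain ⟨col, h1, h2⟩ := key Finset.univ
  exact ⟨col, h1, fun i j => h2 i (Finset.mem_univ _) j (Finset.mem_univ _)⟩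

/-- A representation of `G` by connected regions of `Γ`. -/
structure Model {V R : Type*} (Γ : SimpleGraph V) (G : SimpleGraph R) (k : ℕ) where
  B : R → Set V
  D : Sym2 R → Set V
  r : V
  connB : ∀ u, Conn Γ (B u)
  neB : ∀ u, (B u).Nonempty
  disjB : ∀ u v, ∀ x ∈ B u, x ∈ B v → u = v
  connD : ∀ e, Conn Γ (D e)
  edgeD : ∀ u v, (D s(u, v)).Nonempty → G.Adj u v
  disjBD : ∀ u e, ∀ x ∈ B u, x ∉ D e
  tch : ∀ u v, G.Adj u v → Tch Γ (D s(u, v)) (B u)
  cross : ∀ e, ∃ X : Finset (Sym2 R), X.card ≤ k ∧ ∀ f, f ≠ e → (D e ∩ D f).Nonempty → f ∈ X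
  rB : ∀ u, r ∉ B u
  rD : ∀ e, r ∉ D e
  conn : Conn Γ univ

variable {V R : Type*} {Γ : SimpleGraph V} {G : SimpleGraph R} {k : ℕ} (M : Model Γ G k)

namespace Model

/-- The region of a vertex together with the regions of its edges. -/
def hat (u : R) : Set V := {x | x ∈ M.B u ∨ ∃ e : Sym2 R, u ∈ e ∧ x ∈ M.D e}

/-- The union of these sets over a vertex set. -/
def hatS (W : Set R) : Set V := {x | ∃ u ∈ W, x ∈ M.hat u}

theorem tch' {u : R} {e : Sym2 R} (hu : u ∈ e) (hne : (M.D e).Nonempty) :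
    Tch Γ (M.D e) (M.B u) := by
  obtain ⟨v, rfl⟩ := Sym2.mem_iff_exists.1 hu
  exact M.tch u v (M.edgeD u v hne)

theorem conn_BD {u : R} {e : Sym2 R} (hu : u ∈ e) : Conn Γ (M.B u ∪ M.D e) := by
  rcases (M.D e).eq_empty_or_nonempty with h | h
  · rw [h, union_empty]; exact M.connB u
  · exact (M.connB u).union_tch (M.connD e) (M.tch' hu h).symm

theorem BD_subset {u : R} {e : Sym2 R} (hu : u ∈ e) : M.B u ∪ M.D e ⊆ M.hat u := by
  rintro x (h | h)
  · exact Or.inl h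
  · exact Or.inr ⟨e, hu, h⟩

theorem hat_conn (u : R) : Conn Γ (M.hat u) := by
  refine conn_of_base (M.connB u) (fun x h => Or.inl h) ?_
  obtain ⟨b, hb⟩ := M.neB u
  rintro x (h | ⟨e, hu, h⟩)
  · exact ⟨x, h, Rch.refl _ _⟩
  · exact ⟨b, hb, (M.conn_BD hu x (Or.inr h) b (Or.inl hb)).mono (M.BD_subset hu)⟩

theorem hat_inter {u v : R} (h : G.Adj u v) : ∃ x, x ∈ M.hat u ∧ x ∈ M.hat v := by
  obtain ⟨x, hx⟩ := (M.tch u v h).left
  exact ⟨x, Or.inr ⟨_, Sym2.mem_mk_left _ _, hx⟩, Or.inr ⟨_, Sym2.mem_mk_right _ _, hx⟩⟩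

theorem hat_subset {W : Set R} {u : R} (hu : u ∈ W) : M.hat u ⊆ M.hatS W :=
  fun _ h => ⟨u, hu, h⟩

theorem hatS_conn {W : Set R} (hW : Conn G W) : Conn Γ (M.hatS W) := by
  rintro x ⟨u, hu, hx⟩ y ⟨v, hv, hy⟩
  refine hW.ind hu (fun v => ∀ y ∈ M.hat v, Rch Γ (M.hatS W) x y)
    (fun y hy => (M.hat_conn u x hx y hy).mono (M.hat_subset hu)) ?_ v hv y hy
  intro a b _ hb hab ih y hy
  obtain ⟨z, h1, h2⟩ := M.hat_inter hab
  exact (ih z h1).trans ((M.hat_conn b z h2 y hy).mono (M.hat_subset hb))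

theorem hatS_nonempty {W : Set R} (hW : W.Nonempty) : (M.hatS W).Nonempty := by
  obtain ⟨u, hu⟩ := hW
  obtain ⟨x, hx⟩ := M.neB u
  exact ⟨x, u, hu, Or.inl hx⟩

theorem eq_of_mem_hat {u v : R} {x : V} (h1 : x ∈ M.B u) (h2 : x ∈ M.hat v) : u = v := by
  rcases h2 with h | ⟨e, -, h⟩
  · exact M.disjB u v x h1 h
  · exact (M.disjBD u e x h1 h).elim

theorem tch_hat {u v : R} (h : G.Adj u v) : Tch Γ (M.hat u) (M.B v) := by
  refine (M.tch v u h.symm).mono (fun x hx => Or.inr ⟨_, Sym2.mem_mk_right _ _, hx⟩) subset_rfl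

/-- At most `2 (k + 1)` vertices lie on an edge whose region meets a given edge region. -/
theorem near (e : Sym2 R) : ∃ F : Finset R, F.card ≤ 2 * (k + 1) ∧
    ∀ f : Sym2 R, (M.D e ∩ M.D f).Nonempty → ∀ u ∈ f, u ∈ F := by
  classical
  obtain ⟨X, h1, h2⟩ := M.cross e
  refine ⟨(insert e X).biUnion Sym2.toFinset, ?_, fun f hf u hu => ?_⟩
  · have h3 := Finset.card_biUnion_le_card_mul (insert e X) Sym2.toFinset 2 fun f _ => by
      rw [Sym2.card_toFinset]; split_ifs <;> omega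
    have h4 := Finset.card_insert_le e X
    nlinarith
  · refine Finset.mem_biUnion.2 ⟨f, ?_, Sym2.mem_toFinset.2 hu⟩
    by_cases h : f = e
    · exact h ▸ Finset.mem_insert_self _ _
    · exact Finset.mem_insert_of_mem (h2 f h hf)

/-- The vertex set of an object. -/
def blk : Sym2 R ⊕ R ⊕ V → Set V
  | .inl e => M.D e
  | .inr (.inl u) => M.B u
  | .inr (.inr x) => {x}

/-- The objects in use. -/
def act : Sym2 R ⊕ R ⊕ V → Prop
  | .inl e => (M.D e).Nonempty
  | .inr (.inl _) => True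
  | .inr (.inr x) => (∀ u, x ∉ M.B u) ∧ ∀ e, x ∉ M.D e

theorem blk_conn (o : Sym2 R ⊕ R ⊕ V) : Conn Γ (M.blk o) := by
  rcases o with e | u | x
  · exact M.connD e
  · exact M.connB u
  · exact conn_singleton x

theorem blk_cover (x : V) : ∃ o, M.act o ∧ x ∈ M.blk o := by
  by_cases h1 : ∃ u, x ∈ M.B u
  · obtain ⟨u, hu⟩ := h1
    exact ⟨.inr (.inl u), trivial, hu⟩
  by_cases h2 : ∃ e, x ∈ M.D e
  · obtain ⟨e, he⟩ := h2
    exact ⟨.inl e, ⟨x, he⟩, he⟩
  push Not at h1 h2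
  exact ⟨.inr (.inr x), ⟨h1, h2⟩, rfl⟩

theorem blk_inter {o o' : Sym2 R ⊕ R ⊕ V} (h : M.act o) (h' : M.act o') {x : V}
    (hx : x ∈ M.blk o) (hx' : x ∈ M.blk o') :
    o = o' ∨ ∃ e f, o = .inl e ∧ o' = .inl f ∧ e ≠ f ∧ (M.D e ∩ M.D f).Nonempty := by
  rcases o with e | u | y <;> rcases o' with f | v | z
  · by_cases hef : e = f
    · exact Or.inl (by rw [hef])
    · exact Or.inr ⟨e, f, rfl, rfl, hef, x, hx, hx'⟩
  · exact (M.disjBD v e x hx' hx).elim
  · exact (h'.2 e (by rw [← show x = z from hx']; exact hx)).elim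
  · exact (M.disjBD u f x hx hx').elim
  · exact Or.inl (by rw [M.disjB u v x hx hx'])
  · exact (h'.1 u (by rw [← show x = z from hx']; exact hx)).elim
  · exact (h.2 f (by rw [← show x = y from hx]; exact hx')).elim
  · exact (h.1 v (by rw [← show x = y from hx]; exact hx')).elim
  · exact Or.inl (by rw [← show x = y from hx, ← show x = z from hx'])

theorem blk_touch (o : Sym2 R ⊕ R ⊕ V) : ∃ F : Finset R, F.card ≤ 2 * (k + 1) ∧
    (M.act o → ∀ u, ∀ x ∈ M.blk o, x ∈ M.hat u → u ∈ F) := by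
  rcases o with e | v | y
  · obtain ⟨F, h1, h2⟩ := M.near e
    refine ⟨F, h1, fun _ u x hx hu => ?_⟩
    rcases hu with h | ⟨f, hf, h⟩
    · exact (M.disjBD u e x h hx).elim
    · exact h2 f ⟨x, hx, h⟩ u hf
  · refine ⟨{v}, by simp; omega, fun _ u x hx hu => ?_⟩
    rw [Finset.mem_singleton]
    exact (M.eq_of_mem_hat hx hu).symm
  · refine ⟨∅, by simp, fun ha u x hx hu => ?_⟩
    rw [show x = y from hx] at hu
    rcases hu with h | ⟨f, -, h⟩
    · exact (ha.1 u h).elim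
    · exact (ha.2 f h).elim

/-- Two objects meet or are joined by an edge. -/
def near₀ (o o' : Sym2 R ⊕ R ⊕ V) : Prop :=
  ∃ x ∈ M.blk o, ∃ y ∈ M.blk o', x = y ∨ Γ.Adj x y

theorem near₀_symm {o o' : Sym2 R ⊕ R ⊕ V} (h : M.near₀ o o') : M.near₀ o' o := by
  obtain ⟨x, hx, y, hy, h⟩ := h
  exact ⟨y, hy, x, hx, h.imp Eq.symm SimpleGraph.Adj.symm⟩

/-- Objects reachable from the root in the given number of steps. -/
def Reach : ℕ → Sym2 R ⊕ R ⊕ V → Prop
  | 0, o => M.r ∈ M.blk o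
  | n + 1, o => ∃ o', M.act o' ∧ M.near₀ o o' ∧ Reach n o'

theorem exists_level : ∃ μ : Sym2 R ⊕ R ⊕ V → ℕ,
    (∀ o o', M.act o → M.act o' → M.near₀ o o' → μ o ≤ μ o' + 1) ∧
    ∀ o, M.act o → M.r ∈ M.blk o ∨ ∃ o', M.act o' ∧ M.near₀ o o' ∧ μ o' < μ o := by
  have hex : ∀ x, ∀ o, x ∈ M.blk o → ∃ n, M.Reach n o := fun x =>
    M.conn.ind (mem_univ M.r) (fun x => ∀ o, x ∈ M.blk o → ∃ n, M.Reach n o)
      (fun o ho => ⟨0, ho⟩) (fun a b _ _ hab ih o ho => by
        obtain ⟨o', h1, h2⟩ := M.blk_cover a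
        obtain ⟨n, hn⟩ := ih o' h2
        exact ⟨n + 1, o', h1, ⟨b, ho, a, h2, Or.inr hab.symm⟩, hn⟩) x (mem_univ x)
  have hne : ∀ o, M.act o → ∃ n, M.Reach n o := by
    rintro (e | u | x) ho
    · obtain ⟨x, hx⟩ := ho
      exact hex x _ hx
    · obtain ⟨x, hx⟩ := M.neB u
      exact hex x _ hx
    · exact hex x _ rfl
  refine ⟨fun o => sInf {n | M.Reach n o}, fun o o' _ h' hn => ?_, fun o ho => ?_⟩
  · exact Nat.sInf_le ⟨o', h', hn, Nat.sInf_mem (s := {n | M.Reach n o'}) (hne o' h')⟩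
  · have hm : M.Reach (sInf {n | M.Reach n o}) o :=
      Nat.sInf_mem (s := {n | M.Reach n o}) (hne o ho)
    cases hd : sInf {n | M.Reach n o} with
    | zero =>
      rw [hd] at hm
      exact Or.inl hm
    | succ n =>
      rw [hd] at hm
      obtain ⟨o', h1, h2, h3⟩ := hm
      refine Or.inr ⟨o', h1, h2, ?_⟩
      have : sInf {n | M.Reach n o'} ≤ n := Nat.sInf_le h3
      simp only [hd]
      omega

end Model

end Pool.Agent.Lib.MP_25cd9a_co
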