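import Pool.Agent.Lib.MP_25cd9a_co.MainStep
import Pool.Agent.Lib.MP_25cd9a_co.PHit

set_option autoImplicit false

namespace Pool.Agent.Lib.MP_25cd9a_co

open Set

variable {V R : Type*} {Γ : SimpleGraph V} {G : SimpleGraph R} {k : ℕ}

/-- The polynomial bound on the layered width of a part. -/
def mxL (k : ℕ) : ℕ := (18 * (nx k + 1) - 9) * ((7 * k + 8) * (2 * (k + 1)))

variable {M : Model Γ G k} {π : R → ℕ} {W : Set R} {Lab : Finset ℕ}
  {col : Sym2 R → ℕ} {μ : Sym2 R ⊕ R ⊕ V → ℕ}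

theorem St.stepL [Finite V] (h33 : NoK33 Γ) (h5 : NoK5 Γ) (hc : ∀ e, col e ≤ k)
    (hc' : ∀ e f, e ≠ f → (M.D e ∩ M.D f).Nonempty → col e ≠ col f)
    (hμ₁ : ∀ o o', M.act o → M.act o' → M.near₀ o o' → μ o ≤ μ o' + 1)
    (hμ₂ : ∀ o, M.act o → M.r ∈ M.blk o ∨ ∃ o', M.act o' ∧ M.near₀ o o' ∧ μ o' < μ o)
    (h : St M π W Lab) (hW : Conn G W) (hne : W.Nonempty) (n : ℕ) (hn : ∀ u ∈ Nb G W, π u ≠ n) :
    ∃ S ⊆ W, S.Nonempty ∧
      (∀ i, ∃ F : Finset R, F.card ≤ mxL k ∧ ∀ u ∈ S, μ (.inr (.inl u)) / 2 = i → u ∈ F) ∧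
      ∀ π' : R → ℕ, (∀ u ∈ S, π' u = n) → (∀ u ∈ Nb G W, π' u = π u) → ∀ w ∈ W \ S,
        ∃ Lab' ⊆ insert n Lab, St M π' (comp G (W \ S) w) Lab' := by
  classical
  obtain ⟨O, te, Lg, Ex, h⟩ := h
  obtain ⟨p, rk, ob, hF, hO, hp⟩ := h.routing hc hc' hμ₂
  have chain := fun c I => chain_bound (M := M) (κ := key k col μ) (ob := ob) Prod.snd hO
    (fun x hx => (hp x hx).2.2.2.2) (fun x hx => ⟨act'_act (hp x hx).2.1, (hp x hx).2.2.1⟩) c I
  choose Fc hFc using chain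
  set A : Set V := {x | x ∈ O ∨ key k col μ (ob x) ≤ k + 1} with hA
  have A1 : ∀ x ∈ A, p x ∈ A := by
    intro x hx
    by_cases hxO : x ∈ O
    · exact Or.inl (by rw [hO x hxO]; exact hxO)
    · have := hx.resolve_left hxO
      rcases (hp x hxO).2.2.2.2 with e | e | e
      · exact Or.inl e
      · exact Or.inr (by omega)
      · exact Or.inr (by rw [e]; exact this)
  have A2 : ∀ u ∈ Nb G W, M.B u ∪ M.D (te u) ⊆ A := by
    intro u hu x hx
    by_cases hxO : x ∈ O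
    · exact Or.inl hxO
    · rcases hx with e | e
      · exact Or.inr (((hp x hxO).2.2.2.1 (true, .inr (.inl u)) hu e).trans (key_true hc _))
      · exact Or.inr (((hp x hxO).2.2.2.1 (true, .inl (te u)) ⟨⟨x, e⟩, u, hu, rfl⟩ e).trans
          (key_true hc _))
  obtain ⟨x₀, hx₀⟩ := M.hatS_nonempty hne
  set K := comp Γ (univ \ O) x₀ with hK
  have hKup : ∀ y, y ∉ K → p y ∉ K := comp_up hF (fun y e => (e (mem_univ y)).elim)
    (fun y hy => by rw [hO y hy]; exact hy) x₀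
  have hWK : M.hatS W ⊆ K := (M.hatS_conn hW).subset_comp (S := univ \ O)
    (fun x hx => ⟨mem_univ _, h.hatO x hx⟩) hx₀ (mem_comp_self ⟨mem_univ _, h.hatO _ hx₀⟩)
  have hG : Good Γ p O K := ⟨O, ∅, ∅, ∅, ∅, ∅, comp_conn _ _, fun y hy => (hp y hy.1.2).1, hKup,
    h.connO, conn_empty, conn_empty, disjoint_left.2 fun y hy => hy.1.2, disjoint_empty _,
    disjoint_empty _, disjoint_empty _, disjoint_empty _, disjoint_empty _,
    fun _ b => (b.ne_empty rfl).elim, fun _ b => (b.ne_empty rfl).elim,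
    fun _ b => (b.ne_empty rfl).elim,
    fun x hx y hy a => Or.inl (by_contra fun e => hy (comp_step hx ⟨mem_univ _, e⟩ a)),
    fun _ _ _ e _ => Or.inl e, fun _ _ _ e => e.elim, fun _ _ _ e => e.elim, by simp, by simp,
    by simp, by simp, by simp, by simp⟩
  have tne : ∀ Y, Tripod G π W Lab Y → Y.Nonempty := fun Y hY => by
    obtain ⟨a, ha⟩ : Lab.Nonempty := Finset.card_pos.1 (by have := hY.2.2.1; omega)
    obtain ⟨y, hy, -⟩ := hY.2.2.2 a ha
    exact ⟨y, hy⟩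
  obtain ⟨X, nX, -, hit, cov⟩ := Good.hitsL h33 h5 hF hO
    (𝒴 := {T | T = M.hatS W ∨ ∃ Y, Tripod G π W Lab Y ∧ T = M.hatS Y}) (by
      rintro T (rfl | ⟨Y, hY, rfl⟩)
      · exact ⟨⟨x₀, hx₀⟩, M.hatS_conn hW⟩
      · exact ⟨M.hatS_nonempty (tne Y hY), M.hatS_conn hY.2.1⟩) (nx k + 1) K hG (by
      intro F h1 h2
      have h3 : ∀ T : Set V, ∃ Y, T ∈ F.erase (M.hatS W) → Tripod G π W Lab Y ∧ T = M.hatS Y := by
        intro T
        by_cases hT : T ∈ F.erase (M.hatS W)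
        · obtain ⟨e1, e2⟩ := Finset.mem_erase.1 hT
          obtain ⟨Y, hY⟩ := (h1 T e2).1.resolve_left e1
          exact ⟨Y, fun _ => hY⟩
        · exact ⟨∅, fun e => (hT e).elim⟩
      choose g hg using h3
      have hinj : Set.InjOn g (F.erase (M.hatS W)) := fun T e T' e' e'' => by
        rw [(hg T e).2, (hg T' e').2, e'']
      have h4 := h.pack h33 ((F.erase (M.hatS W)).image g) (fun Y hY => by
        obtain ⟨T, e, rfl⟩ := Finset.mem_image.1 hY
        exact (hg T e).1) (fun Y hY Y' hY' hne => by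
        obtain ⟨T, e, rfl⟩ := Finset.mem_image.1 hY
        obtain ⟨T', e', rfl⟩ := Finset.mem_image.1 hY'
        rw [← (hg T e).2, ← (hg T' e').2]
        exact h2 (Finset.mem_of_mem_erase e) (Finset.mem_of_mem_erase e') fun e'' => hne (by rw [e'']))
      rw [Finset.card_image_of_injOn hinj] at h4
      have := Finset.pred_card_le_card_erase (s := F) (a := M.hatS W)
      omega)
  set S : Set R := {u | u ∈ W ∧ ∃ y ∈ M.hat u, y ∈ orbs p X} with hS
  refine ⟨S, fun u hu => hu.1, ?_, fun i => ?_, fun π' e1 e2 w hw => ?_⟩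
  · obtain ⟨y, ⟨u, hu, hy⟩, hy'⟩ := hit _ (Or.inl rfl) hWK
    exact ⟨u, hu, y, hy, hy'⟩
  · set I : Finset ℕ := Finset.range (k + 2) ∪
      Finset.Ico (k + 2 + (k + 1) * (2 * i - 2)) (k + 2 + (k + 1) * (2 * i + 4)) with hI
    have hIc : I.card ≤ 7 * k + 8 := by
      refine (Finset.card_union_le _ _).trans ?_
      rw [Finset.card_range, Nat.card_Ico]
      have : (k + 1) * (2 * i + 4) ≤ (k + 1) * (2 * i - 2) + (k + 1) * 6 := by
        rw [← Nat.mul_add]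
        exact Nat.mul_le_mul_left _ (by omega)
      omega
    refine ⟨X.biUnion fun c => Fc c I, ?_, ?_⟩
    · refine (Finset.card_biUnion_le_card_mul X _ ((7 * k + 8) * (2 * (k + 1))) fun c _ =>
        (hFc c I).1.trans (Nat.mul_le_mul_right _ hIc)).trans (Nat.mul_le_mul_right _ nX)
    · rintro u ⟨hu, y, hy, c, hcX, hyc⟩ hi
      have hyO : y ∉ O := h.hatO y ⟨u, hu, hy⟩
      refine Finset.mem_biUnion.2 ⟨c, hcX, (hFc c I).2 u y hyc hyO ?_ hy⟩
      have hl := level_near hμ₁ (act'_act (hp y hyO).2.1) (hp y hyO).2.2.1 hy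
      rcases hob : ob y with ⟨_ | _, o⟩
      · rw [hob] at hl
        refine Finset.mem_union_right _ (Finset.mem_Ico.2 ?_)
        rw [key_false]
        have := cl_le hc o
        have h1 : (k + 1) * (2 * i - 2) ≤ (k + 1) * μ o := Nat.mul_le_mul_left _ (by
          simp only at hl; omega)
        have h2 : (k + 1) * (μ o + 1) ≤ (k + 1) * (2 * i + 4) := Nat.mul_le_mul_left _ (by
          simp only at hl; omega)
        constructor
        · omega
        · nlinarith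
      · exact Finset.mem_union_left _ (Finset.mem_range.2 (Nat.lt_succ_of_le (key_true hc o)))
  set W' := comp G (W \ S) w with hW'
  have sW : W' ⊆ W := fun u hu => hu.1.1
  have hat' : M.hatS W' ⊆ K \ orbs p X := by
    rintro x ⟨u, hu, hx⟩
    exact ⟨hWK ⟨u, sW hu, hx⟩, fun e => hu.1.2 ⟨sW hu, x, hx, e⟩⟩
  obtain ⟨x₁, hx₁⟩ := M.hatS_nonempty (W := W') ⟨w, mem_comp_self hw⟩
  set K' := comp Γ (K \ orbs p X) x₁ with hK'
  have hWK' : M.hatS W' ⊆ K' := (M.hatS_conn (comp_conn _ _)).subset_comp hat' hx₁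
    (mem_comp_self (hat' hx₁))
  obtain ⟨C, nC, oC, hC⟩ := cov x₁ (hat' hx₁)
  have dC : ∀ y ∈ orbs p C, y ∉ K' := by
    rintro y ⟨c, hc, hy⟩
    exact orb_closed (S := K'ᶜ) (comp_up hF hKup (fun y => orbs_step) x₁) (oC c hc) hy
  have nb1 : ∀ u ∈ Nb G W', u ∈ W → u ∈ S := by
    rintro u ⟨h1, v, hv, a⟩ hu
    by_contra e
    exact h1 (comp_step hv ⟨hu, e⟩ a)
  have nb2 : ∀ u ∈ Nb G W', u ∉ W → u ∈ Nb G W := by
    rintro u ⟨-, v, hv, a⟩ hu
    exact ⟨hu, v, sW hv, a⟩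
  obtain ⟨L₀, sL, nL, hL⟩ : ∃ L₀ ⊆ Lab, L₀.card ≤ 2 ∧ ∀ u ∈ Nb G W', u ∉ W → π u ∈ L₀ := by
    by_cases h3 : Lab.card = 3
    · have : ¬ ∀ a ∈ Lab, ∃ y ∈ W', ∃ u, u ∉ W ∧ G.Adj y u ∧ π u = a := fun e => by
        obtain ⟨y, hy, hy'⟩ := hit (M.hatS W') (Or.inr ⟨W', ⟨sW, comp_conn _ _, h3, e⟩, rfl⟩)
          fun x hx => (hat' hx).1
        exact (hat' hy).2 hy'
      push Not at this
      obtain ⟨a, ha, hm⟩ := this
      refine ⟨Lab.erase a, Finset.erase_subset _ _, by rw [Finset.card_erase_of_mem ha]; omega,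
        fun u hu huW => Finset.mem_erase.2 ⟨?_, h.lab u (nb2 u hu huW)⟩⟩
      obtain ⟨-, v, hv, a⟩ := hu
      exact hm v hv u huW a
    · exact ⟨Lab, subset_rfl, by have := h.card; omega, fun u hu huW => h.lab u (nb2 u hu huW)⟩
  have hte : ∀ u, ∃ e : Sym2 R, u ∈ e ∧ (u ∉ W → e = te u) ∧ (u ∈ Nb G W' → u ∈ W →
      ∃ y ∈ orbs p C, y ∈ M.B u ∪ M.D e ∧ ((M.D e).Nonempty → y ∈ M.D e)) := by
    intro u
    by_cases huW : u ∈ W
    · by_cases hu : u ∈ Nb G W'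
      · obtain ⟨-, z, hz, hz'⟩ := nb1 u hu huW
        obtain ⟨-, v, hv, a⟩ := hu
        obtain ⟨t, t1, t2⟩ := M.hat_inter a
        obtain ⟨b, y, -, hb, hy, hy', a'⟩ := (M.hat_conn u).exit (A := K') t2 (hWK' ⟨v, hv, t1⟩) hz
          fun e => e.1.2 hz'
        have hyC : y ∈ orbs p C := (hC b hb y hy' a').resolve_left (h.hatO y ⟨u, huW, hy⟩)
        rcases hy with e | ⟨e, h1, h2⟩
        · exact ⟨s(u, u), Sym2.mem_mk_left _ _, fun e => (e huW).elim, fun _ _ =>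
            ⟨y, hyC, Or.inl e, fun e' => (G.irrefl (M.edgeD u u e')).elim⟩⟩
        · exact ⟨e, h1, fun e => (e huW).elim, fun _ _ => ⟨y, hyC, Or.inr h2, fun _ => h2⟩⟩
      · exact ⟨te u, h.mem u, fun _ => rfl, fun e => (hu e).elim⟩
    · exact ⟨te u, h.mem u, fun _ => rfl, fun _ e => (huW e).elim⟩
  choose te' m' o' n' using hte
  set LL : Finset (Set V) := C.image fun c => orb p c ∩ Aᶜ with hLL
  have LL1 : ∀ L ∈ LL, ∃ c ∈ C, L = orb p c ∩ Aᶜ := fun L hL => by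
    obtain ⟨c, hc, e⟩ := Finset.mem_image.1 hL
    exact ⟨c, hc, e.symm⟩
  have upd : ∀ a, ∀ L ∈ Function.update Lg n LL a, (a = n ∧ L ∈ LL) ∨ (a ≠ n ∧ L ∈ Lg a) := by
    intro a L hL
    by_cases e : a = n
    · subst e
      rw [Function.update_self] at hL
      exact Or.inl ⟨rfl, hL⟩
    · rw [Function.update_of_ne e] at hL
      exact Or.inr ⟨e, hL⟩
  refine ⟨insert n L₀, Finset.insert_subset_insert _ sL, O ∪ orbs p C, te',
    Function.update Lg n LL, Function.update Ex n (C.biUnion fun c => Fc c (Finset.range (k + 2))),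
    ?_, Or.inl h.rO, ?_, ?_, ?_, m', ?_, ?_, ?_, ?_, ?_, ?_, ?_, ?_, ?_⟩
  · refine conn_of_base h.connO subset_union_left ?_
    rintro x (e | ⟨c, hc, e⟩)
    · exact ⟨x, e, Rch.refl _ _⟩
    · obtain ⟨y, hy, hy'⟩ := hF.exists_fixed c
      exact ⟨y, by_contra fun e => (hp y e).1 hy',
        (hF.orb_conn c x e y hy).mono fun z hz => Or.inr ⟨c, hc, hz⟩⟩
  · rintro x hx (e | e)
    · exact (hat' hx).1.1.2 e
    · exact dC x e (hWK' hx)
  · intro u hu
    by_cases huW : u ∈ W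
    · rw [e1 u (nb1 u hu huW)]
      exact Finset.mem_insert_self _ _
    · rw [e2 u (nb2 u hu huW)]
      exact Finset.mem_insert_of_mem (hL u hu huW)
  · have := Finset.card_insert_le n L₀
    omega
  · intro u hu
    by_cases huW : u ∈ W
    · obtain ⟨y, h1, h2, -⟩ := n' u hu huW
      exact ⟨y, Or.inr h1, h2⟩
    · obtain ⟨y, h1, h2⟩ := h.te1 u (nb2 u hu huW)
      exact ⟨y, Or.inl h1, by rw [o' u huW]; exact h2⟩
  · intro u hu hD
    by_cases huW : u ∈ W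
    · obtain ⟨y, h1, -, h2⟩ := n' u hu huW
      exact ⟨y, Or.inr h1, h2 hD⟩
    · rw [o' u huW] at hD ⊢
      obtain ⟨y, h1, h2⟩ := h.te2 u (nb2 u hu huW) hD
      exact ⟨y, Or.inl h1, h2⟩
  · intro a
    by_cases e : a = n
    · subst e
      rw [Function.update_self]
      exact Finset.card_image_le.trans nC
    · rw [Function.update_of_ne e]
      exact h.lgc a
  · intro a L hL
    rcases upd a L hL with ⟨-, e⟩ | ⟨-, e⟩
    · obtain ⟨c, -, rfl⟩ := LL1 L e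
      exact hF.leg_conn (K := Aᶜ) (fun y hy hy' => hy' (A1 y (not_not.1 hy))) c
    · exact h.lgconn a L e
  · intro a L hL
    rcases upd a L hL with ⟨-, e⟩ | ⟨-, e⟩
    · obtain ⟨c, hc, rfl⟩ := LL1 L e
      exact fun y hy => Or.inr ⟨c, hc, hy.1⟩
    · exact (h.lgO a L e).trans subset_union_left
  · intro a b hab L hL L' hL'
    rcases upd a L hL with ⟨a1, e⟩ | ⟨a1, e⟩ <;> rcases upd b L' hL' with ⟨b1, e'⟩ | ⟨b1, e'⟩
    · exact (hab (a1.trans b1.symm)).elim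
    · obtain ⟨c, -, rfl⟩ := LL1 L e
      exact disjoint_left.2 fun y h1 h2 => h1.2 (Or.inl (h.lgO b L' e' h2))
    · obtain ⟨c, -, rfl⟩ := LL1 L' e'
      exact disjoint_left.2 fun y h1 h2 => h2.2 (Or.inl (h.lgO a L e h1))
    · exact h.lgd a b hab L e L' e'
  · intro u hu a ha L hL
    by_cases huW : u ∈ W
    · rw [e1 u (nb1 u hu huW)] at ha
      rcases upd a L hL with ⟨a1, -⟩ | ⟨-, e⟩
      · exact (ha a1).elim
      · exact disjoint_left.2 fun y h1 h2 =>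
          h.hatO y ⟨u, huW, M.BD_subset (m' u) h1⟩ (h.lgO a L e h2)
    · rw [e2 u (nb2 u hu huW)] at ha
      rw [o' u huW]
      rcases upd a L hL with ⟨-, e⟩ | ⟨-, e⟩
      · obtain ⟨c, -, rfl⟩ := LL1 L e
        exact disjoint_left.2 fun y h1 h2 => h2.2 (A2 u (nb2 u hu huW) h1)
      · exact h.avoid u (nb2 u hu huW) a ha L e
  · intro a
    by_cases e : a = n
    · subst e
      rw [Function.update_self]
      refine (Finset.card_biUnion_le_card_mul C _ ((k + 2) * (2 * (k + 1))) fun c _ => ?_).trans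
        (Nat.mul_le_mul_right _ nC)
      simpa using (hFc c (Finset.range (k + 2))).1
    · rw [Function.update_of_ne e]
      exact h.exc a
  · intro u hu hE
    by_cases huW : u ∈ W
    · rw [e1 u (nb1 u hu huW)] at hE ⊢
      rw [Function.update_self] at hE ⊢
      obtain ⟨y, ⟨c, hc, h1⟩, h2, -⟩ := n' u hu huW
      have h3 := M.BD_subset (m' u) h2
      have hyO : y ∉ O := h.hatO y ⟨u, huW, h3⟩
      refine ⟨_, Finset.mem_image_of_mem _ hc, y, ⟨h1, fun e => hE ?_⟩, h2⟩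
      exact Finset.mem_biUnion.2 ⟨c, hc, (hFc c _).2 u y h1 hyO
        (Finset.mem_range.2 (Nat.lt_succ_of_le (e.resolve_left hyO))) h3⟩
    · rw [e2 u (nb2 u hu huW)] at hE ⊢
      rw [Function.update_of_ne (hn u (nb2 u hu huW))] at hE ⊢
      rw [o' u huW]
      exact h.meet u (nb2 u hu huW) hE

end Pool.Agent.Lib.MP_25cd9a_co
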