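import Pool.Agent.Lib.MP_25cd9a_co.Assemble
import Pool.Agent.Lib.MP_25cd9a_co.PStep

set_option autoImplicit false

namespace Pool.Agent.Lib.MP_25cd9a_co

open Set

variable {V R : Type*} {Γ : SimpleGraph V} {G : SimpleGraph R} {k : ℕ} {M : Model Γ G k}

/-- The state of the process that assigns vertices to parts. -/
structure InvL (M : Model Γ G k) (lay : R → ℕ) (n : ℕ) (A : Set R) (π : R → ℕ)
    (β : ℕ → Finset ℕ) (par : ℕ → ℕ) : Prop where
  le : ∀ u ∈ A, π u ≤ n
  par : ∀ i, 0 < i → i ≤ n → par i < i ∧ β i ⊆ insert (par i) (β (par i))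
  card : ∀ i, i ≤ n → (β i).card ≤ 3
  zero : β 0 = ∅
  adj : ∀ u ∈ A, ∀ v ∈ A, G.Adj u v → π u = π v ∨ π u ∈ β (π v) ∨ π v ∈ β (π u)
  wid : ∀ a i, ∃ F : Finset R, F.card ≤ mxL k ∧ ∀ u ∈ A, π u = a → lay u = i → u ∈ F
  st : ∀ w, w ∉ A → ∃ t ≤ n, ∃ Lab ⊆ insert t (β t), St M π (comp G Aᶜ w) Lab

theorem exists_partitionL [Finite V] [Finite R] (M : Model Γ G k) (h33 : NoK33 Γ) (h5 : NoK5 Γ) :
    ∃ lay : R → ℕ, (∀ u v, G.Adj u v → lay u ≤ lay v + 1) ∧
      ∃ n π β par, InvL M lay n univ π β par := by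
  classical
  obtain ⟨col, hc, hc'⟩ := greedy_col (fun e f => (M.D e ∩ M.D f).Nonempty)
    (fun e f h => by rwa [inter_comm]) k M.cross
  obtain ⟨μ, hμ₁, hμ₂⟩ := M.exists_level
  refine ⟨fun u => μ (.inr (.inl u)) / 2, fun u v a => by
    have := level_adj hμ₁ a
    simp only
    omega, ?_⟩
  set lay : R → ℕ := fun u => μ (.inr (.inl u)) / 2 with hlay
  have key : ∀ m : ℕ, ∀ n A π β par, Aᶜ.ncard = m → InvL M lay n A π β par →
      ∃ n π β par, InvL M lay n univ π β par := by
    intro m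
    induction m using Nat.strong_induction_on with
    | _ m ih =>
      intro n A π β par hm h
      by_cases hA : ∀ w, w ∈ A
      · exact ⟨n, π, β, par, eq_univ_of_forall hA ▸ h⟩
      push Not at hA
      obtain ⟨w, hw⟩ := hA
      obtain ⟨t, ht, Lab, hLab, hSt⟩ := h.st w hw
      have nbA : ∀ w, ∀ u ∈ Nb G (comp G Aᶜ w), u ∈ A := by
        rintro w u ⟨h1, v, hv, a⟩
        by_contra e
        exact h1 (comp_step hv e a)
      set W := comp G Aᶜ w with hW
      obtain ⟨S, sS, ⟨s, hs⟩, wS, cS⟩ := hSt.stepL h33 h5 hc hc' hμ₁ hμ₂ (comp_conn _ _)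
        ⟨w, mem_comp_self hw⟩ (n + 1) fun u hu => by have := h.le u (nbA w u hu); omega
      have SA : ∀ u ∈ S, u ∉ A := fun u hu => (sS hu).1
      set π' : R → ℕ := fun u => if u ∈ S then n + 1 else π u with hπ'
      have p1 : ∀ u ∈ S, π' u = n + 1 := fun u hu => if_pos hu
      have p2 : ∀ u ∈ A, π' u = π u := fun u hu => if_neg fun e => SA u e hu
      have b1 : ∀ i, i ≤ n → Function.update β (n + 1) Lab i = β i := fun i hi =>
        Function.update_of_ne (by omega) _ _
      have new : ∀ u ∈ A, ∀ v ∈ S, G.Adj v u → π' u ∈ Function.update β (n + 1) Lab (π' v) := by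
        intro u hu v hv a
        rw [p1 v hv, p2 u hu, Function.update_self]
        exact hSt.lab u ⟨fun e => e.1 hu, v, sS hv, a⟩
      refine ih (A ∪ S)ᶜ.ncard ?_ (n + 1) (A ∪ S) π' (Function.update β (n + 1) Lab)
        (Function.update par (n + 1) t) rfl ⟨?_, ?_, ?_, ?_, ?_, ?_, ?_⟩
      · rw [← hm]
        exact ncard_lt_ncard ⟨compl_subset_compl.2 subset_union_left,
          fun e => e (SA s hs) (Or.inr hs)⟩ (toFinite _)
      · rintro u (hu | hu)
        · rw [p2 u hu]; exact (h.le u hu).trans (Nat.le_succ _)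
        · rw [p1 u hu]
      · intro i h0 hi
        by_cases e : i = n + 1
        · subst e
          rw [Function.update_self, Function.update_self, b1 t ht]
          exact ⟨by omega, hLab⟩
        · have := h.par i h0 (by omega)
          rw [Function.update_of_ne e, b1 i (by omega), b1 _ (by omega)]
          exact this
      · intro i hi
        by_cases e : i = n + 1
        · subst e
          rw [Function.update_self]
          exact hSt.card
        · rw [b1 i (by omega)]
          exact h.card i (by omega)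
      · rw [b1 0 (Nat.zero_le _)]
        exact h.zero
      · rintro u (hu | hu) v (hv | hv) a
        · rw [p2 u hu, p2 v hv, b1 _ (h.le u hu), b1 _ (h.le v hv)]
          exact h.adj u hu v hv a
        · exact Or.inr (Or.inl (new u hu v hv a.symm))
        · exact Or.inr (Or.inr (new v hv u hu a))
        · exact Or.inl (by rw [p1 u hu, p1 v hv])
      · intro a i
        by_cases e : a = n + 1
        · obtain ⟨F, h1, h2⟩ := wS i
          refine ⟨F, h1, ?_⟩
          rintro u (hu | hu) e1 e2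
          · have := h.le u hu
            rw [p2 u hu] at e1
            omega
          · exact h2 u hu e2
        · obtain ⟨F, h1, h2⟩ := h.wid a i
          refine ⟨F, h1, ?_⟩
          rintro u (hu | hu) e1 e2
          · exact h2 u hu (p2 u hu ▸ e1) e2
          · exact (e (by rw [← e1, p1 u hu])).elim
      · intro w' hw'
        have hw1 : w' ∉ A := fun e => hw' (Or.inl e)
        have hw2 : w' ∉ S := fun e => hw' (Or.inr e)
        by_cases e : w' ∈ W
        · obtain ⟨Lab', h1, h2⟩ := cS π' p1 (fun u hu => p2 u (nbA w u hu)) w' ⟨e, hw2⟩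
          refine ⟨n + 1, le_rfl, Lab', by rwa [Function.update_self], ?_⟩
          have : comp G (A ∪ S)ᶜ w' = comp G (W \ S) w' := by
            refine Subset.antisymm ?_ ?_
            · exact (comp_conn _ _).ind (mem_comp_self hw') _ (mem_comp_self ⟨e, hw2⟩)
                fun a b _ hb hab ha => comp_step ha ⟨comp_step ha.1.1
                  (fun e => hb.1 (Or.inl e)) hab, fun e => hb.1 (Or.inr e)⟩ hab
            · refine (comp_conn _ _).subset_comp ?_ (mem_comp_self ⟨e, hw2⟩) (mem_comp_self hw')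
              rintro u hu (e | e)
              · exact hu.1.1.1 e
              · exact hu.1.2 e
          rwa [this]
        · obtain ⟨t', ht', Lab', h1, h2⟩ := h.st w' hw1
          refine ⟨t', by omega, Lab', by rwa [b1 t' ht'], ?_⟩
          have : comp G (A ∪ S)ᶜ w' = comp G Aᶜ w' := by
            refine Subset.antisymm ?_ ?_
            · exact (comp_conn (A ∪ S)ᶜ w').subset_comp (S := Aᶜ) (fun u hu e => hu.1 (Or.inl e))
                (mem_comp_self hw') (mem_comp_self hw1)
            · refine (comp_conn _ _).subset_comp ?_ (mem_comp_self hw1) (mem_comp_self hw')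
              rintro u hu (e' | e')
              · exact hu.1 e'
              · exact e (by rw [hW, ← comp_eq_of_mem hu (sS e')]; exact mem_comp_self hw1)
          rw [this]
          exact h2.congr fun u hu => p2 u (nbA w' u hu)
  refine key _ 0 ∅ (fun _ => 0) (fun _ => ∅) (fun _ => 0) rfl ⟨by simp, fun i h1 h2 => by omega,
    by simp, rfl, by simp, fun _ _ => ⟨∅, by simp, by simp⟩, fun w _ => ⟨0, le_rfl, ∅, by simp,
    st_init M _ ?_⟩⟩
  rintro u ⟨h1, v, hv, a⟩
  exact h1 (comp_step hv (by simp) a)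

theorem Model.productL {R : Type} {G : SimpleGraph R} [Finite V] [Finite R] (M : Model Γ G k)
    (h33 : NoK33 Γ) (h5 : NoK5 Γ) :
    ∃ (m l : ℕ) (H : SimpleGraph (Fin m)), TreewidthLE H 3 ∧
      G.IsContained (strongProd (strongProd H (SimpleGraph.pathGraph (l + 1)))
        (SimpleGraph.completeGraph (Fin (mxL k)))) := by
  classical
  obtain ⟨lay, hlay, n, π, β, par, h⟩ := exists_partitionL M h33 h5
  obtain ⟨l, hl⟩ := (finite_range lay).bddAbove
  choose F hF using h.wid
  have hι : ∀ a i, ∃ ι : R → ℕ, (∀ u ∈ F a i, ι u < mxL k) ∧ InjOn ι (F a i) := by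
    intro a i
    refine ⟨fun u => if hu : u ∈ F a i then ((F a i).equivFin ⟨u, hu⟩ : ℕ) else 0,
      fun u hu => ?_, fun u hu v hv e => ?_⟩
    · simp only [dif_pos hu]
      exact ((F a i).equivFin ⟨u, hu⟩).2.trans_le (hF a i).1
    · simp only [dif_pos (Finset.mem_coe.1 hu), dif_pos (Finset.mem_coe.1 hv)] at e
      simpa using (F a i).equivFin.injective (Fin.ext e)
  choose ι hι using hι
  have mF : ∀ u, u ∈ F (π u) (lay u) := fun u => (hF _ _).2 u (mem_univ _) rfl rfl
  let φ : R → (Fin (n + 1) × Fin (l + 1)) × Fin (mxL k) := fun u =>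
    ((⟨π u, Nat.lt_succ_of_le (h.le u (mem_univ _))⟩, ⟨lay u, Nat.lt_succ_of_le (hl ⟨u, rfl⟩)⟩),
      ⟨ι (π u) (lay u) u, (hι _ _).1 u (mF u)⟩)
  have inj : Function.Injective φ := by
    intro u v e
    simp only [φ, Prod.mk.injEq, Fin.mk.injEq] at e
    obtain ⟨⟨e1, e2⟩, e3⟩ := e
    refine (hι (π v) (lay v)).2 (by rw [← e1, ← e2]; exact mF u) (mF v) ?_
    rw [← e3, e1, e2]
  refine ⟨n + 1, l, _, tw_of_parent n β par 3 h.par h.card h.zero, ⟨⟨φ, ?_⟩, inj⟩⟩
  intro u v a
  have hne : φ u ≠ φ v := fun e => a.ne (inj e)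
  have g1 : (φ u).1.1 = (φ v).1.1 ∨
      (SimpleGraph.fromRel fun a b : Fin (n + 1) => (a : ℕ) ∈ β b).Adj (φ u).1.1 (φ v).1.1 := by
    by_cases e : (φ u).1.1 = (φ v).1.1
    · exact Or.inl e
    · refine Or.inr ((SimpleGraph.fromRel_adj _ _ _).2 ⟨e, ?_⟩)
      exact (h.adj u (mem_univ _) v (mem_univ _) a).resolve_left fun e' => e (Fin.ext e')
  have g2 : (φ u).1.2 = (φ v).1.2 ∨ (SimpleGraph.pathGraph (l + 1)).Adj (φ u).1.2 (φ v).1.2 := by
    have := hlay u v a
    have := hlay v u a.symm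
    rw [SimpleGraph.pathGraph_adj, Fin.ext_iff]
    simp only [φ]
    omega
  have g3 : (φ u).2 = (φ v).2 ∨ (SimpleGraph.completeGraph (Fin (mxL k))).Adj (φ u).2 (φ v).2 :=
    em _
  have g4 : (φ u).1 = (φ v).1 ∨ (strongProd (SimpleGraph.fromRel fun a b : Fin (n + 1) =>
      (a : ℕ) ∈ β b) (SimpleGraph.pathGraph (l + 1))).Adj (φ u).1 (φ v).1 := by
    rcases g1 with e | e <;> rcases g2 with e' | e'
    · exact Or.inl (Prod.ext e e')
    · exact Or.inr (Or.inl ⟨e, e'⟩)
    · exact Or.inr (Or.inr (Or.inl ⟨e', e⟩))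
    · exact Or.inr (Or.inr (Or.inr ⟨e, e'⟩))
  rcases g4 with e | e <;> rcases g3 with e' | e'
  · exact (hne (Prod.ext e e')).elim
  · exact Or.inl ⟨e, e'⟩
  · exact Or.inr (Or.inl ⟨e', e⟩)
  · exact Or.inr (Or.inr ⟨e, e'⟩)

end Pool.Agent.Lib.MP_25cd9a_co
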