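import Pool.Agent.Lib.MP_25cd9a_co.Defs

set_option autoImplicit false

namespace Pool.Agent.Lib.MP_25cd9a_co

/-- The function `f` works for all `k` with treewidth bound `c`. -/
def AdmissibleWith (c : ℕ) (f : ℕ → ℕ) : Prop :=
  ∀ (k n : ℕ) (G : SimpleGraph (Fin n)), KPlanar k G →
    ∃ (m l : ℕ) (H : SimpleGraph (Fin m)), TreewidthLE H c ∧
      G.IsContained (strongProd (strongProd H (SimpleGraph.pathGraph (l + 1)))
        (SimpleGraph.completeGraph (Fin (f k))))

end Pool.Agent.Lib.MP_25cd9a_co
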