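import Pool.Agent.Lib.MP_25cd9a_co.PAssemble
import Pool.Agent.Lib.MP_25cd9a_co.Discretize
import Pool.Agent.Lib.MP_25cd9a_co.Lower
import Pool.Agent.Lib.MP_25cd9a_co.PDefs

set_option autoImplicit false

namespace Pool.Agent.Lib.MP_25cd9a_co

theorem gx_le (k m a i : ℕ) (hi : 2 ≤ i) (hm : m ≤ a * (k + 1) ^ i) :
    gx k m ≤ a * (48 + 12 * a) * (k + 1) ^ (2 * i) := by
  have h1 : qx k ≤ 48 * (k + 1) ^ i := by
    have : (k + 1) ^ 2 ≤ (k + 1) ^ i := Nat.pow_le_pow_right (by omega) hi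
    rw [qx]
    nlinarith
  calc gx k m ≤ (a * (k + 1) ^ i) * (48 * (k + 1) ^ i + 12 * (a * (k + 1) ^ i)) :=
        Nat.mul_le_mul hm (by omega)
    _ = _ := by ring

theorem mxL_le (k : ℕ) : mxL k ≤ 10 ^ 22 * (k + 1) ^ 14 := by
  have h1 : gx k (2 * (2 * (3 * (2 * (k + 1))) + 1)) ≤ 9360 * (k + 1) ^ 3 := by
    rw [gx, qx]
    nlinarith [Nat.zero_le k, Nat.zero_le (k ^ 2), Nat.zero_le (k ^ 3)]
  have h2 := gx_le k _ _ 3 (by omega) h1
  have h3 := gx_le k _ _ (2 * 3) (by omega) h2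
  have h4 : 1 ≤ (k + 1) ^ 12 := Nat.one_le_pow _ _ (by omega)
  have h5 : 18 * (nx k + 1) - 9 ≤ 3 * 10 ^ 20 * (k + 1) ^ 12 := by
    rw [nx]
    norm_num at h3 ⊢
    omega
  calc mxL k ≤ (3 * 10 ^ 20 * (k + 1) ^ 12) * ((8 * (k + 1)) * (2 * (k + 1))) :=
        Nat.mul_le_mul h5 (Nat.mul_le_mul_right _ (by omega))
    _ = 48 * 10 ^ 20 * (k + 1) ^ 14 := by ring
    _ ≤ _ := Nat.mul_le_mul_right _ (by norm_num)

theorem strongProd_mono {α : Type} (A : SimpleGraph α) {a b : ℕ} (h : a ≤ b) :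
    (strongProd A (SimpleGraph.completeGraph (Fin a))).IsContained
      (strongProd A (SimpleGraph.completeGraph (Fin b))) := by
  refine ⟨⟨⟨fun x => (x.1, Fin.castLE h x.2), ?_⟩, ?_⟩⟩
  · rintro x y (e | e | e)
    · exact Or.inl ⟨e.1, fun e' => e.2 (Fin.castLE_injective h e')⟩
    · exact Or.inr (Or.inl ⟨congrArg (Fin.castLE h) e.1, e.2⟩)
    · exact Or.inr (Or.inr ⟨e.1, fun e' => e.2 (Fin.castLE_injective h e')⟩)
  · intro x y e
    simp only [RelHom.coeFn_mk, Prod.mk.injEq] at e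
    exact Prod.ext e.1 (Fin.castLE_injective h e.2)

theorem admissibleWith_poly : AdmissibleWith 3 fun k => 10 ^ 22 * (k + 1) ^ 14 := by
  intro k n G h
  obtain ⟨U, hU, ⟨M⟩⟩ := h.model
  have := hU.to_subtype
  obtain ⟨m, l, H, h1, h2⟩ := M.productL (grid_vk U).noK33 (grid_vk U).noK5
  exact ⟨m, l, H, h1, h2.trans (strongProd_mono _ (mxL_le k))⟩

end Pool.Agent.Lib.MP_25cd9a_co
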