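import Pool.Agent.Lib.MP_25cd9a_co.Model

set_option autoImplicit false

namespace Pool.Agent.Lib.MP_25cd9a_co

open Set

theorem exists_low {ι : Type*} (c : ι → ι → Prop) (J : Finset ι) (hJ : J.Nonempty) (d : ℕ)
    (h : ∀ j ∈ J, ∃ F : Finset ι, F.card ≤ d ∧ ∀ j' ∈ J, c j j' → j' ∈ F) :
    ∃ j ∈ J, ∃ F : Finset ι, F.card ≤ 2 * d + 1 ∧ j ∈ F ∧
      ∀ j' ∈ J, c j j' ∨ c j' j → j' ∈ F := by
  classical
  have h1 : ∑ j ∈ J, (J.filter fun j' => c j' j).card ≤ ∑ _j ∈ J, d := by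
    have : ∑ j ∈ J, (J.filter fun j' => c j' j).card = ∑ j ∈ J, (J.filter fun j' => c j j').card := by
      simp only [Finset.card_filter]
      exact Finset.sum_comm
    rw [this]
    refine Finset.sum_le_sum fun j hj => ?_
    obtain ⟨F, h1, h2⟩ := h j hj
    exact (Finset.card_le_card fun j' hj' =>
      h2 j' (Finset.mem_filter.1 hj').1 (Finset.mem_filter.1 hj').2).trans h1
  obtain ⟨j, hj, h2⟩ := Finset.exists_le_of_sum_le hJ h1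
  obtain ⟨F, h3, h4⟩ := h j hj
  refine ⟨j, hj, insert j (F ∪ J.filter fun j' => c j' j), ?_, Finset.mem_insert_self _ _, ?_⟩
  · have := Finset.card_insert_le j (F ∪ J.filter fun j' => c j' j)
    have := Finset.card_union_le F (J.filter fun j' => c j' j)
    omega
  · rintro j' hj' (e | e)
    · exact Finset.mem_insert_of_mem (Finset.mem_union_left _ (h4 j' hj' e))
    · exact Finset.mem_insert_of_mem (Finset.mem_union_right _ (Finset.mem_filter.2 ⟨hj', e⟩))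

theorem exists_indep {ι : Type*} (c : ι → ι → Prop) (J : Finset ι) (d : ℕ)
    (hJ : 2 * (2 * d + 1) < J.card)
    (h : ∀ j ∈ J, ∃ F : Finset ι, F.card ≤ d ∧ ∀ j' ∈ J, c j j' → j' ∈ F) :
    ∃ j₁ ∈ J, ∃ j₂ ∈ J, ∃ j₃ ∈ J, (j₁ ≠ j₂ ∧ ¬ c j₁ j₂ ∧ ¬ c j₂ j₁) ∧
      (j₁ ≠ j₃ ∧ ¬ c j₁ j₃ ∧ ¬ c j₃ j₁) ∧ (j₂ ≠ j₃ ∧ ¬ c j₂ j₃ ∧ ¬ c j₃ j₂) := by
  classical
  obtain ⟨j₁, m₁, F₁, n₁, s₁, t₁⟩ := exists_low c J (Finset.card_pos.1 (by omega)) d h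
  have k₁ := Finset.le_card_sdiff F₁ J
  obtain ⟨j₂, m₂, F₂, n₂, s₂, t₂⟩ := exists_low c (J \ F₁) (Finset.card_pos.1 (by omega)) d
    fun j hj => by
      obtain ⟨F, h1, h2⟩ := h j (Finset.mem_sdiff.1 hj).1
      exact ⟨F, h1, fun j' hj' => h2 j' (Finset.mem_sdiff.1 hj').1⟩
  have k₂ := Finset.le_card_sdiff F₂ (J \ F₁)
  obtain ⟨j₃, m₃⟩ : ((J \ F₁) \ F₂).Nonempty := Finset.card_pos.1 (by omega)
  obtain ⟨m₃, m₃'⟩ := Finset.mem_sdiff.1 m₃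
  obtain ⟨a₂, b₂⟩ := Finset.mem_sdiff.1 m₂
  obtain ⟨a₃, b₃⟩ := Finset.mem_sdiff.1 m₃
  exact ⟨j₁, m₁, j₂, a₂, j₃, a₃,
    ⟨fun e => b₂ (e ▸ s₁), fun e => b₂ (t₁ _ a₂ (Or.inl e)), fun e => b₂ (t₁ _ a₂ (Or.inr e))⟩,
    ⟨fun e => b₃ (e ▸ s₁), fun e => b₃ (t₁ _ a₃ (Or.inl e)), fun e => b₃ (t₁ _ a₃ (Or.inr e))⟩,
    ⟨fun e => m₃' (e ▸ s₂), fun e => m₃' (t₂ _ m₃ (Or.inl e)),
      fun e => m₃' (t₂ _ m₃ (Or.inr e))⟩⟩

variable {V R : Type*} {Γ : SimpleGraph V} {G : SimpleGraph R} {k : ℕ}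

/-- The outer neighbours of a vertex set. -/
def Nb (G : SimpleGraph R) (W : Set R) : Set R := {u | u ∉ W ∧ ∃ w ∈ W, G.Adj w u}

/-- The bound on exceptional vertices per label. -/
def qx (k : ℕ) : ℕ := 12 * ((k + 2) * (2 * (k + 1)))

/-- The invariant kept for a region `W` of unassigned vertices. -/
structure StD (M : Model Γ G k) (π : R → ℕ) (W : Set R) (Lab : Finset ℕ) (O : Set V)
    (te : R → Sym2 R) (Lg : ℕ → Finset (Set V)) (Ex : ℕ → Finset R) : Prop where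
  connO : Conn Γ O
  rO : M.r ∈ O
  hatO : ∀ x ∈ M.hatS W, x ∉ O
  lab : ∀ u ∈ Nb G W, π u ∈ Lab
  card : Lab.card ≤ 3
  mem : ∀ u, u ∈ te u
  te1 : ∀ u ∈ Nb G W, ∃ x ∈ O, x ∈ M.B u ∪ M.D (te u)
  te2 : ∀ u ∈ Nb G W, (M.D (te u)).Nonempty → ∃ x ∈ O, x ∈ M.D (te u)
  lgc : ∀ a, (Lg a).card ≤ 12
  lgconn : ∀ a, ∀ L ∈ Lg a, Conn Γ L
  lgO : ∀ a, ∀ L ∈ Lg a, L ⊆ O
  lgd : ∀ a b, a ≠ b → ∀ L ∈ Lg a, ∀ L' ∈ Lg b, Disjoint L L'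
  avoid : ∀ u ∈ Nb G W, ∀ a, a ≠ π u → ∀ L ∈ Lg a, Disjoint (M.B u ∪ M.D (te u)) L
  exc : ∀ a, (Ex a).card ≤ qx k
  meet : ∀ u ∈ Nb G W, u ∉ Ex (π u) → ∃ L ∈ Lg (π u), ∃ x ∈ L, x ∈ M.B u ∪ M.D (te u)

/-- The invariant with its witnesses hidden. -/
def St (M : Model Γ G k) (π : R → ℕ) (W : Set R) (Lab : Finset ℕ) : Prop :=
  ∃ O te Lg Ex, StD M π W Lab O te Lg Ex

/-- A connected part of the region seeing three labels. -/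
def Tripod (G : SimpleGraph R) (π : R → ℕ) (W : Set R) (Lab : Finset ℕ) (Y : Set R) : Prop :=
  Y ⊆ W ∧ Conn G Y ∧ Lab.card = 3 ∧ ∀ a ∈ Lab, ∃ y ∈ Y, ∃ u, u ∉ W ∧ G.Adj y u ∧ π u = a

/-- One branch set for a label together with connecting pieces. -/
structure Branch (M : Model Γ G k) (π : R → ℕ) (W : Set R) (te : R → Sym2 R)
    (Lg : ℕ → Finset (Set V)) (a : ℕ) (u : Set R → R) (J : Finset (Set R)) (Z : Set V)
    (P : Set R → Set V) : Prop where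
  conn : Conn Γ Z
  kind : Z ∈ Lg a ∨ ∃ v ∈ Nb G W, π v = a ∧ Z = M.B v
  sub : ∀ Y ∈ J, P Y ⊆ M.B (u Y) ∪ M.D (te (u Y))
  disj : ∀ Y ∈ J, Disjoint Z (P Y)
  connP : ∀ Y ∈ J, Conn Γ (P Y)
  tchP : ∀ Y ∈ J, (P Y).Nonempty → Tch Γ (M.hatS Y) (P Y)
  tch : ∀ Y ∈ J, Tch Γ Z (M.hatS Y ∪ P Y)
  inj : ∀ Y ∈ J, ∀ Y' ∈ J, (P Y).Nonempty → u Y = u Y' → Y = Y'

variable {M : Model Γ G k} {π : R → ℕ} {W : Set R} {Lab : Finset ℕ} {O : Set V}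
  {te : R → Sym2 R} {Lg : ℕ → Finset (Set V)} {Ex : ℕ → Finset R}

theorem Branch.mono {a : ℕ} {u : Set R → R} {J J' : Finset (Set R)} {Z : Set V}
    {P : Set R → Set V} (h : Branch M π W te Lg a u J Z P) (hJ : J' ⊆ J) :
    Branch M π W te Lg a u J' Z P :=
  ⟨h.conn, h.kind, fun Y e => h.sub Y (hJ e), fun Y e => h.disj Y (hJ e),
    fun Y e => h.connP Y (hJ e), fun Y e => h.tchP Y (hJ e), fun Y e => h.tch Y (hJ e),
    fun Y e Y' e' => h.inj Y (hJ e) Y' (hJ e')⟩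

/-- The loss in one pigeonhole round. -/
def gx (k m : ℕ) : ℕ := m * (qx k + 12 * m)

theorem StD.branch (h : StD M π W Lab O te Lg Ex) (a : ℕ) (u : Set R → R) (J : Finset (Set R))
    (hu : ∀ Y ∈ J, u Y ∈ Nb G W ∧ π (u Y) = a ∧ Tch Γ (M.hatS Y) (M.B (u Y))) (m : ℕ)
    (hm : gx k m < J.card) :
    ∃ J' ⊆ J, m < J'.card ∧ ∃ Z P, Branch M π W te Lg a u J' Z P := by
  classical
  by_cases hs : ∃ v, m < (J.filter fun Y => u Y = v).card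
  · obtain ⟨v, hv⟩ := hs
    obtain ⟨Y₀, hY₀⟩ : (J.filter fun Y => u Y = v).Nonempty := Finset.card_pos.1 (by omega)
    obtain ⟨e1, e2⟩ := Finset.mem_filter.1 hY₀
    refine ⟨_, Finset.filter_subset _ _, hv, M.B v, fun _ => ∅, M.connB v,
      Or.inr ⟨v, e2 ▸ (hu Y₀ e1).1, e2 ▸ (hu Y₀ e1).2.1, rfl⟩, fun _ _ => empty_subset _,
      fun _ _ => disjoint_empty _, fun _ _ => conn_empty, fun _ _ e => (e.ne_empty rfl).elim,
      fun Y hY => ?_, fun _ _ _ _ e => (e.ne_empty rfl).elim⟩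
    obtain ⟨e3, e4⟩ := Finset.mem_filter.1 hY
    exact (e4 ▸ (hu Y e3).2.2).symm.mono subset_rfl subset_union_left
  push Not at hs
  have h1 : J.card ≤ m * (J.image u).card := Finset.card_le_mul_card_image J m fun v _ => hs v
  have h2 : qx k + 12 * m < (J.image u).card := by
    by_contra hh
    have := Nat.mul_le_mul_left m (not_lt.1 hh)
    rw [gx] at hm
    omega
  have h3 := Finset.le_card_sdiff (Ex a) (J.image u)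
  have h4 := h.exc a
  set I := J.image u \ Ex a with hI
  have h5 : ∀ v, ∃ (Y : Set R) (L : Set V), v ∈ I → Y ∈ J ∧ u Y = v ∧ L ∈ Lg a ∧
      ∃ x ∈ L, x ∈ M.B v ∪ M.D (te v) := by
    intro v
    by_cases hv : v ∈ I
    · obtain ⟨e1, e2⟩ := Finset.mem_sdiff.1 hv
      obtain ⟨Y, hY, rfl⟩ := Finset.mem_image.1 e1
      obtain ⟨L, hL, hx⟩ := h.meet _ (hu Y hY).1 (by rw [(hu Y hY).2.1]; exact e2)
      rw [(hu Y hY).2.1] at hL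
      exact ⟨Y, L, fun _ => ⟨hY, rfl, hL, hx⟩⟩
    · exact ⟨∅, ∅, fun e => (hv e).elim⟩
  choose j l hj using h5
  obtain ⟨L, hL, h6⟩ := Finset.exists_lt_card_fiber_of_mul_lt_card_of_maps_to
    (s := I) (t := Lg a) (f := l) (n := m) (fun v hv => (hj v hv).2.2.1) (by
      have := Nat.mul_le_mul_right m (h.lgc a)
      omega)
  have hinj : Set.InjOn j (I.filter fun v => l v = L) := fun v hv v' hv' e => by
    rw [← (hj v (Finset.mem_filter.1 hv).1).2.1, ← (hj v' (Finset.mem_filter.1 hv').1).2.1, e]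
  set J' := (I.filter fun v => l v = L).image j with hJ'
  have mJ : ∀ Y ∈ J', Y ∈ J ∧ j (u Y) = Y ∧ ∃ x ∈ L, x ∈ M.B (u Y) ∪ M.D (te (u Y)) := by
    intro Y hY
    obtain ⟨v, hv, rfl⟩ := Finset.mem_image.1 hY
    obtain ⟨e1, e2⟩ := Finset.mem_filter.1 hv
    obtain ⟨e3, e4, -, e5⟩ := hj v e1
    rw [e4]
    exact ⟨e3, rfl, e2 ▸ e5⟩
  have h7 : ∀ Y, ∃ P : Set V, Y ∈ J' → P ⊆ M.B (u Y) ∪ M.D (te (u Y)) ∧ Disjoint L P ∧ Conn Γ P ∧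
      (P.Nonempty → Tch Γ (M.hatS Y) P) ∧ Tch Γ L (M.hatS Y ∪ P) := by
    intro Y
    by_cases hY : Y ∈ J'
    · obtain ⟨e1, -, x, hxL, hx⟩ := mJ Y hY
      obtain ⟨y, hy, b, hb, hyb⟩ := (hu Y e1).2.2
      by_cases hbL : b ∈ L
      · exact ⟨∅, fun _ => ⟨empty_subset _, disjoint_empty _, conn_empty,
          fun e => (e.ne_empty rfl).elim, b, hbL, y, Or.inl hy, hyb.symm⟩⟩
      · refine ⟨comp Γ ((M.B (u Y) ∪ M.D (te (u Y))) \ L) b, fun _ => ⟨fun w hw => hw.1.1,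
          disjoint_left.2 fun w h1 h2 => h2.1.2 h1, comp_conn _ _,
          fun _ => ⟨y, hy, b, mem_comp_self ⟨Or.inl hb, hbL⟩, hyb⟩, ?_⟩⟩
        exact ((M.conn_BD (h.mem _)).comp_tch (Or.inl hb) hbL hx hxL).symm.mono
          inter_subset_right subset_union_right
    · exact ⟨∅, fun e => (hY e).elim⟩
  choose P hP using h7
  refine ⟨J', fun Y hY => (mJ Y hY).1, by rw [hJ', Finset.card_image_of_injOn hinj]; exact h6,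
    L, P, h.lgconn a L hL, Or.inl hL, fun Y e => (hP Y e).1, fun Y e => (hP Y e).2.1,
    fun Y e => (hP Y e).2.2.1, fun Y e => (hP Y e).2.2.2.1, fun Y e => (hP Y e).2.2.2.2,
    fun Y e Y' e' _ e'' => by rw [← (mJ Y e).2.1, e'', (mJ Y' e').2.1]⟩

/-- The bound on the number of tripods with disjoint shadows. -/
def nx (k : ℕ) : ℕ := gx k (gx k (gx k (2 * (2 * (3 * (2 * (k + 1))) + 1))))

theorem StD.pack (h33 : NoK33 Γ) (h : StD M π W Lab O te Lg Ex) (J : Finset (Set R))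
    (hJ : ∀ Y ∈ J, Tripod G π W Lab Y)
    (hd : ∀ Y ∈ J, ∀ Y' ∈ J, Y ≠ Y' → Disjoint (M.hatS Y) (M.hatS Y')) : J.card ≤ nx k := by
  classical
  by_contra hlt
  push Not at hlt
  obtain ⟨Y₀, hY₀⟩ : J.Nonempty := Finset.card_pos.1 (by omega)
  obtain ⟨a₀, a₁, a₂, h01, h02, h12, hLab⟩ := Finset.card_eq_three.1 (hJ Y₀ hY₀).2.2.1
  let ℓ : Fin 3 → ℕ := ![a₀, a₁, a₂]
  have hℓ : ∀ i j, ℓ i = ℓ j → i = j := by
    intro i j
    fin_cases i <;> fin_cases j <;> simp [ℓ, h01, h02, h12, h01.symm, h02.symm, h12.symm]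
  have hℓ' : ∀ i, ℓ i ∈ Lab := by
    intro i
    fin_cases i <;> simp [ℓ, hLab]
  have hu : ∀ (i : Fin 3) (Y : Set R), ∃ u : R, Y ∈ J →
      u ∈ Nb G W ∧ π u = ℓ i ∧ Tch Γ (M.hatS Y) (M.B u) := by
    intro i Y
    by_cases hY : Y ∈ J
    · obtain ⟨y, hy, u, h1, h2, h3⟩ := (hJ Y hY).2.2.2 _ (hℓ' i)
      exact ⟨u, fun _ => ⟨⟨h1, y, (hJ Y hY).1 hy, h2⟩, h3,
        (M.tch_hat h2).mono (M.hat_subset hy) subset_rfl⟩⟩
    · obtain ⟨y, -⟩ := (hJ Y₀ hY₀).2.2.2 _ (hℓ' i)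
      exact ⟨y, fun e => (hY e).elim⟩
  choose u hu using hu
  obtain ⟨J₀, s₀, n₀, b₀⟩ := h.branch _ (u 0) J (hu 0) _ hlt
  obtain ⟨J₁, s₁, n₁, b₁⟩ := h.branch _ (u 1) J₀ (fun Y e => hu 1 Y (s₀ e)) _ n₀
  obtain ⟨J₂, s₂, n₂, b₂⟩ := h.branch _ (u 2) J₁ (fun Y e => hu 2 Y (s₀ (s₁ e))) _ n₁
  have sJ : J₂ ⊆ J := fun Y e => s₀ (s₁ (s₂ e))
  have hb : ∀ i : Fin 3, ∃ Z P, Branch M π W te Lg (ℓ i) (u i) J₂ Z P := by
    intro i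
    fin_cases i
    · obtain ⟨Z, P, e⟩ := b₀
      exact ⟨Z, P, e.mono fun Y e => s₁ (s₂ e)⟩
    · obtain ⟨Z, P, e⟩ := b₁
      exact ⟨Z, P, e.mono s₂⟩
    · exact b₂
  choose Z P hb using hb
  set T : Set R → Set R := fun Y => {x | x ∈ Y ∨ ∃ i, (P i Y).Nonempty ∧ x = u i Y} with hT
  have hTd : ∀ Y ∈ J₂, ∀ Y' ∈ J₂, ∀ x ∈ T Y, x ∈ T Y' → Y = Y' := by
    rintro Y hY Y' hY' x (e | ⟨i, e, rfl⟩) (e' | ⟨i', e', e''⟩)
    · by_contra hne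
      obtain ⟨b, hb⟩ := M.neB x
      exact disjoint_left.1 (hd Y (sJ hY) Y' (sJ hY') hne) ⟨x, e, Or.inl hb⟩ ⟨x, e', Or.inl hb⟩
    · exact ((hu i' Y' (sJ hY')).1.1 (e'' ▸ (hJ Y (sJ hY)).1 e)).elim
    · exact ((hu i Y (sJ hY)).1.1 ((hJ Y' (sJ hY')).1 e')).elim
    · have : i = i' := hℓ _ _ (by rw [← (hu i Y (sJ hY)).2.1, e'', (hu i' Y' (sJ hY')).2.1])
      subst this
      exact (hb i).inj Y hY Y' hY' e e''
  set c : Set R → Set R → Prop := fun Y Y' =>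
    ∃ i f, (M.D (te (u i Y)) ∩ M.D f).Nonempty ∧ ∃ x ∈ f, x ∈ T Y' with hc
  have own : ∀ x : R, ∃ Y : Set R, ∀ Y' ∈ J₂, x ∈ T Y' → Y' = Y := by
    intro x
    by_cases hx : ∃ Y ∈ J₂, x ∈ T Y
    · obtain ⟨Y, h1, h2⟩ := hx
      exact ⟨Y, fun Y' h3 h4 => hTd Y' h3 Y h1 x h4 h2⟩
    · exact ⟨∅, fun Y' h3 h4 => (hx ⟨Y', h3, h4⟩).elim⟩
  choose own hown using own
  obtain ⟨Y₁, m₁, Y₂, m₂, Y₃, m₃, c12, c13, c23⟩ := exists_indep c J₂ (3 * (2 * (k + 1))) n₂ (by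
    intro Y _
    choose F hF using M.near
    refine ⟨(Finset.univ.biUnion fun i : Fin 3 => F (te (u i Y))).image own, ?_, ?_⟩
    · refine Finset.card_image_le.trans ?_
      simpa using Finset.card_biUnion_le_card_mul Finset.univ
        (fun i : Fin 3 => F (te (u i Y))) (2 * (k + 1)) fun i _ => (hF _).1
    · rintro Y' hY' ⟨i, f, h1, x, h2, h3⟩
      exact Finset.mem_image.2 ⟨x, Finset.mem_biUnion.2 ⟨i, Finset.mem_univ _, (hF _).2 f h1 x h2⟩,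
        (hown x Y' hY' h3).symm⟩)
  set Q : Set R → Set V := fun Y => {x | x ∈ M.hatS Y ∨ ∃ i, x ∈ P i Y} with hQ
  have Qc : ∀ Y ∈ J₂, Conn Γ (Q Y) := by
    intro Y hY
    have hc := M.hatS_conn (hJ Y (sJ hY)).2.1
    refine conn_of_base hc (fun x e => Or.inl e) ?_
    rintro x (e | ⟨i, e⟩)
    · exact ⟨x, e, Rch.refl _ _⟩
    · obtain ⟨y, hy⟩ := ((hb i).tchP Y hY ⟨x, e⟩).left
      refine ⟨y, hy, ((hc.union_tch ((hb i).connP Y hY) ((hb i).tchP Y hY ⟨x, e⟩)) x (Or.inr e) y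
        (Or.inl hy)).mono ?_⟩
      rintro w (e | e)
      · exact Or.inl e
      · exact Or.inr ⟨i, e⟩
  have half : ∀ Y ∈ J₂, ∀ Y' ∈ J₂, Y ≠ Y' → ¬ c Y Y' → ∀ i, ∀ x ∈ P i Y, x ∉ Q Y' := by
    rintro Y hY Y' hY' hne hcc i x hx (⟨y, hy, e⟩ | ⟨i', e⟩)
    · rcases (hb i).sub Y hY hx with e1 | e1
      · exact (hu i Y (sJ hY)).1.1 (M.eq_of_mem_hat e1 e ▸ (hJ Y' (sJ hY')).1 hy)
      · rcases e with e | ⟨f, hf, e⟩
        · exact M.disjBD _ _ x e e1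
        · exact hcc ⟨i, f, ⟨x, e1, e⟩, y, hf, Or.inl hy⟩
    · rcases (hb i).sub Y hY hx with e1 | e1 <;> rcases (hb i').sub Y' hY' e with e2 | e2
      · exact hne (hTd Y hY Y' hY' (u i Y) (Or.inr ⟨i, ⟨x, hx⟩, rfl⟩)
          (Or.inr ⟨i', ⟨x, e⟩, M.disjB _ _ x e1 e2⟩))
      · exact M.disjBD _ _ x e1 e2
      · exact M.disjBD _ _ x e2 e1
      · exact hcc ⟨i, _, ⟨x, e1, e2⟩, u i' Y', h.mem _, Or.inr ⟨i', ⟨x, e⟩, rfl⟩⟩
  have Qd : ∀ Y ∈ J₂, ∀ Y' ∈ J₂, Y ≠ Y' ∧ ¬ c Y Y' ∧ ¬ c Y' Y → Disjoint (Q Y) (Q Y') := by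
    rintro Y hY Y' hY' ⟨hne, c1, c2⟩
    rw [disjoint_left]
    rintro x (e | ⟨i, e⟩) e'
    · rcases e' with e' | ⟨i, e'⟩
      · exact disjoint_left.1 (hd Y (sJ hY) Y' (sJ hY') hne) e e'
      · exact half Y' hY' Y hY hne.symm c2 i x e' (Or.inl e)
    · exact half Y hY Y' hY' hne c1 i x e e'
  have Zd : ∀ i j, i ≠ j → Disjoint (Z i) (Z j) := by
    intro i j hij
    have hne : ℓ i ≠ ℓ j := fun e => hij (hℓ _ _ e)
    rcases (hb i).kind with e | ⟨v, hv, e1, e⟩ <;> rcases (hb j).kind with e' | ⟨v', hv', e1', e'⟩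
    · exact h.lgd _ _ hne _ e _ e'
    · rw [e']
      exact ((h.avoid v' hv' _ (e1' ▸ hne) _ e).mono_left subset_union_left).symm
    · rw [e]
      exact (h.avoid v hv _ (e1 ▸ hne.symm) _ e').mono_left subset_union_left
    · rw [e, e']
      exact disjoint_left.2 fun x h1 h2 => hne (by rw [← e1, ← e1', M.disjB _ _ x h1 h2])
  have ZQ : ∀ i, ∀ Y ∈ J₂, Disjoint (Z i) (Q Y) := by
    intro i Y hY
    rw [disjoint_left]
    rintro x hx (⟨y, hy, e⟩ | ⟨j, e⟩)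
    · rcases (hb i).kind with e' | ⟨v, hv, -, e'⟩
      · exact h.hatO x ⟨y, (hJ Y (sJ hY)).1 hy, e⟩ (h.lgO _ _ e' hx)
      · rw [e'] at hx
        exact hv.1 (M.eq_of_mem_hat hx e ▸ (hJ Y (sJ hY)).1 hy)
    · by_cases hij : i = j
      · subst hij
        exact disjoint_left.1 ((hb i).disj Y hY) hx e
      · have hne : ℓ i ≠ π (u j Y) := by
          rw [(hu j Y (sJ hY)).2.1]
          exact fun e => hij (hℓ _ _ e)
        rcases (hb i).kind with e' | ⟨v, hv, e1, e'⟩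
        · exact disjoint_left.1 (h.avoid _ (hu j Y (sJ hY)).1 _ hne _ e') ((hb j).sub Y hY e) hx
        · rw [e'] at hx
          rcases (hb j).sub Y hY e with e2 | e2
          · exact hne (by rw [← e1, M.disjB _ _ x hx e2])
          · exact M.disjBD _ _ x hx e2
  have ZT : ∀ i, ∀ Y ∈ J₂, Tch Γ (Z i) (Q Y) := fun i Y hY =>
    ((hb i).tch Y hY).mono subset_rfl (by
      rintro w (e | e)
      · exact Or.inl e
      · exact Or.inr ⟨i, e⟩)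
  exact h33 (Z 0) (Z 1) (Z 2) (Q Y₁) (Q Y₂) (Q Y₃) (hb 0).conn (hb 1).conn (hb 2).conn
    (Qc _ m₁) (Qc _ m₂) (Qc _ m₃) (Zd _ _ (by decide)) (Zd _ _ (by decide)) (Zd _ _ (by decide))
    (Qd _ m₁ _ m₂ c12) (Qd _ m₁ _ m₃ c13) (Qd _ m₂ _ m₃ c23)
    (ZQ _ _ m₁) (ZQ _ _ m₂) (ZQ _ _ m₃) (ZQ _ _ m₁) (ZQ _ _ m₂) (ZQ _ _ m₃)
    (ZQ _ _ m₁) (ZQ _ _ m₂) (ZQ _ _ m₃) (ZT _ _ m₁) (ZT _ _ m₂) (ZT _ _ m₃)
    (ZT _ _ m₁) (ZT _ _ m₂) (ZT _ _ m₃) (ZT _ _ m₁) (ZT _ _ m₂) (ZT _ _ m₃)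

end Pool.Agent.Lib.MP_25cd9a_co
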