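import Pool.Agent.Lib.MP_25cd9a_co.Link

set_option autoImplicit false

namespace Pool.Agent.Lib.MP_25cd9a_co

open Set

variable {V : Type*} {G : SimpleGraph V}

/-- The vertex reaches `T` through `S \ T` in the given number of steps plus one. -/
def Rn (G : SimpleGraph V) (S T : Set V) : ℕ → V → Prop
  | 0, x => x ∈ S \ T ∧ ∃ y ∈ T, G.Adj x y
  | n + 1, x => x ∈ S \ T ∧ ∃ y, G.Adj x y ∧ Rn G S T n y

theorem Rn.mem {S T : Set V} {n : ℕ} {x : V} (h : Rn G S T n x) : x ∈ S \ T := by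
  cases n with
  | zero => exact h.1
  | succ n => exact h.1

theorem exists_rn {S T : Set V} (hS : Conn G S)
    (h : ∃ a ∈ S, ∃ y, (a = y ∨ G.Adj a y) ∧ y ∈ T) :
    ∀ x ∈ S, x ∉ T → ∃ n, Rn G S T n x := by
  obtain ⟨a, ha, y, hay, hy⟩ := h
  refine hS.ind ha (fun x => x ∉ T → ∃ n, Rn G S T n x) (fun haT => ?_) ?_
  · rcases hay with e | e
    · exact (haT (e ▸ hy)).elim
    · exact ⟨0, ⟨ha, haT⟩, y, hy, e⟩
  · intro u v _ hv huv ih hvT
    by_cases huT : u ∈ T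
    · exact ⟨0, ⟨hv, hvT⟩, u, huT, huv.symm⟩
    · obtain ⟨n, hn⟩ := ih huT
      exact ⟨n + 1, ⟨hv, hvT⟩, u, huv.symm, hn⟩

theorem route [Finite V] {ι : Type*} [Nonempty ι] (Bk : ι → Set V) (κ : ι → ℕ) (act : ι → Prop)
    (O : Set V) (cover : ∀ x, x ∉ O → ∃ i, act i ∧ x ∈ Bk i)
    (conn : ∀ i, act i → Conn G (Bk i))
    (disj : ∀ i j, act i → act j → κ i = κ j → ∀ x ∈ Bk i, x ∈ Bk j → i = j)
    (desc : ∀ i, act i → ∃ x ∈ Bk i, ∃ y, (x = y ∨ G.Adj x y) ∧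
      (y ∈ O ∨ ∃ j, act j ∧ κ j < κ i ∧ y ∈ Bk j)) :
    ∃ (p : V → V) (rk : V → ℕ) (ob : V → ι), Forest G p rk ∧ (∀ x ∈ O, p x = x) ∧
      ∀ x, x ∉ O → p x ≠ x ∧ act (ob x) ∧ x ∈ Bk (ob x) ∧
        (∀ j, act j → x ∈ Bk j → κ (ob x) ≤ κ j) ∧
        (p x ∈ O ∨ κ (ob (p x)) < κ (ob x) ∨ ob (p x) = ob x) := by
  classical
  have h1 : ∀ x, ∃ i, x ∉ O → act i ∧ x ∈ Bk i ∧ ∀ j, act j → x ∈ Bk j → κ i ≤ κ j := by
    intro x
    by_cases hx : x ∈ O
    · exact ⟨Classical.arbitrary ι, fun e => (e hx).elim⟩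
    · have hex : ∃ n, ∃ i, act i ∧ x ∈ Bk i ∧ κ i = n := by
        obtain ⟨i, h1, h2⟩ := cover x hx
        exact ⟨_, i, h1, h2, rfl⟩
      obtain ⟨i, h1, h2, h3⟩ := Nat.find_spec hex
      exact ⟨i, fun _ => ⟨h1, h2, fun j a b => h3 ▸ Nat.find_min' hex ⟨j, a, b, rfl⟩⟩⟩
  choose ob hob using h1
  set Tg : ι → Set V := fun i => {y | y ∈ O ∨ ∃ j, act j ∧ κ j < κ i ∧ y ∈ Bk j} with hTg
  have notT : ∀ x, x ∉ O → x ∉ Tg (ob x) := by
    rintro x hx (e | ⟨j, a, b, c⟩)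
    · exact hx e
    · have := (hob x hx).2.2 j a c
      omega
  have same : ∀ i, act i → ∀ y ∈ Bk i \ Tg i, ob y = i := by
    intro i hi y hy
    have hyO : y ∉ O := fun e => hy.2 (Or.inl e)
    have a := (hob y hyO).2.2 i hi hy.1
    have b : ¬ κ (ob y) < κ i := fun e => hy.2 (Or.inr ⟨_, (hob y hyO).1, e, (hob y hyO).2.1⟩)
    exact disj _ _ (hob y hyO).1 hi (by omega) y (hob y hyO).2.1 hy.1
  set d : V → ℕ := fun x => sInf {n | Rn G (Bk (ob x)) (Tg (ob x)) n x} with hd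
  have h2 : ∀ x, ∃ y, (x ∈ O → y = x) ∧ (x ∉ O → G.Adj x y ∧
      (y ∈ Tg (ob x) ∨ (y ∉ O ∧ ob y = ob x ∧ d y < d x))) := by
    intro x
    by_cases hx : x ∈ O
    · exact ⟨x, fun _ => rfl, fun e => (e hx).elim⟩
    · have hne : {n | Rn G (Bk (ob x)) (Tg (ob x)) n x}.Nonempty :=
        exists_rn (conn _ (hob x hx).1) (desc _ (hob x hx).1) x (hob x hx).2.1 (notT x hx)
      have hm : Rn G (Bk (ob x)) (Tg (ob x)) (d x) x := Nat.sInf_mem hne
      cases hdx : d x with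
      | zero =>
        rw [hdx] at hm
        obtain ⟨-, y, hy, a⟩ := hm
        exact ⟨y, fun e => (hx e).elim, fun _ => ⟨a, Or.inl hy⟩⟩
      | succ n =>
        rw [hdx] at hm
        obtain ⟨-, y, a, hy⟩ := hm
        have e := same _ (hob x hx).1 y hy.mem
        refine ⟨y, fun e => (hx e).elim, fun _ => ⟨a, Or.inr ⟨fun e => hy.mem.2 (Or.inl e), e, ?_⟩⟩⟩
        have : d y ≤ n := Nat.sInf_le (by rw [mem_ofPred_eq, e]; exact hy)
        omega
  choose p hpO hp using h2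
  obtain ⟨M, hM⟩ : ∃ M, ∀ x, d x < M := by
    obtain ⟨M, hM⟩ := (finite_range d).bddAbove
    exact ⟨M + 1, fun x => Nat.lt_succ_of_le (hM ⟨x, rfl⟩)⟩
  have hk : ∀ x, x ∉ O → p x ∈ O ∨ κ (ob (p x)) < κ (ob x) ∨
      (p x ∉ O ∧ ob (p x) = ob x ∧ d (p x) < d x) := by
    intro x hx
    rcases (hp x hx).2 with (e | ⟨j, a, b, c⟩) | e
    · exact Or.inl e
    · by_cases hpx : p x ∈ O
      · exact Or.inl hpx
      · exact Or.inr (Or.inl (((hob _ hpx).2.2 j a c).trans_lt b))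
    · exact Or.inr (Or.inr e)
  refine ⟨p, fun x => if x ∈ O then 0 else 1 + κ (ob x) * M + d x, ob, fun x => ?_, hpO,
    fun x hx => ⟨(hp x hx).1.ne', (hob x hx).1, (hob x hx).2.1, (hob x hx).2.2, ?_⟩⟩
  · by_cases hx : x ∈ O
    · exact Or.inl (hpO x hx)
    · refine Or.inr ⟨(hp x hx).1, ?_⟩
      simp only [if_neg hx]
      by_cases hpx : p x ∈ O
      · rw [if_pos hpx]; omega
      · rw [if_neg hpx]
        rcases hk x hx with e | e | e
        · exact (hpx e).elim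
        · have := hM (p x)
          have : (κ (ob (p x)) + 1) * M ≤ κ (ob x) * M := Nat.mul_le_mul_right _ e
          nlinarith
        · rw [e.2.1]; omega
  · rcases hk x hx with e | e | e
    · exact Or.inl e
    · exact Or.inr (Or.inl e)
    · exact Or.inr (Or.inr e.2.1)

/-- Along an orbit the key never increases and each key value belongs to one object. -/
theorem orb_key {ι : Type*} {p : V → V} {O : Set V} {κ : ι → ℕ} {ob : V → ι}
    (hO : ∀ x ∈ O, p x = x)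
    (h : ∀ x, x ∉ O → p x ∈ O ∨ κ (ob (p x)) < κ (ob x) ∨ ob (p x) = ob x) {x y : V}
    (hy : y ∈ orb p x) (hyO : y ∉ O) : κ (ob y) < κ (ob x) ∨ ob y = ob x := by
  refine orb_ind (fun y => y ∉ O → κ (ob y) < κ (ob x) ∨ ob y = ob x) (fun _ => Or.inr rfl)
    ?_ y hy hyO
  intro y _ ih hpy
  have hyO : y ∉ O := fun e => hpy (by rw [hO y e]; exact e)
  rcases h y hyO with e | e | e
  · exact (hpy e).elim
  · rcases ih hyO with e' | e'
    · exact Or.inl (e.trans e')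
    · exact Or.inl (e' ▸ e)
  · rw [e]; exact ih hyO

end Pool.Agent.Lib.MP_25cd9a_co
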