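import Pool.Agent.Lib.MP_25cd9a_co.Link

set_option autoImplicit false

namespace Pool.Agent.Lib.MP_25cd9a_co

open Set

variable {V : Type*} {G : SimpleGraph V} {p : V → V} {rk : V → ℕ}

/-- Union of the orbits of finitely many vertices. -/
def orbs (p : V → V) (X : Finset V) : Set V := {y | ∃ c ∈ X, y ∈ orb p c}

theorem orbs_step {X : Finset V} {y : V} (h : y ∈ orbs p X) : p y ∈ orbs p X := by
  obtain ⟨c, hc, h⟩ := h
  exact ⟨c, hc, orb_step h⟩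

theorem orbs_mono {X Y : Finset V} (h : X ⊆ Y) : orbs p X ⊆ orbs p Y :=
  fun _ ⟨c, hc, hy⟩ => ⟨c, h hc, hy⟩

theorem mem_orbs_self {X : Finset V} {c : V} (h : c ∈ X) : c ∈ orbs p X := ⟨c, h, orb_self _ _⟩

theorem orb_cases {x y : V} (h : y ∈ orb p x) : y = x ∨ y ∈ orb p (p x) := by
  obtain ⟨n, rfl⟩ := h
  cases n with
  | zero => exact Or.inl rfl
  | succ n => exact Or.inr ⟨n, (Function.iterate_succ_apply _ _ _).symm⟩

theorem orb_total {x u w : V} (hu : u ∈ orb p x) (hw : w ∈ orb p x) :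
    u ∈ orb p w ∨ w ∈ orb p u := by
  obtain ⟨n, rfl⟩ := hu
  obtain ⟨m, rfl⟩ := hw
  rcases le_total n m with h | h
  · exact Or.inr ⟨m - n, by rw [← Function.iterate_add_apply, Nat.sub_add_cancel h]⟩
  · exact Or.inl ⟨n - m, by rw [← Function.iterate_add_apply, Nat.sub_add_cancel h]⟩

/-- Vertices of `Z` and vertices of `K` whose orbit leaves `K` into `Z`. -/
def cls (p : V → V) (K Z : Set V) : Set V :=
  {y | y ∈ Z ∨ (y ∈ K ∧ ∃ w ∈ orb p y, w ∈ K ∧ p w ∈ Z)}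

theorem subset_cls (K Z : Set V) : Z ⊆ cls p K Z := fun _ h => Or.inl h

theorem cls_subset (K Z : Set V) : cls p K Z ⊆ K ∪ Z := by
  rintro y (h | h)
  · exact Or.inr h
  · exact Or.inl h.1

theorem leg_subset_cls {K Z : Set V} (up : ∀ y, y ∉ K → p y ∉ K) (d : Disjoint K Z) {x : V}
    (hx : x ∈ cls p K Z) : orb p x ∩ K ⊆ cls p K Z := by
  rintro u ⟨hu, huK⟩
  rcases hx with hx | ⟨-, w, hw, hwK, hwZ⟩
  · exact (orb_closed (S := Kᶜ) up (disjoint_right.1 d hx) hu huK).elim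
  · refine Or.inr ⟨huK, w, ?_, hwK, hwZ⟩
    rcases orb_total hu hw with h | h
    · rcases orb_cases h with h | h
      · exact h ▸ orb_self _ _
      · exact (orb_closed (S := Kᶜ) up (disjoint_right.1 d hwZ) h huK).elim
    · exact h

theorem cls_next {K Z : Set V} (up : ∀ y, y ∉ K → p y ∉ K) :
    ∀ y ∈ cls p K Z, y ∈ Z ∨ (y ∈ K ∧ p y ∈ cls p K Z) := by
  rintro y (hy | ⟨hy, w, hw, hwK, hwZ⟩)
  · exact Or.inl hy
  · refine Or.inr ⟨hy, ?_⟩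
    rcases orb_cases hw with h | h
    · exact Or.inl (h ▸ hwZ)
    · exact Or.inr ⟨by_contra fun hp => orb_closed (S := Kᶜ) up hp h hwK, w, h, hwK, hwZ⟩

theorem cls_conn (hF : Forest G p rk) {K Z : Set V} (fix : ∀ y ∈ K, p y ≠ y)
    (up : ∀ y, y ∉ K → p y ∉ K) (d : Disjoint K Z) (hZ : Conn G Z) : Conn G (cls p K Z) := by
  refine conn_of_base hZ (subset_cls _ _) fun y hy => ?_
  have hl := leg_subset_cls up d hy
  rcases hy with hy | ⟨hy, w, hw, hwK, hwZ⟩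
  · exact ⟨y, hy, Rch.refl _ _⟩
  · exact ⟨p w, hwZ, ((hF.leg_conn up y y ⟨orb_self _ _, hy⟩ w ⟨hw, hwK⟩).mono hl).trans
      (Rch.step ((hF w).resolve_left (fix w hwK)).1 (hl ⟨hw, hwK⟩) (Or.inl hwZ))⟩

theorem cls_disjoint {K Z Z' : Set V} (up : ∀ y, y ∉ K → p y ∉ K) (d : Disjoint K Z)
    (d' : Disjoint K Z') (dd : Disjoint Z Z') : Disjoint (cls p K Z) (cls p K Z') := by
  rw [disjoint_left]
  rintro y (h | ⟨h, w, hw, hwK, hwZ⟩) (h' | ⟨h', w', hw', hwK', hwZ'⟩)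
  · exact disjoint_left.1 dd h h'
  · exact disjoint_left.1 d h' h
  · exact disjoint_left.1 d' h h'
  · rcases orb_total hw hw' with e | e
    · rcases orb_cases e with e | e
      · exact disjoint_left.1 dd hwZ (e ▸ hwZ')
      · exact orb_closed (S := Kᶜ) up (disjoint_right.1 d' hwZ') e hwK
    · rcases orb_cases e with e | e
      · exact disjoint_left.1 dd (e ▸ hwZ) hwZ'
      · exact orb_closed (S := Kᶜ) up (disjoint_right.1 d hwZ) e hwK'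

theorem cls_nonempty {K Z : Set V} (h : (cls p K Z).Nonempty) : Z.Nonempty := by
  obtain ⟨y, h | ⟨-, w, -, -, h⟩⟩ := h
  · exact ⟨y, h⟩
  · exact ⟨_, h⟩

theorem cls_tch (hF : Forest G p rk) {K Z : Set V} (fix : ∀ y ∈ K, p y ≠ y) (d : Disjoint K Z)
    {x : V} (hx : x ∈ cls p K Z) (hxK : x ∈ K) : Tch G Z (orb p x ∩ K) := by
  rcases hx with hx | ⟨-, w, hw, hwK, hwZ⟩
  · exact (disjoint_left.1 d hxK hx).elim
  · exact ⟨p w, hwZ, w, ⟨hw, hwK⟩, ((hF w).resolve_left (fix w hwK)).1.symm⟩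

/-- A region whose boundary lies in three pairwise touching connected sets. -/
structure GoodT (G : SimpleGraph V) (p : V → V) (O K Z₁ Z₂ Z₃ : Set V) (C₁ C₂ C₃ : Finset V) :
    Prop where
  conn : Conn G K
  fix : ∀ y ∈ K, p y ≠ y
  up : ∀ y, y ∉ K → p y ∉ K
  c1 : Conn G Z₁
  c2 : Conn G Z₂
  c3 : Conn G Z₃
  d1 : Disjoint K Z₁
  d2 : Disjoint K Z₂
  d3 : Disjoint K Z₃
  d12 : Disjoint Z₁ Z₂
  d13 : Disjoint Z₁ Z₃
  d23 : Disjoint Z₂ Z₃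
  t12 : Z₁.Nonempty → Z₂.Nonempty → Tch G Z₁ Z₂
  t13 : Z₁.Nonempty → Z₃.Nonempty → Tch G Z₁ Z₃
  t23 : Z₂.Nonempty → Z₃.Nonempty → Tch G Z₂ Z₃
  nb : ∀ x ∈ K, ∀ y, y ∉ K → G.Adj x y → y ∈ Z₁ ∨ y ∈ Z₂ ∨ y ∈ Z₃
  v1 : ∀ x ∈ K, ∀ y ∈ Z₁, G.Adj x y → y ∈ O ∨ y ∈ orbs p C₁
  v2 : ∀ x ∈ K, ∀ y ∈ Z₂, G.Adj x y → y ∈ O ∨ y ∈ orbs p C₂
  v3 : ∀ x ∈ K, ∀ y ∈ Z₃, G.Adj x y → y ∈ O ∨ y ∈ orbs p C₃
  n1 : C₁.card ≤ 2
  n2 : C₂.card ≤ 2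
  n3 : C₃.card ≤ 2
  o1 : ∀ c ∈ C₁, c ∉ K
  o2 : ∀ c ∈ C₂, c ∉ K
  o3 : ∀ c ∈ C₃, c ∉ K

/-- A region with such boundary data. -/
def Good (G : SimpleGraph V) (p : V → V) (O K : Set V) : Prop :=
  ∃ Z₁ Z₂ Z₃ C₁ C₂ C₃, GoodT G p O K Z₁ Z₂ Z₃ C₁ C₂ C₃

variable {O K Z₁ Z₂ Z₃ : Set V} {C₁ C₂ C₃ : Finset V}

theorem GoodT.swap13 (h : GoodT G p O K Z₁ Z₂ Z₃ C₁ C₂ C₃) : GoodT G p O K Z₃ Z₂ Z₁ C₃ C₂ C₁ :=
  ⟨h.conn, h.fix, h.up, h.c3, h.c2, h.c1, h.d3, h.d2, h.d1, h.d23.symm, h.d13.symm, h.d12.symm,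
    fun a b => (h.t23 b a).symm, fun a b => (h.t13 b a).symm, fun a b => (h.t12 b a).symm,
    fun x hx y hy a => by have := h.nb x hx y hy a; tauto, h.v3, h.v2, h.v1, h.n3, h.n2, h.n1,
    h.o3, h.o2, h.o1⟩

theorem GoodT.swap23 (h : GoodT G p O K Z₁ Z₂ Z₃ C₁ C₂ C₃) : GoodT G p O K Z₁ Z₃ Z₂ C₁ C₃ C₂ :=
  ⟨h.conn, h.fix, h.up, h.c1, h.c3, h.c2, h.d1, h.d3, h.d2, h.d13, h.d12, h.d23.symm,
    h.t13, h.t12, fun a b => (h.t23 b a).symm,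
    fun x hx y hy a => by have := h.nb x hx y hy a; tauto, h.v1, h.v3, h.v2, h.n1, h.n3, h.n2,
    h.o1, h.o3, h.o2⟩

theorem GoodT.swap12 (h : GoodT G p O K Z₁ Z₂ Z₃ C₁ C₂ C₃) : GoodT G p O K Z₂ Z₁ Z₃ C₂ C₁ C₃ :=
  h.swap13.swap23.swap13

theorem GoodT.cover (hF : Forest G p rk) (h : GoodT G p O K Z₁ Z₂ Z₃ C₁ C₂ C₃) :
    ∀ y ∈ K, y ∈ cls p K Z₁ ∨ y ∈ cls p K Z₂ ∨ y ∈ cls p K Z₃ := by
  intro y hy
  obtain ⟨w, hw, hwK, hp⟩ := hF.exists_exit h.fix hy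
  rcases h.nb w hwK _ hp ((hF w).resolve_left (h.fix w hwK)).1 with e | e | e
  · exact Or.inl (Or.inr ⟨hy, w, hw, hwK, e⟩)
  · exact Or.inr (Or.inl (Or.inr ⟨hy, w, hw, hwK, e⟩))
  · exact Or.inr (Or.inr (Or.inr ⟨hy, w, hw, hwK, e⟩))

/-- The set neither meets nor touches `A`. -/
def Miss (G : SimpleGraph V) (S A : Set V) : Prop := ∀ y ∈ S, y ∉ A ∧ ∀ w ∈ A, ¬ G.Adj y w

theorem miss_of {S A₁ A₂ A₃ : Set V} (hS : Conn G S) (hSK : S ⊆ K)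
    (cov : ∀ y ∈ S, y ∈ A₁ ∨ y ∈ A₂ ∨ y ∈ A₃) (d13 : Disjoint A₁ A₃) (d23 : Disjoint A₂ A₃)
    (n1 : ∀ L, L ⊆ S → ¬ IsLink G K A₁ A₂ A₃ L) (n2 : ∀ L, L ⊆ S → ¬ IsLink G K A₂ A₁ A₃ L)
    {y₀ : V} (hy₀ : y₀ ∈ S) (h1 : y₀ ∈ A₁) (h2 : ¬ Tch G (comp G (S ∩ A₁) y₀) A₃) :
    Miss G S A₃ := by
  have key := hS.ind hy₀ (fun y => (y ∈ A₁ ∧ ¬ Tch G (comp G (S ∩ A₁) y) A₃) ∨
    (y ∈ A₂ ∧ ¬ Tch G (comp G (S ∩ A₂) y) A₃)) (Or.inl ⟨h1, h2⟩) ?_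
  · intro y hy
    rcases key y hy with h | h
    · exact ⟨disjoint_left.1 d13 h.1, fun w hw a => h.2 ⟨y, mem_comp_self ⟨hy, h.1⟩, w, hw, a⟩⟩
    · exact ⟨disjoint_left.1 d23 h.1, fun w hw a => h.2 ⟨y, mem_comp_self ⟨hy, h.1⟩, w, hw, a⟩⟩
  · rintro a b ha hb hab (h | h)
    · rcases cov b hb with e | e | e
      · refine Or.inl ⟨e, ?_⟩
        rw [comp_eq (comp_step (mem_comp_self (S := S ∩ A₁) ⟨ha, h.1⟩) ⟨hb, e⟩ hab)]
        exact h.2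
      · exact Or.inr ⟨e, fun t => n2 (comp G (S ∩ A₂) b) (fun w hw => hw.1.1)
          ⟨fun w hw => hw.1.2, fun w hw => hSK hw.1.1, comp_conn _ _,
          ⟨b, mem_comp_self (S := S ∩ A₂) ⟨hb, e⟩, a, h.1, hab.symm⟩, t⟩⟩
      · exact (h.2 ⟨a, mem_comp_self ⟨ha, h.1⟩, b, e, hab⟩).elim
    · rcases cov b hb with e | e | e
      · exact Or.inl ⟨e, fun t => n1 (comp G (S ∩ A₁) b) (fun w hw => hw.1.1)
          ⟨fun w hw => hw.1.2, fun w hw => hSK hw.1.1, comp_conn _ _,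
          ⟨b, mem_comp_self (S := S ∩ A₁) ⟨hb, e⟩, a, h.1, hab.symm⟩, t⟩⟩
      · refine Or.inr ⟨e, ?_⟩
        rw [comp_eq (comp_step (mem_comp_self (S := S ∩ A₂) ⟨ha, h.1⟩) ⟨hb, e⟩ hab)]
        exact h.2
      · exact (h.2 ⟨a, mem_comp_self ⟨ha, h.1⟩, b, e, hab⟩).elim

theorem IsLink.swap {A₁ A₂ A₃ L : Set V} (h : IsLink G K A₁ A₂ A₃ L) : IsLink G K A₁ A₃ A₂ L :=
  ⟨h.1, h.2.1, h.2.2.1, h.2.2.2.2, h.2.2.2.1⟩

theorem miss_one {S A₁ A₂ A₃ : Set V} (hS : Conn G S) (hSK : S ⊆ K)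
    (cov : ∀ y ∈ S, y ∈ A₁ ∨ y ∈ A₂ ∨ y ∈ A₃) (d12 : Disjoint A₁ A₂) (d13 : Disjoint A₁ A₃)
    (d23 : Disjoint A₂ A₃)
    (n1 : ∀ L, L ⊆ S → ¬ IsLink G K A₁ A₂ A₃ L) (n2 : ∀ L, L ⊆ S → ¬ IsLink G K A₂ A₁ A₃ L)
    (n3 : ∀ L, L ⊆ S → ¬ IsLink G K A₃ A₁ A₂ L) {y₀ : V} (hy₀ : y₀ ∈ S) (h1 : y₀ ∈ A₁) :
    Miss G S A₂ ∨ Miss G S A₃ := by
  by_cases h : Tch G (comp G (S ∩ A₁) y₀) A₃
  · refine Or.inl (miss_of hS hSK (fun y hy => by have := cov y hy; tauto) d12 d23.symm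
      (fun L hL h => n1 L hL h.swap) n3 hy₀ h1 fun t => ?_)
    exact n1 _ (fun w hw => hw.1.1) ⟨fun w hw => hw.1.2, fun w hw => hSK hw.1.1,
      comp_conn _ _, t, h⟩
  · exact Or.inr (miss_of hS hSK cov d13 d23 n1 n2 hy₀ h1 h)

theorem miss_three {S A₁ A₂ A₃ : Set V} (hS : Conn G S) (hSK : S ⊆ K)
    (cov : ∀ y ∈ S, y ∈ A₁ ∨ y ∈ A₂ ∨ y ∈ A₃) (d12 : Disjoint A₁ A₂) (d13 : Disjoint A₁ A₃)
    (d23 : Disjoint A₂ A₃)
    (n1 : ∀ L, L ⊆ S → ¬ IsLink G K A₁ A₂ A₃ L) (n2 : ∀ L, L ⊆ S → ¬ IsLink G K A₂ A₁ A₃ L)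
    (n3 : ∀ L, L ⊆ S → ¬ IsLink G K A₃ A₁ A₂ L) {y₀ : V} (hy₀ : y₀ ∈ S) :
    Miss G S A₁ ∨ Miss G S A₂ ∨ Miss G S A₃ := by
  rcases cov y₀ hy₀ with e | e | e
  · exact Or.inr (miss_one hS hSK cov d12 d13 d23 n1 n2 n3 hy₀ e)
  · have := miss_one hS hSK (fun y hy => by have := cov y hy; tauto) d12.symm d23 d13 n2 n1
      (fun L hL h => n3 L hL h.swap) hy₀ e
    tauto
  · have := miss_one hS hSK (fun y hy => by have := cov y hy; tauto) d13.symm d23.symm d12 n3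
      (fun L hL h => n1 L hL h.swap) (fun L hL h => n2 L hL h.swap) hy₀ e
    tauto

theorem comp_up (hF : Forest G p rk) (up : ∀ y, y ∉ K → p y ∉ K) {U : Set V}
    (hU : ∀ y ∈ U, p y ∈ U) (y₀ : V) :
    ∀ y, y ∉ comp G (K \ U) y₀ → p y ∉ comp G (K \ U) y₀ := by
  intro y hy hp
  rcases hF y with e | e
  · exact hy (e ▸ hp)
  · exact hy (comp_step hp ⟨by_contra fun h => up y h hp.1.1, fun h => hp.1.2 (hU y h)⟩ e.1.symm)

theorem GoodT.child₂ (hF : Forest G p rk) (h : GoodT G p O K Z₁ Z₂ Z₃ C₁ C₂ C₃)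
    (hm : ∀ x ∈ K, ∀ y ∈ Z₃, ¬ G.Adj x y) {X : Finset V} (hc : X.card ≤ 2)
    (hX : Conn G (orbs p X ∩ K)) (t1 : Z₁.Nonempty → Tch G Z₁ (orbs p X ∩ K))
    (t2 : Z₂.Nonempty → Tch G Z₂ (orbs p X ∩ K)) (y₀ : V) :
    Good G p O (comp G (K \ orbs p X) y₀) := by
  have hs : comp G (K \ orbs p X) y₀ ⊆ K := fun w hw => hw.1.1
  refine ⟨Z₁, Z₂, orbs p X ∩ K, C₁, C₂, X, comp_conn _ _, fun y hy => h.fix y (hs hy),
    comp_up hF h.up (fun y => orbs_step) y₀, h.c1, h.c2, hX, h.d1.mono_left hs,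
    h.d2.mono_left hs, disjoint_left.2 fun w hw e => hw.1.2 e.1, h.d12,
    h.d1.symm.mono_right inter_subset_right, h.d2.symm.mono_right inter_subset_right, h.t12,
    fun a _ => t1 a, fun a _ => t2 a, fun x hx y hy a => ?_, fun x hx => h.v1 x (hs hx),
    fun x hx => h.v2 x (hs hx), fun x _ y hy _ => Or.inr hy.1, h.n1, h.n2, hc,
    fun c hc e => h.o1 c hc (hs e), fun c hc e => h.o2 c hc (hs e),
    fun c hc e => e.1.2 (mem_orbs_self hc)⟩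
  by_cases hyK : y ∈ K
  · exact Or.inr (Or.inr ⟨by_contra fun e => hy (comp_step hx ⟨hyK, e⟩ a), hyK⟩)
  · rcases h.nb x (hs hx) y hyK a with e | e | e
    · exact Or.inl e
    · exact Or.inr (Or.inl e)
    · exact (hm x (hs hx) y e a).elim

theorem GoodT.drop₂ (h : GoodT G p O K Z₁ Z₂ Z₃ C₁ C₂ C₃)
    (hm : ∀ x ∈ K, ∀ y ∈ Z₂, ¬ G.Adj x y) : GoodT G p O K Z₁ ∅ Z₃ C₁ ∅ C₃ :=
  ⟨h.conn, h.fix, h.up, h.c1, conn_empty, h.c3, h.d1, disjoint_empty _, h.d3, disjoint_empty _,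
    h.d13, empty_disjoint _, fun _ b => (b.ne_empty rfl).elim, h.t13,
    fun b _ => (b.ne_empty rfl).elim, fun x hx y hy a => by
      rcases h.nb x hx y hy a with e | e | e
      · exact Or.inl e
      · exact (hm x hx y e a).elim
      · exact Or.inr (Or.inr e),
    h.v1, fun _ _ _ e => e.elim, h.v3, h.n1, by simp, h.n3, h.o1, by simp, h.o3⟩

/-- The conclusion of one cutting step. -/
def Cut (G : SimpleGraph V) (p : V → V) (O K : Set V) : Prop :=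
  ∃ X : Finset V, X.card ≤ 3 ∧ X.Nonempty ∧ (∀ x ∈ X, x ∈ K) ∧
    ∀ y ∈ K \ orbs p X, Good G p O (comp G (K \ orbs p X) y)

theorem orbs_singleton (x : V) : orbs p {x} = orb p x := by
  ext y; simp [orbs]

theorem GoodT.cut_one (hF : Forest G p rk) (h : GoodT G p O K Z₁ Z₂ Z₃ C₁ C₂ C₃)
    (hm : Miss G K (cls p K Z₃)) {x : V} (hx : x ∈ K) (h1 : x ∈ cls p K Z₁)
    (hno : ∀ x ∈ cls p K Z₁, ∀ y ∈ cls p K Z₂, G.Adj x y → x ∉ K ∧ y ∉ K) : Cut G p O K := by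
  have hall : ∀ y ∈ K, y ∈ cls p K Z₁ := h.conn.ind hx _ h1 fun a b ha hb hab e => by
    rcases h.cover hF b hb with e' | e' | e'
    · exact e'
    · exact ((hno a e b e' hab).1 ha).elim
    · exact ((hm b hb).1 e').elim
  have h' := h.drop₂ fun x hx y hy a => (hno x (hall x hx) y (subset_cls _ _ hy) a).1 hx
  refine ⟨{x}, by simp, by simp, by simpa using hx, fun y _ => h'.child₂ hF
    (fun x hx y hy => (hm x hx).2 y (subset_cls _ _ hy)) (by simp) ?_ (fun _ => ?_)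
    (fun b => (b.ne_empty rfl).elim) y⟩
  · rw [orbs_singleton]; exact hF.leg_conn h.up x
  · rw [orbs_singleton]; exact cls_tch hF h.fix h.d1 h1 hx

theorem GoodT.cut_miss (hF : Forest G p rk) (h : GoodT G p O K Z₁ Z₂ Z₃ C₁ C₂ C₃)
    (hm : Miss G K (cls p K Z₃)) (hne : K.Nonempty) : Cut G p O K := by
  classical
  by_cases hno : ∀ x ∈ cls p K Z₁, ∀ y ∈ cls p K Z₂, G.Adj x y → x ∉ K ∧ y ∉ K
  · obtain ⟨x, hx⟩ := hne
    rcases h.cover hF x hx with e | e | e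
    · exact h.cut_one hF hm hx e hno
    · exact h.swap12.cut_one hF hm hx e fun x hx y hy a => (hno y hy x hx a.symm).symm
    · exact ((hm x hx).1 e).elim
  push Not at hno
  obtain ⟨x, hx, y, hy, hxy, hK⟩ := hno
  have hm' : ∀ x ∈ K, ∀ y ∈ Z₃, ¬ G.Adj x y := fun x hx y hy => (hm x hx).2 y (subset_cls _ _ hy)
  by_cases hxK : x ∈ K
  · by_cases hyK : y ∈ K
    · have e : orbs p {x, y} ∩ K = (orb p x ∩ K) ∪ (orb p y ∩ K) := by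
        ext w
        simp only [orbs, Finset.mem_insert, Finset.mem_singleton, exists_eq_or_imp, exists_eq_left,
          mem_inter_iff, mem_ofPred_eq, mem_union]
        tauto
      refine ⟨{x, y}, Finset.card_le_two.trans (by norm_num), by simp, by simp [hxK, hyK],
        fun w _ => h.child₂ hF hm' Finset.card_le_two ?_ (fun _ => ?_) (fun _ => ?_) w⟩
      · rw [e]
        exact (hF.leg_conn h.up x).union_tch (hF.leg_conn h.up y)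
          ⟨x, ⟨orb_self _ _, hxK⟩, y, ⟨orb_self _ _, hyK⟩, hxy⟩
      · rw [e]; exact (cls_tch hF h.fix h.d1 hx hxK).mono subset_rfl subset_union_left
      · rw [e]; exact (cls_tch hF h.fix h.d2 hy hyK).mono subset_rfl subset_union_right
    · refine ⟨{x}, by simp, by simp, by simpa using hxK, fun w _ => h.child₂ hF hm' (by simp)
        ?_ (fun _ => ?_) (fun _ => ?_) w⟩
      · rw [orbs_singleton]; exact hF.leg_conn h.up x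
      · rw [orbs_singleton]; exact cls_tch hF h.fix h.d1 hx hxK
      · rw [orbs_singleton]
        exact ⟨y, (cls_subset _ _ hy).resolve_left hyK, x, ⟨orb_self _ _, hxK⟩, hxy.symm⟩
  · have hyK : y ∈ K := hK hxK
    refine ⟨{y}, by simp, by simp, by simpa using hyK, fun w _ => h.child₂ hF hm' (by simp)
      ?_ (fun _ => ?_) (fun _ => ?_) w⟩
    · rw [orbs_singleton]; exact hF.leg_conn h.up y
    · rw [orbs_singleton]
      exact ⟨x, (cls_subset _ _ hx).resolve_left hxK, y, ⟨orb_self _ _, hyK⟩, hxy⟩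
    · rw [orbs_singleton]; exact cls_tch hF h.fix h.d2 hy hyK

theorem GoodT.child₃ (hF : Forest G p rk) (h : GoodT G p O K Z₁ Z₂ Z₃ C₁ C₂ C₃)
    (e₁ : Z₁.Nonempty) (e₂ : Z₂.Nonempty) (e₃ : Z₃.Nonempty) {X₁ X₂ X₃ X : Finset V}
    (hX : ∀ x, x ∈ X ↔ x ∈ X₁ ∨ x ∈ X₂ ∨ x ∈ X₃) (n₁ : X₁.card ≤ 1) (n₂ : X₂.card ≤ 1)
    (l₁ : ∀ x ∈ X₁, ∃ L, IsLink G K (cls p K Z₁) (cls p K Z₂) (cls p K Z₃) L ∧ x ∈ L)
    (l₂ : ∀ x ∈ X₂, ∃ L, IsLink G K (cls p K Z₂) (cls p K Z₁) (cls p K Z₃) L ∧ x ∈ L)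
    (l₃ : ∀ x ∈ X₃, x ∈ cls p K Z₃) (y₀ : V)
    (hm : Miss G (comp G (K \ orbs p X) y₀) (cls p K Z₃)) :
    Good G p O (comp G (K \ orbs p X) y₀) := by
  classical
  set K' := comp G (K \ orbs p X) y₀ with hK'
  have hs : K' ⊆ K := fun w hw => hw.1.1
  obtain ⟨z, hz⟩ := e₃
  set Z := comp G ((K ∪ Z₃) \ K') z with hZ
  have hA₃ : cls p K Z₃ ⊆ (K ∪ Z₃) \ K' := fun w hw =>
    ⟨cls_subset _ _ hw, fun e => (hm w e).1 hw⟩
  have hAZ : cls p K Z₃ ⊆ Z := (cls_conn hF h.fix h.up h.d3 h.c3).subset_comp hA₃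
    (subset_cls _ _ hz) (mem_comp_self (hA₃ (subset_cls _ _ hz)))
  have m₁ : ∀ x ∈ X₁, x ∈ cls p K Z₁ := fun x hx => by
    obtain ⟨L, hL, hxL⟩ := l₁ x hx
    exact hL.1 hxL
  have m₂ : ∀ x ∈ X₂, x ∈ cls p K Z₂ := fun x hx => by
    obtain ⟨L, hL, hxL⟩ := l₂ x hx
    exact hL.1 hxL
  have dd12 := cls_disjoint (p := p) h.up h.d1 h.d2 h.d12
  have dd13 := cls_disjoint (p := p) h.up h.d1 h.d3 h.d13
  have dd23 := cls_disjoint (p := p) h.up h.d2 h.d3 h.d23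
  have leg_in : ∀ (A B : Set V) (x : V) (L : Set V), IsLink G K A B (cls p K Z₃) L → x ∈ L →
      x ∈ X → (∀ u ∈ K, u ∈ A → u ∈ orbs p X → u ∈ orb p x) → orb p x ∩ K ⊆ Z := by
    intro A B x L hL hxL hxX hu
    obtain ⟨y, hy, a, ha, hya⟩ := hL.2.2.2.2
    have hleg : orb p x ∩ K ⊆ (K ∪ Z₃) \ K' := fun w hw =>
      ⟨Or.inl hw.2, fun e => e.1.2 ⟨x, hxX, hw.1⟩⟩
    have hyK' : y ∉ K' := fun e => (hm y e).2 a ha hya
    have hyZ : y ∈ Z := comp_step (hAZ ha) ⟨Or.inl (hL.2.1 hy), hyK'⟩ hya.symm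
    by_cases hyo : y ∈ orb p x
    · exact (hF.leg_conn h.up x).subset_comp hleg ⟨hyo, hL.2.1 hy⟩ hyZ
    · obtain ⟨b, hb, c, hc, hbc⟩ := hL.2.2.1.comp_tch hy hyo hxL (orb_self p x)
      have hT : comp G (L \ orb p x) y ⊆ K \ orbs p X := fun w hw =>
        ⟨hL.2.1 hw.1.1, fun e => hw.1.2 (hu w (hL.2.1 hw.1.1) (hL.1 hw.1.1) e)⟩
      have hT' : comp G (L \ orb p x) y ⊆ (K ∪ Z₃) \ K' := fun w hw =>
        ⟨Or.inl (hT hw).1, fun e =>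
          hyK' ((comp_conn _ _).subset_comp hT hw e (mem_comp_self ⟨hy, hyo⟩))⟩
      have hbZ : b ∈ Z := (comp_conn _ _).subset_comp hT' (mem_comp_self ⟨hy, hyo⟩) hyZ hb
      have hc' : c ∈ orb p x ∩ K := ⟨hc.2, hL.2.1 hc.1⟩
      exact (hF.leg_conn h.up x).subset_comp hleg hc' (comp_step hbZ (hleg hc') hbc)
  have nbr : ∀ x ∈ K', ∀ y ∈ K, y ∉ K' → G.Adj x y → y ∈ orbs p (X₁ ∪ X₂) := by
    intro x hx y hyK hy a
    obtain ⟨c, hc, hyc⟩ : y ∈ orbs p X := by_contra fun e => hy (comp_step hx ⟨hyK, e⟩ a)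
    rcases (hX c).1 hc with e | e | e
    · exact ⟨c, Finset.mem_union_left _ e, hyc⟩
    · exact ⟨c, Finset.mem_union_right _ e, hyc⟩
    · exact ((hm x hx).2 y (leg_subset_cls h.up h.d3 (l₃ c e) ⟨hyc, hyK⟩) a).elim
  have hZs : Z ⊆ K ∪ Z₃ := fun w hw => hw.1.1
  refine ⟨Z₁, Z₂, Z, C₁, C₂, X₁ ∪ X₂, comp_conn _ _, fun y hy => h.fix y (hs hy),
    comp_up hF h.up (fun y => orbs_step) y₀, h.c1, h.c2, comp_conn _ _, h.d1.mono_left hs,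
    h.d2.mono_left hs, disjoint_left.2 fun w hw e => e.1.2 hw, h.d12,
    (disjoint_union_right.2 ⟨h.d1.symm, h.d13⟩).mono_right hZs,
    (disjoint_union_right.2 ⟨h.d2.symm, h.d23⟩).mono_right hZs, h.t12,
    fun _ _ => (h.t13 e₁ ⟨z, hz⟩).mono subset_rfl ((subset_cls _ _).trans hAZ),
    fun _ _ => (h.t23 e₂ ⟨z, hz⟩).mono subset_rfl ((subset_cls _ _).trans hAZ),
    fun x hx y hy a => ?_, fun x hx => h.v1 x (hs hx),
    fun x hx => h.v2 x (hs hx), fun x hx y hy a => Or.inr ?_, h.n1, h.n2,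
    (Finset.card_union_le _ _).trans (by omega),
    fun c hc e => h.o1 c hc (hs e), fun c hc e => h.o2 c hc (hs e),
    fun c hc e => e.1.2 (mem_orbs_self ((hX c).2 ?_))⟩
  · by_cases hyK : y ∈ K
    · obtain ⟨c, hc, hyc⟩ := nbr x hx y hyK hy a
      refine Or.inr (Or.inr ?_)
      rcases Finset.mem_union.1 hc with e | e
      · obtain ⟨L, hL, hcL⟩ := l₁ c e
        refine leg_in _ _ c L hL hcL ((hX c).2 (Or.inl e)) ?_ ⟨hyc, hyK⟩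
        rintro u huK huA ⟨c', hc', hu⟩
        rcases (hX c').1 hc' with e' | e' | e'
        · rwa [Finset.card_le_one.1 n₁ c e c' e']
        · exact (disjoint_left.1 dd12 huA
            (leg_subset_cls h.up h.d2 (m₂ c' e') ⟨hu, huK⟩)).elim
        · exact (disjoint_left.1 dd13 huA
            (leg_subset_cls h.up h.d3 (l₃ c' e') ⟨hu, huK⟩)).elim
      · obtain ⟨L, hL, hcL⟩ := l₂ c e
        refine leg_in _ _ c L hL hcL ((hX c).2 (Or.inr (Or.inl e))) ?_ ⟨hyc, hyK⟩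
        rintro u huK huA ⟨c', hc', hu⟩
        rcases (hX c').1 hc' with e' | e' | e'
        · exact (disjoint_right.1 dd12 huA
            (leg_subset_cls h.up h.d1 (m₁ c' e') ⟨hu, huK⟩)).elim
        · rwa [Finset.card_le_one.1 n₂ c e c' e']
        · exact (disjoint_left.1 dd23 huA
            (leg_subset_cls h.up h.d3 (l₃ c' e') ⟨hu, huK⟩)).elim
    · rcases h.nb x (hs hx) y hyK a with e | e | e
      · exact Or.inl e
      · exact Or.inr (Or.inl e)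
      · exact ((hm x hx).2 y (subset_cls _ _ e) a).elim
  · rcases hZs hy with e | e
    · exact nbr x hx y e hy.1.2 a
    · exact ((hm x hx).2 y (subset_cls _ _ e) a).elim
  · rcases Finset.mem_union.1 hc with e | e
    · exact Or.inl e
    · exact Or.inr (Or.inl e)

theorem GoodT.pick [Finite V] (h33 : NoK33 G) (h5 : NoK5 G) (hF : Forest G p rk)
    (h : GoodT G p O K Z₁ Z₂ Z₃ C₁ C₂ C₃)
    (e₁ : Z₁.Nonempty) (e₂ : Z₂.Nonempty) (e₃ : Z₃.Nonempty) :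
    ∃ X : Finset V, X.card ≤ 1 ∧
      (∀ x ∈ X, ∃ L, IsLink G K (cls p K Z₁) (cls p K Z₂) (cls p K Z₃) L ∧ x ∈ L) ∧
      ∀ L, IsLink G K (cls p K Z₁) (cls p K Z₂) (cls p K Z₃) L → ∃ y ∈ L, y ∈ orbs p X := by
  by_cases hex : ∃ L, IsLink G K (cls p K Z₁) (cls p K Z₂) (cls p K Z₃) L
  · obtain ⟨L, x, hL, hx, hall⟩ := link_lemma h33 h5 hF h.conn h.fix h.c1 h.c2 h.c3 h.d1 h.d2 h.d3
      (h.t12 e₁ e₂) (h.t13 e₁ e₃) (h.t23 e₂ e₃) (cls_conn hF h.fix h.up h.d2 h.c2)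
      (cls_conn hF h.fix h.up h.d3 h.c3) (subset_cls _ _) (subset_cls _ _) (subset_cls _ _)
      (cls_disjoint h.up h.d1 h.d2 h.d12) (cls_disjoint h.up h.d1 h.d3 h.d13)
      (cls_disjoint h.up h.d2 h.d3 h.d23) (cls_next h.up) hex
    refine ⟨{x}, by simp, ?_, ?_⟩
    · intro y hy
      rw [Finset.mem_singleton] at hy
      exact ⟨L, hL, hy ▸ hx⟩
    · rw [orbs_singleton]; exact hall
  · exact ⟨∅, by simp, by simp, fun L hL => (hex ⟨L, hL⟩).elim⟩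

theorem Good.cut [Finite V] (h33 : NoK33 G) (h5 : NoK5 G) (hF : Forest G p rk)
    (h : Good G p O K) (hne : K.Nonempty) : Cut G p O K := by
  classical
  obtain ⟨Z₁, Z₂, Z₃, C₁, C₂, C₃, h⟩ := h
  have dd12 := cls_disjoint (p := p) h.up h.d1 h.d2 h.d12
  have dd13 := cls_disjoint (p := p) h.up h.d1 h.d3 h.d13
  have dd23 := cls_disjoint (p := p) h.up h.d2 h.d3 h.d23
  by_cases hno : (∀ L, ¬ IsLink G K (cls p K Z₁) (cls p K Z₂) (cls p K Z₃) L) ∧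
      (∀ L, ¬ IsLink G K (cls p K Z₂) (cls p K Z₁) (cls p K Z₃) L) ∧
      (∀ L, ¬ IsLink G K (cls p K Z₃) (cls p K Z₁) (cls p K Z₂) L)
  · obtain ⟨y, hy⟩ := hne
    rcases miss_three h.conn subset_rfl (h.cover hF) dd12 dd13 dd23 (fun L _ => hno.1 L)
      (fun L _ => hno.2.1 L) (fun L _ => hno.2.2 L) hy with e | e | e
    · exact h.swap13.cut_miss hF e ⟨y, hy⟩
    · exact h.swap23.cut_miss hF e ⟨y, hy⟩
    · exact h.cut_miss hF e ⟨y, hy⟩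
  have hlink : ∃ L, IsLink G K (cls p K Z₁) (cls p K Z₂) (cls p K Z₃) L ∨
      IsLink G K (cls p K Z₂) (cls p K Z₁) (cls p K Z₃) L ∨
      IsLink G K (cls p K Z₃) (cls p K Z₁) (cls p K Z₂) L := by
    by_contra hh
    push Not at hh
    exact hno ⟨fun L => (hh L).1, fun L => (hh L).2.1, fun L => (hh L).2.2⟩
  have hnon : ∀ {A B D L : Set V}, IsLink G K A B D L → A.Nonempty ∧ B.Nonempty ∧ D.Nonempty :=
    fun hL => ⟨hL.2.2.2.1.left.mono hL.1, hL.2.2.2.1.right, hL.2.2.2.2.right⟩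
  have hE : Z₁.Nonempty ∧ Z₂.Nonempty ∧ Z₃.Nonempty := by
    obtain ⟨L, e | e | e⟩ := hlink
    · exact ⟨cls_nonempty (hnon e).1, cls_nonempty (hnon e).2.1, cls_nonempty (hnon e).2.2⟩
    · exact ⟨cls_nonempty (hnon e).2.1, cls_nonempty (hnon e).1, cls_nonempty (hnon e).2.2⟩
    · exact ⟨cls_nonempty (hnon e).2.1, cls_nonempty (hnon e).2.2, cls_nonempty (hnon e).1⟩
  obtain ⟨e₁, e₂, e₃⟩ := hE
  obtain ⟨X₁, n₁, l₁, a₁⟩ := h.pick h33 h5 hF e₁ e₂ e₃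
  obtain ⟨X₂, n₂, l₂, a₂⟩ := h.swap12.pick h33 h5 hF e₂ e₁ e₃
  obtain ⟨X₃, n₃, l₃, a₃⟩ := h.swap13.swap23.pick h33 h5 hF e₃ e₁ e₂
  have hX : ∀ x, x ∈ X₁ ∪ X₂ ∪ X₃ ↔ x ∈ X₁ ∨ x ∈ X₂ ∨ x ∈ X₃ := fun x => by
    simp only [Finset.mem_union, or_assoc]
  have s₁ : orbs p X₁ ⊆ orbs p (X₁ ∪ X₂ ∪ X₃) := orbs_mono fun x hx => (hX x).2 (Or.inl hx)
  have s₂ : orbs p X₂ ⊆ orbs p (X₁ ∪ X₂ ∪ X₃) :=
    orbs_mono fun x hx => (hX x).2 (Or.inr (Or.inl hx))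
  have s₃ : orbs p X₃ ⊆ orbs p (X₁ ∪ X₂ ∪ X₃) :=
    orbs_mono fun x hx => (hX x).2 (Or.inr (Or.inr hx))
  refine ⟨X₁ ∪ X₂ ∪ X₃, ?_, ?_, ?_, fun y hy => ?_⟩
  · have := Finset.card_union_le (X₁ ∪ X₂) X₃
    have := Finset.card_union_le X₁ X₂
    omega
  · obtain ⟨L, e | e | e⟩ := hlink
    · obtain ⟨y, -, c, hc, -⟩ := a₁ L e
      exact ⟨c, (hX c).2 (Or.inl hc)⟩
    · obtain ⟨y, -, c, hc, -⟩ := a₂ L e
      exact ⟨c, (hX c).2 (Or.inr (Or.inl hc))⟩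
    · obtain ⟨y, -, c, hc, -⟩ := a₃ L e
      exact ⟨c, (hX c).2 (Or.inr (Or.inr hc))⟩
  · intro x hx
    rcases (hX x).1 hx with e | e | e
    · obtain ⟨L, hL, hxL⟩ := l₁ x e
      exact hL.2.1 hxL
    · obtain ⟨L, hL, hxL⟩ := l₂ x e
      exact hL.2.1 hxL
    · obtain ⟨L, hL, hxL⟩ := l₃ x e
      exact hL.2.1 hxL
  · have mem : ∀ {A B D : Set V} {X : Finset V}, (∀ x ∈ X, ∃ L, IsLink G K A B D L ∧ x ∈ L) →
        ∀ x ∈ X, x ∈ A := fun l x hx => by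
      obtain ⟨L, hL, hxL⟩ := l x hx
      exact hL.1 hxL
    have sw : ∀ {A B D : Set V} {X : Finset V}, (∀ x ∈ X, ∃ L, IsLink G K A B D L ∧ x ∈ L) →
        ∀ x ∈ X, ∃ L, IsLink G K A D B L ∧ x ∈ L := fun l x hx => by
      obtain ⟨L, hL, hxL⟩ := l x hx
      exact ⟨L, hL.swap, hxL⟩
    rcases miss_three (K := K) (comp_conn (K \ orbs p (X₁ ∪ X₂ ∪ X₃)) y) (fun w hw => hw.1.1)
      (fun w hw => h.cover hF w hw.1.1) dd12 dd13 dd23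
      (fun L hL e => by obtain ⟨w, hw, hw'⟩ := a₁ L e; exact (hL hw).1.2 (s₁ hw'))
      (fun L hL e => by obtain ⟨w, hw, hw'⟩ := a₂ L e; exact (hL hw).1.2 (s₂ hw'))
      (fun L hL e => by obtain ⟨w, hw, hw'⟩ := a₃ L e; exact (hL hw).1.2 (s₃ hw'))
      (mem_comp_self hy) with e | e | e
    · exact h.swap13.child₃ hF e₃ e₂ e₁ (X₁ := X₃) (X₂ := X₂) (X₃ := X₁)
        (fun x => by rw [hX]; tauto) n₃ n₂ (sw l₃) (sw l₂) (mem l₁) y e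
    · exact h.swap23.child₃ hF e₁ e₃ e₂ (X₁ := X₁) (X₂ := X₃) (X₃ := X₂)
        (fun x => by rw [hX]; tauto) n₁ n₃ (sw l₁) l₃ (mem l₂) y e
    · exact h.child₃ hF e₁ e₂ e₃ hX n₁ n₂ l₁ l₂ (mem l₃) y e

end Pool.Agent.Lib.MP_25cd9a_co
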