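import Pool.Agent.Lib.MP_25cd9a_co.Conn

set_option autoImplicit false

namespace Pool.Agent.Lib.MP_25cd9a_co

open Set

variable {V : Type*} {G : SimpleGraph V}

/-- Three connected sets extending a triangle and two further sets touching all three. -/
structure Cfg (G : SimpleGraph V) (K Z₁ Z₂ Z₃ B₁ B₂ B₃ L₁ L₂ : Set V) : Prop where
  c1 : Conn G B₁
  c2 : Conn G B₂
  c3 : Conn G B₃
  l1 : Conn G L₁
  l2 : Conn G L₂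
  s1 : Z₁ ⊆ B₁
  s2 : Z₂ ⊆ B₂
  s3 : Z₃ ⊆ B₃
  k1 : L₁ ⊆ K
  k2 : L₂ ⊆ K
  d12 : Disjoint B₁ B₂
  d13 : Disjoint B₁ B₃
  d23 : Disjoint B₂ B₃
  dl : Disjoint L₁ L₂
  e11 : Disjoint B₁ L₁
  e12 : Disjoint B₁ L₂
  e21 : Disjoint B₂ L₁
  e22 : Disjoint B₂ L₂
  e31 : Disjoint B₃ L₁
  e32 : Disjoint B₃ L₂
  t11 : Tch G B₁ L₁
  t12 : Tch G B₁ L₂
  t21 : Tch G B₂ L₁
  t22 : Tch G B₂ L₂
  t31 : Tch G B₃ L₁
  t32 : Tch G B₃ L₂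

theorem Cfg.swap12 {K Z₁ Z₂ Z₃ B₁ B₂ B₃ L₁ L₂ : Set V} (h : Cfg G K Z₁ Z₂ Z₃ B₁ B₂ B₃ L₁ L₂) :
    Cfg G K Z₂ Z₁ Z₃ B₂ B₁ B₃ L₁ L₂ :=
  ⟨h.c2, h.c1, h.c3, h.l1, h.l2, h.s2, h.s1, h.s3, h.k1, h.k2, h.d12.symm, h.d23, h.d13, h.dl,
    h.e21, h.e22, h.e11, h.e12, h.e31, h.e32, h.t21, h.t22, h.t11, h.t12, h.t31, h.t32⟩

theorem Cfg.swap13 {K Z₁ Z₂ Z₃ B₁ B₂ B₃ L₁ L₂ : Set V} (h : Cfg G K Z₁ Z₂ Z₃ B₁ B₂ B₃ L₁ L₂) :
    Cfg G K Z₃ Z₂ Z₁ B₃ B₂ B₁ L₁ L₂ :=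
  ⟨h.c3, h.c2, h.c1, h.l1, h.l2, h.s3, h.s2, h.s1, h.k1, h.k2, h.d23.symm, h.d13.symm,
    h.d12.symm, h.dl, h.e31, h.e32, h.e21, h.e22, h.e11, h.e12, h.t31, h.t32, h.t21, h.t22,
    h.t11, h.t12⟩

theorem Cfg.step (h33 : NoK33 G) {K Z₁ Z₂ Z₃ B₁ B₂ B₃ L₁ L₂ : Set V}
    (h : Cfg G K Z₁ Z₂ Z₃ B₁ B₂ B₃ L₁ L₂) (hZ : Conn G Z₁) (hd : Disjoint K Z₁)
    (t12 : Tch G Z₁ Z₂) (t13 : Tch G Z₁ Z₃) {a v : V} (ha : a ∈ L₁) (hav : G.Adj a v)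
    (hvK : v ∈ K) (hv : v ∈ B₁) :
    ∃ B, Cfg G K Z₁ Z₂ Z₃ B B₂ B₃ (insert v L₁) L₂ := by
  obtain ⟨z, hz⟩ := t12.left
  have hzv : z ∉ ({v} : Set V) := fun e => by
    rw [mem_singleton_iff] at e
    exact disjoint_left.1 hd hvK (e ▸ hz)
  set B := comp G (B₁ \ {v}) z with hB
  have hBs : B ⊆ B₁ := fun x hx => hx.1.1
  have hvB : v ∉ B := fun hx => hx.1.2 rfl
  have hZB : Z₁ ⊆ B := by
    refine hZ.subset_comp (S := B₁ \ {v}) (fun x hx => ⟨h.s1 hx, fun e => ?_⟩) hz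
      (mem_comp_self ⟨h.s1 hz, hzv⟩)
    rw [mem_singleton_iff] at e
    exact disjoint_left.1 hd hvK (e ▸ hx)
  have hBv : Tch G B (B₁ ∩ {v}) := h.c1.comp_tch (h.s1 hz) hzv hv rfl
  by_cases ht : Tch G B L₂
  · refine ⟨B, comp_conn _ _, h.c2, h.c3, ?_, h.l2, hZB, h.s2, h.s3, ?_, h.k2,
      h.d12.mono_left hBs, h.d13.mono_left hBs, h.d23, ?_, ?_, h.e12.mono_left hBs, ?_, h.e22,
      ?_, h.e32, hBv.mono subset_rfl ?_, ht, h.t21.mono subset_rfl (subset_insert _ _), h.t22,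
      h.t31.mono subset_rfl (subset_insert _ _), h.t32⟩
    · rw [insert_eq]
      exact (conn_singleton v).union_tch h.l1 ⟨v, rfl, a, ha, hav.symm⟩
    · exact insert_subset hvK h.k1
    · exact disjoint_insert_left.2 ⟨disjoint_left.1 h.e12 hv, h.dl⟩
    · exact disjoint_insert_right.2 ⟨hvB, h.e11.mono_left hBs⟩
    · exact disjoint_insert_right.2 ⟨disjoint_left.1 h.d12 hv, h.e21⟩
    · exact disjoint_insert_right.2 ⟨disjoint_left.1 h.d13 hv, h.e31⟩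
    · rintro x ⟨-, hx⟩
      exact Or.inl hx
  · exfalso
    have hQ : Conn G (B₁ \ B) := by
      refine conn_of_rch v fun x hx => ?_
      by_cases hxv : x = v
      · rw [hxv]; exact Rch.refl _ _
      · obtain ⟨p, hp, q, hq, hpq⟩ := h.c1.comp_tch (T := {v}) hx.1 hxv hv rfl
        have hsub : comp G (B₁ \ {v}) x ⊆ B₁ \ B := fun y hy => ⟨hy.1.1, fun hyB => by
          have := comp_eq_of_mem hy hyB
          exact hx.2 (by rw [hB, ← this]; exact mem_comp_self ⟨hx.1, hxv⟩)⟩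
        have hq' : q = v := hq.2
        subst hq'
        exact ((comp_conn (B₁ \ {q}) _ x (mem_comp_self ⟨hx.1, hxv⟩) p hp).mono hsub).trans
          (Rch.step hpq (hsub hp) ⟨hv, hvB⟩)
    have hQs : B₁ \ B ⊆ B₁ := sdiff_subset
    refine h33 (B₁ \ B) B₂ B₃ L₁ L₂ B hQ h.c2 h.c3 h.l1 h.l2 (comp_conn _ _)
      (h.d12.mono_left hQs) (h.d13.mono_left hQs) h.d23 h.dl (h.e11.symm.mono_right hBs)
      (h.e12.symm.mono_right hBs) (h.e11.mono_left hQs) (h.e12.mono_left hQs)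
      disjoint_sdiff_left h.e21 h.e22 (h.d12.symm.mono_right hBs) h.e31 h.e32
      (h.d13.symm.mono_right hBs) ⟨v, ⟨hv, hvB⟩, a, ha, hav.symm⟩ ?_ ?_ h.t21 h.t22
      (t12.symm.mono h.s2 hZB) h.t31 h.t32 (t13.symm.mono h.s3 hZB)
    · obtain ⟨x, hx, y, hy, hxy⟩ := h.t12
      exact ⟨x, ⟨hx, fun hxB => ht ⟨x, hxB, y, hy, hxy⟩⟩, y, hy, hxy⟩
    · refine hBv.symm.mono ?_ subset_rfl
      rintro x ⟨hx, hx'⟩
      rw [mem_singleton_iff] at hx'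
      exact ⟨hx, hx' ▸ hvB⟩

theorem Cfg.false [Finite V] (h33 : NoK33 G) (h5 : NoK5 G) {K Z₁ Z₂ Z₃ : Set V} (hK : Conn G K)
    (hZ₁ : Conn G Z₁) (hZ₂ : Conn G Z₂) (hZ₃ : Conn G Z₃) (d₁ : Disjoint K Z₁)
    (d₂ : Disjoint K Z₂) (d₃ : Disjoint K Z₃) (t12 : Tch G Z₁ Z₂) (t13 : Tch G Z₁ Z₃)
    (t23 : Tch G Z₂ Z₃) (n : ℕ) : ∀ B₁ B₂ B₃ L₁ L₂ : Set V, (K \ L₁).ncard = n →
      Cfg G K Z₁ Z₂ Z₃ B₁ B₂ B₃ L₁ L₂ → False := by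
  induction n using Nat.strong_induction_on with
  | _ n ih =>
    intro B₁ B₂ B₃ L₁ L₂ hn h
    obtain ⟨x, hx⟩ := h.t11.right
    obtain ⟨y, hy⟩ := h.t12.right
    obtain ⟨a, v, -, ha, hvK, hv, hav⟩ := hK.exit (h.k1 hx) hx (h.k2 hy)
      (disjoint_right.1 h.dl hy)
    have hlt : (K \ insert v L₁).ncard < n := by
      rw [← hn]
      refine ncard_lt_ncard ⟨sdiff_subset_sdiff_right (subset_insert _ _), fun hs => ?_⟩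
        (toFinite _)
      exact (hs ⟨hvK, hv⟩).2 (mem_insert _ _)
    by_cases h2 : v ∈ L₂
    · exact h5 B₁ B₂ B₃ L₁ L₂ h.c1 h.c2 h.c3 h.l1 h.l2 h.d12 h.d13 h.e11 h.e12 h.d23 h.e21 h.e22
        h.e31 h.e32 h.dl (t12.mono h.s1 h.s2) (t13.mono h.s1 h.s3) h.t11 h.t12
        (t23.mono h.s2 h.s3) h.t21 h.t22 h.t31 h.t32 ⟨a, ha, v, h2, hav⟩
    by_cases b1 : v ∈ B₁
    · obtain ⟨B, hB⟩ := h.step h33 hZ₁ d₁ t12 t13 ha hav hvK b1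
      exact ih _ hlt _ _ _ _ _ rfl hB
    by_cases b2 : v ∈ B₂
    · obtain ⟨B, hB⟩ := h.swap12.step h33 hZ₂ d₂ t12.symm t23 ha hav hvK b2
      exact ih _ hlt _ _ _ _ _ rfl hB.swap12
    by_cases b3 : v ∈ B₃
    · obtain ⟨B, hB⟩ := h.swap13.step h33 hZ₃ d₃ t23.symm t13.symm ha hav hvK b3
      exact ih _ hlt _ _ _ _ _ rfl hB.swap13
    refine ih _ hlt B₁ B₂ B₃ (insert v L₁) L₂ rfl ⟨h.c1, h.c2, h.c3, ?_, h.l2, h.s1, h.s2, h.s3,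
      insert_subset hvK h.k1, h.k2, h.d12, h.d13, h.d23, disjoint_insert_left.2 ⟨h2, h.dl⟩,
      disjoint_insert_right.2 ⟨b1, h.e11⟩, h.e12, disjoint_insert_right.2 ⟨b2, h.e21⟩, h.e22,
      disjoint_insert_right.2 ⟨b3, h.e31⟩, h.e32, h.t11.mono subset_rfl (subset_insert _ _),
      h.t12, h.t21.mono subset_rfl (subset_insert _ _), h.t22,
      h.t31.mono subset_rfl (subset_insert _ _), h.t32⟩
    rw [insert_eq]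
    exact (conn_singleton v).union_tch h.l1 ⟨v, rfl, a, ha, hav.symm⟩

end Pool.Agent.Lib.MP_25cd9a_co
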